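import Pool.Agent.SymZF.Iface

/-!
Module AxI: the axiom of infinity is forced.
-/

noncomputable section

namespace Pool.Agent.SymZF

section

variable {P G : Type} [PartialOrder P] [OrderTop P] [Group G] [MulAction G P]

/-- elements of the successor name -/
def sucEl {S : SymSys P G} (x : HSN S) : Option x.1.ix → HSN S
  | none => x
  | some i => x.el i

/-- conditions of the successor name -/
def sucCd {S : SymSys P G} (x : HSN S) : Option x.1.ix → P
  | none => ⊤
  | some i => x.1.cd i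

/-- the raw successor name `x ∪ {x}` -/
def sucRaw {S : SymSys P G} (x : HSN S) : Nm P :=
  Nm.mk (Option x.1.ix) (fun o => (sucEl x o).1) (sucCd x)

theorem mem_sucRaw {S : SymSys P G} (x z : HSN S) (r : P) :
    Nm.Mem z.1 (sucRaw x) r ↔ ∀ r' ≤ r, ∃ t ≤ r', Nm.Mem z.1 x.1 t ∨ Nm.Eqv z.1 x.1 t := by
  constructor
  · intro h r' hr'
    obtain ⟨s, hs, o, ho, he⟩ := h r' hr'
    match o, ho, he with
    | none, _, he => exact ⟨s, hs, Or.inr he⟩
    | some i, hi, he =>
      exact ⟨s, hs, Or.inl ((Nm.mem_el x.1 i hi).congr_left he.symm)⟩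
  · intro h r' hr'
    obtain ⟨t, ht, hm | he⟩ := h r' hr'
    · obtain ⟨s, hs, i, hi, he⟩ := hm t le_rfl
      exact ⟨s, hs.trans ht, some i, hi, he⟩
    · exact ⟨t, ht, none, le_top, he⟩

/-- the successor name -/
def sucN {S : SymSys P G} (x : HSN S) : HSN S :=
  HSN.mk' S (Option x.1.ix) (sucEl x) (sucCd x) (by
    obtain ⟨K, hK, hKx⟩ := x.exists_fix
    refine ⟨K, hK, fun g hg o => ?_⟩
    refine (mem_sucRaw x (g • sucEl x o) (g • sucCd x o)).2 ?_
    intro r' hr'
    refine ⟨r', le_rfl, ?_⟩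
    cases o with
    | none => exact Or.inr ((hKx g hg).mono le_top)
    | some i =>
      left
      have h1 : Nm.Mem (x.1.el i) x.1 (x.1.cd i) := Nm.mem_el x.1 i le_rfl
      have h2 := S.mem_smul g h1
      exact (h2.congr_right ((hKx g hg).mono le_top)).mono hr')

theorem eqv_smul_sucN {S : SymSys P G} (g : G) (x : HSN S)
    (h : ∀ r : P, Nm.Eqv (g • x).1 x.1 r) (r : P) : Nm.Eqv (g • sucN x).1 (sucN x).1 r := by
  apply HSN.ext_mem
  intro z t _
  have h1 : Nm.Mem z.1 (g • sucN x).1 t ↔ Nm.Mem (g⁻¹ • z).1 (sucN x).1 (g⁻¹ • t) := by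
    rw [← S.mem_smul_iff g (x := (g⁻¹ • z).1), ← HSN.smul_val, smul_inv_smul, smul_inv_smul]
    rfl
  rw [h1]
  have h2 := mem_sucRaw x (g⁻¹ • z) (g⁻¹ • t)
  have h3 := mem_sucRaw x z t
  refine Iff.trans h2 (Iff.trans ?_ h3.symm)
  constructor
  · intro hh r' hr'
    obtain ⟨u, hu, hm⟩ := hh (g⁻¹ • r') (S.smul_mono _ _ _ hr')
    refine ⟨g • u, by rw [S.smul_le_iff]; exact hu, ?_⟩
    rcases hm with hm | hm
    · left
      have h4 := S.mem_smul g hm
      rw [HSN.smul_val, smul_inv_smul] at h4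
      exact h4.congr_right (h _)
    · right
      have h4 := S.eqv_smul g hm
      rw [HSN.smul_val, smul_inv_smul] at h4
      exact h4.trans (h _)
  · intro hh r' hr'
    obtain ⟨u, hu, hm⟩ := hh (g • r') (by rw [S.smul_le_iff]; exact hr')
    refine ⟨g⁻¹ • u, by rw [S.smul_le_iff, inv_inv]; exact hu, ?_⟩
    rcases hm with hm | hm
    · left
      have h4 := S.mem_smul g⁻¹ (hm.congr_right (h u).symm)
      rw [HSN.smul_val, inv_smul_smul] at h4
      exact h4
    · right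
      have h4 := S.eqv_smul g⁻¹ (hm.trans (h u).symm)
      rw [HSN.smul_val, inv_smul_smul] at h4
      exact h4

/-- the von Neumann numerals -/
def vnN (S : SymSys P G) : ℕ → HSN S
  | 0 => emptyN S
  | n + 1 => sucN (vnN S n)

theorem eqv_smul_vnN (S : SymSys P G) (g : G) : ∀ (n : ℕ) (r : P),
    Nm.Eqv (g • vnN S n).1 (vnN S n).1 r
  | 0, r => by
    rw [vnN, smul_emptyN]; exact Nm.Eqv.refl _ _
  | n + 1, r => eqv_smul_sucN g (vnN S n) (eqv_smul_vnN S g n) r

/-- the set of all von Neumann numerals -/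
def omN (S : SymSys P G) : HSN S :=
  HSN.mk' S ℕ (vnN S) (fun _ => ⊤) ⟨⊤, S.top_mem, fun g _ n => by
    exact (Nm.mem_el (Nm.mk ℕ (fun i => (vnN S i).1) fun _ => ⊤) n le_top).congr_left
      (eqv_smul_vnN S g n _).symm⟩

theorem mem_omN (S : SymSys P G) (n : ℕ) (r : P) : Nm.Mem (vnN S n).1 (omN S).1 r :=
  Nm.mem_el (Nm.mk ℕ (fun i => (vnN S i).1) fun _ => ⊤) n le_top

end

theorem AxI_proof : Stmt_AxI := by
  intro P G _ _ _ _ S s r
  rw [Fml.cInf, Frc_ex]
  intro q _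
  refine ⟨q, le_rfl, omN S, ?_⟩
  simp only [Frc_all, Frc_iff, Frc_imp, Frc_or, Frc_ex, Frc_and, Frc_neg, Frc_mem, Frc_eq,
    cns_zero, cns_one, cns_two]
  constructor
  · intro r' _
    exact ⟨r', le_rfl, emptyN S, fun z t _ => not_mem_emptyN z t, mem_omN S 0 r'⟩
  · intro x r' _ hx t ht
    obtain ⟨u, hu, n', _, he⟩ := hx t ht
    obtain ⟨n, he'⟩ : ∃ n : ℕ, Nm.Eqv x.1 (vnN S n).1 u := ⟨n', he⟩
    refine ⟨u, hu, sucN x, ?_, ?_⟩
    · refine (mem_omN S (n + 1) u).congr_left ?_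
      apply HSN.ext_mem
      intro z v hv
      have h1 := mem_sucRaw (vnN S n) z v
      have h2 := mem_sucRaw x z v
      refine Iff.trans h1 (Iff.trans ?_ h2.symm)
      constructor
      · intro hh r₁ hr₁
        obtain ⟨w, hw, hm | hm⟩ := hh r₁ hr₁
        · exact ⟨w, hw, Or.inl (hm.congr_right (he'.mono (hw.trans (hr₁.trans hv))).symm)⟩
        · exact ⟨w, hw, Or.inr (hm.trans (he'.mono (hw.trans (hr₁.trans hv))).symm)⟩
      · intro hh r₁ hr₁
        obtain ⟨w, hw, hm | hm⟩ := hh r₁ hr₁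
        · exact ⟨w, hw, Or.inl (hm.congr_right (he'.mono (hw.trans (hr₁.trans hv))))⟩
        · exact ⟨w, hw, Or.inr (hm.trans (he'.mono (hw.trans (hr₁.trans hv))))⟩
    · intro z v _
      exact mem_sucRaw x z v

end Pool.Agent.SymZF
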