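import Pool.Agent.SymZF.CL

/-!
Module AxP: the power set axiom is forced.
-/

noncomputable section

namespace Pool.Agent.SymZF

section

variable {P G : Type} [PartialOrder P] [OrderTop P] [Group G] [MulAction G P]

/-- the raw name of the subset of `a` given by a set of pairs (index, condition) -/
def pRaw {S : SymSys P G} (a : HSN S) (T : Set (a.1.ix × P)) : Nm P :=
  Nm.mk {w : a.1.ix × P // w.2 ≤ a.1.cd w.1 ∧ w ∈ T}
    (fun w => (a.el w.1.1).1) (fun w => w.1.2)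

theorem pRaw_sub {S : SymSys P G} (a : HSN S) (T : Set (a.1.ix × P)) (z : Nm P) (r : P)
    (h : Nm.Mem z (pRaw a T) r) : Nm.Mem z a.1 r := by
  intro r' hr'
  obtain ⟨s, hs, w, hsw, he⟩ := h r' hr'
  exact ⟨s, hs, w.1.1, le_trans hsw w.2.1, he⟩

/-- the trace of `y` on `a` -/
def trc {S : SymSys P G} (a y : HSN S) : Set (a.1.ix × P) :=
  {w | Nm.Mem (a.el w.1).1 y.1 w.2}

theorem mem_trc {S : SymSys P G} (a y z : HSN S) (r : P) :
    Nm.Mem z.1 (pRaw a (trc a y)) r ↔ (Nm.Mem z.1 a.1 r ∧ Nm.Mem z.1 y.1 r) :=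
  mem_clRaw (Ψ := fun z r => Nm.Mem z.1 y.1 r) (fun _ _ _ h hr => h.mono hr)
    (fun _ _ h => Nm.Mem.local h) (fun _ _ _ he h => h.congr_left he) z r

theorem hs_trc {S : SymSys P G} (a y : HSN S) : HS S (pRaw a (trc a y)) := by
  obtain ⟨H, hH, hHy⟩ := y.exists_fix
  obtain ⟨K, hK, hKa⟩ := a.exists_fix
  refine (HSN.mk' S {w : a.1.ix × P // w.2 ≤ a.1.cd w.1 ∧ w ∈ trc a y}
    (fun w => a.el w.1.1) (fun w => w.1.2) ⟨H ⊓ K, S.inf_mem H hH K hK, ?_⟩).2
  intro g hg w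
  refine (mem_trc a y (g • a.el w.1.1) (g • w.1.2)).2 ⟨?_, ?_⟩
  · have h1 : Nm.Mem (a.1.el w.1.1) a.1 w.1.2 := Nm.mem_el a.1 w.1.1 w.2.1
    have h2 := S.mem_smul g h1
    exact h2.congr_right ((hKa g hg.2).mono le_top)
  · have h2 := S.mem_smul g w.2.2
    exact h2.congr_right ((hHy g hg.1).mono le_top)

/-- the index type of the power name -/
def PIx {S : SymSys P G} (a : HSN S) : Type := {T : Set (a.1.ix × P) // HS S (pRaw a T)}

/-- the raw power name -/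
def powRaw {S : SymSys P G} (a : HSN S) : Nm P :=
  Nm.mk (PIx a) (fun T => pRaw a T.1) (fun _ => ⊤)

theorem mem_powRaw {S : SymSys P G} (a y : HSN S) (r : P) :
    Nm.Mem y.1 (powRaw a) r ↔ ∀ z : HSN S, ∀ t ≤ r, Nm.Mem z.1 y.1 t → Nm.Mem z.1 a.1 t := by
  constructor
  · intro h z t ht hz
    apply Nm.Mem.local
    intro t' ht'
    obtain ⟨s, hs, T, _, he⟩ := h t' (ht'.trans ht)
    have h1 : Nm.Mem z.1 (pRaw a T.1) s := (hz.mono (hs.trans ht')).congr_right he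
    exact ⟨s, hs, pRaw_sub a T.1 z.1 s h1⟩
  · intro h t ht
    refine ⟨t, le_rfl, ⟨trc a y, hs_trc a y⟩, le_top, ?_⟩
    refine HSN.ext_mem (x := y) (y := ⟨pRaw a (trc a y), hs_trc a y⟩) ?_
    intro z r' hr'
    rw [mem_trc]
    exact ⟨fun hz => ⟨h z r' (hr'.trans ht) hz, hz⟩, fun hz => hz.2⟩

/-- the power name -/
def powN {S : SymSys P G} (a : HSN S) : HSN S :=
  HSN.mk' S (PIx a) (fun T => ⟨pRaw a T.1, T.2⟩) (fun _ => ⊤) (by
    obtain ⟨K, hK, hKa⟩ := a.exists_fix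
    refine ⟨K, hK, fun g hg T => ?_⟩
    refine (mem_powRaw a (g • (⟨pRaw a T.1, T.2⟩ : HSN S)) (g • ⊤)).2 ?_
    intro z t _ hz
    have h1 := S.mem_smul g⁻¹ hz
    have h2 : g⁻¹ • (g • (⟨pRaw a T.1, T.2⟩ : HSN S)).1 = pRaw a T.1 := by
      rw [HSN.smul_val, inv_smul_smul]
    rw [h2] at h1
    have h3 := S.mem_smul g (pRaw_sub a T.1 _ _ h1)
    rw [smul_inv_smul, smul_inv_smul] at h3
    exact h3.congr_right ((hKa g hg).mono le_top))

end

theorem AxP_proof : Stmt_AxP := by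
  intro P G _ _ _ _ S s r
  rw [Fml.cPower, Frc_ex]
  intro q _
  refine ⟨q, le_rfl, powN (s 0), ?_⟩
  simp only [Frc_all, Frc_iff, Frc_imp, Frc_mem]
  intro y u _
  have h := mem_powRaw (s 0) y u
  constructor
  · intro hy z t ht hz
    exact h.1 hy z t ht hz
  · intro hy
    exact h.2 fun z t ht hz => hy z t ht hz

end Pool.Agent.SymZF
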