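import Pool.Agent.SymZF.Iface

/-!
Module AxR: replacement is forced.
-/

noncomputable section

namespace Pool.Agent.SymZF

section

variable {P G : Type} [PartialOrder P] [OrderTop P] [Group G] [MulAction G P]

/-- finitely many names are fixed by a common open subgroup -/
theorem exists_fix_finR (S : SymSys P G) : ∀ (m : ℕ) (s : Fin m → HSN S),
    ∃ H ∈ S.opn, ∀ g ∈ H, ∀ i, Nm.Eqv (g • (s i).1) (s i).1 ⊤
  | 0, _ => ⟨⊤, S.top_mem, fun _ _ i => i.elim0⟩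
  | m + 1, s => by
    obtain ⟨H, hH, h1⟩ := exists_fix_finR S m (fun i => s i.succ)
    obtain ⟨K, hK, h2⟩ := (s 0).exists_fix
    refine ⟨H ⊓ K, S.inf_mem H hH K hK, fun g hg i => ?_⟩
    refine Fin.cases ?_ (fun j => ?_) i
    · exact h2 g hg.2
    · exact h1 g hg.1 j

theorem cns_comp_ren5 {M : Type*} {n : ℕ} (x y a : M) (s : Fin n → M) :
    (cns x (cns y (cns a s))) ∘ (cns 1 (cns 0 (fun i => i.succ.succ.succ))) = cns y (cns x s) := by
  funext i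
  refine Fin.cases ?_ (fun j => ?_) i
  · rfl
  · refine Fin.cases ?_ (fun k => ?_) j <;> rfl

/-- code of `∃ x ∈ a, φ(y, x, s)` with `y = v₀`, `a = v₁` -/
def imgC {n : ℕ} (φ : Fml (n + 2)) : Fml (n + 2) :=
  .ex (.and (.mem 0 2) (φ.ren (cns 1 (cns 0 (fun i => i.succ.succ.succ)))))

theorem frc_imgC {S : SymSys P G} {n : ℕ} (φ : Fml (n + 2)) (y a : HSN S) (s : Fin n → HSN S)
    (r : P) : Frc S (imgC φ) (cns y (cns a s)) r ↔
      ∀ r' ≤ r, ∃ t ≤ r', ∃ x : HSN S, Nm.Mem x.1 a.1 t ∧ Frc S φ (cns y (cns x s)) t := by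
  simp only [imgC, Frc_ex, Frc_and, Frc_mem, Frc_ren, cns_comp_ren5, cns_zero, cns_two, cns_one]

theorem eqv_cns {S : SymSys P G} {m : ℕ} {x y : HSN S} {s s' : Fin m → HSN S} {r : P}
    (h : Nm.Eqv x.1 y.1 r) (h' : ∀ i, Nm.Eqv (s i).1 (s' i).1 r) :
    ∀ i, Nm.Eqv (cns x s i).1 (cns y s' i).1 r := by
  intro i
  refine Fin.cases ?_ (fun j => ?_) i
  · exact h
  · exact h' j

end

theorem AxR_proof (hCL : Stmt_CL) : Stmt_AxR := by
  intro P G _ _ _ _ S n φ s₀ r₀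
  rw [← cns_eta s₀]
  generalize s₀ 0 = a
  generalize (fun i => s₀ (Fin.succ i)) = s
  rw [Fml.cRepl, Frc_imp]
  intro r hr hyp
  simp only [Frc_all, Frc_imp, Frc_mem, Frc_ex, Frc_and, Frc_ren, Frc_eq, cns_comp_ren2,
    cns_comp_ren3, cns_zero, cns_one] at hyp
  -- the indices
  let J : Type := {w : a.1.ix × P // w.2 ≤ a.1.cd w.1 ∧
    ∃ y : HSN S, Frc S φ (cns y (cns (a.el w.1) s)) w.2}
  let yy : J → HSN S := fun w => w.2.2.choose
  have hyy : ∀ w : J, Frc S φ (cns (yy w) (cns (a.el w.1.1) s)) w.1.2 :=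
    fun w => w.2.2.choose_spec
  let Y : HSN S := HSN.mk' S (G × J) (fun w => w.1 • yy w.2) (fun _ => ⊤)
    ⟨⊤, S.top_mem, fun g _ w => by
      have h1 : g • (w.1 • yy w.2).1 = ((g * w.1) • yy w.2).1 := by
        rw [← HSN.smul_val, smul_smul]
      rw [h1]
      exact Nm.mem_el (Nm.mk (G × J) (fun w => (w.1 • yy w.2).1) (fun _ => ⊤)) (g * w.1, w.2)
        (by rw [S.smul_top]; exact le_rfl)⟩
  have hY : ∀ w : J, ∀ t, Nm.Mem (yy w).1 Y.1 t := by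
    intro w t
    have h1 := Nm.mem_el Y.1 ((1, w) : G × J) (r := t) le_top
    have h2 : Y.1.el ((1, w) : G × J) = (yy w).1 := by
      show ((1 : G) • yy w).1 = (yy w).1
      rw [one_smul]
    rwa [h2] at h1
  obtain ⟨H, hH, hfix⟩ := exists_fix_finR S _ (cns a s)
  obtain ⟨b, hb⟩ := hCL P G S Y (fun y u => Frc S (imgC φ) (cns y (cns a s)) u)
    (fun x r r' h hr => h.mono hr) (fun x r h => Frc.local h)
    (fun x y r he h => h.congr (eqv_cns he fun i => Nm.Eqv.refl _ _))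
    ⟨H, hH, fun g hg x r h => by
      have h1 := h.smul g
      rw [cns_smul] at h1
      refine h1.congr (eqv_cns (Nm.Eqv.refl _ _) fun i => (hfix g hg i).mono le_top)⟩
  rw [Frc_ex]
  intro q hq
  refine ⟨q, le_rfl, b, ?_⟩
  simp only [Frc_all, Frc_iff, Frc_mem, Frc_ex, Frc_and, Frc_ren, cns_comp_ren4, cns_zero, cns_one]
  intro y u hu
  have h3 : ∀ x : HSN S, (cns x (cns y (cns b (cns a s))) 3) = a := fun x => rfl
  simp only [h3]
  have h4 := hb y u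
  simp only [frc_imgC] at h4
  rw [h4]
  refine ⟨fun h => h.2, fun h => ⟨?_, h⟩⟩
  apply Nm.Mem.local
  intro u' hu'
  obtain ⟨w, hw, x, hx, hφ⟩ := h u' hu'
  obtain ⟨s₂, hs₂, j, hj, he⟩ := hx w le_rfl
  have hs₂r : s₂ ≤ r := hs₂.trans (hw.trans (hu'.trans (hu.trans hq)))
  obtain ⟨u₂, hu₂, y₂, _, huniq⟩ := hyp x s₂ hs₂r (hx.mono hs₂) s₂ le_rfl
  have hφ' : Frc S φ (cns y (cns (a.el j) s)) s₂ :=
    (hφ.mono hs₂).congr (eqv_cns (Nm.Eqv.refl _ _) (eqv_cns he fun i => Nm.Eqv.refl _ _))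
  let w₀ : J := ⟨(j, s₂), hj, y, hφ'⟩
  have h5 : Frc S φ (cns (yy w₀) (cns x s)) u₂ :=
    ((hyy w₀).mono hu₂).congr (eqv_cns (Nm.Eqv.refl _ _) (eqv_cns (he.symm.mono hu₂)
      fun i => Nm.Eqv.refl _ _))
  have h6 := huniq (yy w₀) u₂ le_rfl h5
  have h7 := huniq y u₂ le_rfl (hφ.mono (hu₂.trans hs₂))
  refine ⟨u₂, hu₂.trans (hs₂.trans hw), ?_⟩
  exact (hY w₀ u₂).congr_left (h6.trans h7.symm)

end Pool.Agent.SymZF
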