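import Pool.Agent.SymZF.Iface

/-!
Separation is forced.
-/

namespace Pool.Agent.SymZF

section

variable {P G : Type} [PartialOrder P] [OrderTop P] [Group G] [MulAction G P]

/-- finitely many names are fixed by a common open subgroup -/
theorem exists_fix_finS (S : SymSys P G) : ∀ (n : ℕ) (s : Fin n → HSN S),
    ∃ H ∈ S.opn, ∀ g ∈ H, ∀ i, Nm.Eqv (g • (s i).1) (s i).1 ⊤ := by
  intro n
  induction n with
  | zero => exact fun s => ⟨⊤, S.top_mem, fun g _ i => i.elim0⟩
  | succ n ih =>
    intro s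
    obtain ⟨H, hH, h⟩ := ih (fun i => s i.succ)
    obtain ⟨K, hK, h'⟩ := (s 0).exists_fix
    refine ⟨K ⊓ H, S.inf_mem K hK H hH, fun g hg i => ?_⟩
    obtain ⟨hgK, hgH⟩ := Subgroup.mem_inf.1 hg
    refine Fin.cases ?_ (fun j => ?_) i
    · exact h' g hgK
    · exact h g hgH j

theorem AxS_proof (hCL : Stmt_CL) : Stmt_AxS := by
  intro P G _ _ _ _ S n φ s r
  obtain ⟨H, hH, hfix⟩ := exists_fix_finS S n (fun i => s i.succ)
  obtain ⟨b, hb⟩ := hCL P G S (s 0) (fun z r => Frc S φ (cns z (fun i => s i.succ)) r)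
    (fun x r r' h hr => h.mono hr) (fun x r h => Frc.local h) (by
      intro x y r he h
      refine Frc.congr (fun i => ?_) h
      refine Fin.cases ?_ (fun j => ?_) i
      · exact he
      · exact Nm.Eqv.refl _ _) ⟨H, hH, by
      intro g hg x r h
      have h1 := Frc.smul g h
      rw [cns_smul] at h1
      refine Frc.congr (fun i => ?_) h1
      refine Fin.cases ?_ (fun j => ?_) i
      · exact Nm.Eqv.refl _ _
      · exact (hfix g hg j).mono le_top⟩
  rw [Fml.cSep, Frc_ex]
  intro r' _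
  refine ⟨r', le_rfl, b, ?_⟩
  rw [Frc_all]
  intro z
  rw [Frc_iff]
  intro t _
  have e : (cns z (cns b s)) ∘ (cns 0 (fun i : Fin n => i.succ.succ.succ))
      = cns z (fun i => s i.succ) := by
    funext i
    refine Fin.cases ?_ (fun j => ?_) i <;> rfl
  rw [Frc_and, Frc_ren, e]
  simp only [Frc_mem, cns_zero, cns_one, cns_two]
  exact hb z t

end

end Pool.Agent.SymZF
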