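import Pool.Agent.SymZF.Iface

/-!
Module AxU: the union axiom is forced.
-/

noncomputable section

namespace Pool.Agent.SymZF

section

variable {P G : Type} [PartialOrder P] [OrderTop P] [Group G] [MulAction G P]

/-- index type of the union name -/
def UIx {S : SymSys P G} (a : HSN S) : Type :=
  {v : (Σ i : a.1.ix, (a.el i).1.ix) × P // v.2 ≤ a.1.cd v.1.1 ∧ v.2 ≤ (a.el v.1.1).1.cd v.1.2}

/-- the raw union name -/
def unRaw {S : SymSys P G} (a : HSN S) : Nm P :=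
  Nm.mk (UIx a) (fun v => ((a.el v.1.1.1).el v.1.1.2).1) (fun v => v.1.2)

theorem mem_unRaw {S : SymSys P G} (a z : HSN S) (r : P) :
    Nm.Mem z.1 (unRaw a) r ↔
      ∀ r' ≤ r, ∃ t ≤ r', ∃ y : HSN S, Nm.Mem y.1 a.1 t ∧ Nm.Mem z.1 y.1 t := by
  constructor
  · intro h r' hr'
    obtain ⟨s, hs, v, hsv, he⟩ := h r' hr'
    have h1 : s ≤ a.1.cd v.1.1.1 := le_trans hsv v.2.1
    have h2 : s ≤ (a.el v.1.1.1).1.cd v.1.1.2 := le_trans hsv v.2.2
    exact ⟨s, hs, a.el v.1.1.1, Nm.mem_el a.1 v.1.1.1 h1,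
      (Nm.mem_el (a.el v.1.1.1).1 v.1.1.2 h2).congr_left he.symm⟩
  · intro h r' hr'
    obtain ⟨t, ht, y, hya, hzy⟩ := h r' hr'
    obtain ⟨s, hs, i, hi, he⟩ := hya t le_rfl
    have h1 : Nm.Mem z.1 (a.el i).1 s := (hzy.mono hs).congr_right he
    obtain ⟨s', hs', j, hj, he'⟩ := h1 s le_rfl
    exact ⟨s', (hs'.trans hs).trans ht, ⟨(⟨i, j⟩, s'), hs'.trans hi, hj⟩, le_rfl, he'⟩

/-- the union name -/
def unN {S : SymSys P G} (a : HSN S) : HSN S :=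
  HSN.mk' S (UIx a) (fun v => (a.el v.1.1.1).el v.1.1.2) (fun v => v.1.2) (by
    obtain ⟨K, hK, hKa⟩ := a.exists_fix
    refine ⟨K, hK, fun g hg v => ?_⟩
    refine (mem_unRaw a (g • (a.el v.1.1.1).el v.1.1.2) (g • v.1.2)).2 ?_
    intro r' hr'
    refine ⟨r', le_rfl, g • a.el v.1.1.1, ?_, ?_⟩
    · have h1 : Nm.Mem (a.1.el v.1.1.1) a.1 v.1.2 := Nm.mem_el a.1 v.1.1.1 v.2.1
      have h2 := S.mem_smul g h1
      exact (h2.congr_right ((hKa g hg).mono le_top)).mono hr'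
    · have h1 : Nm.Mem ((a.el v.1.1.1).el v.1.1.2).1 (a.el v.1.1.1).1 v.1.2 :=
        Nm.mem_el (a.el v.1.1.1).1 v.1.1.2 v.2.2
      exact (S.mem_smul g h1).mono hr')

end

theorem AxU_proof : Stmt_AxU := by
  intro P G _ _ _ _ S s r
  rw [Fml.cUnion, Frc_ex]
  intro q _
  refine ⟨q, le_rfl, unN (s 0), ?_⟩
  simp only [Frc_all, Frc_iff, Frc_ex, Frc_and, Frc_mem, cns_zero, cns_one]
  intro z u _
  exact mem_unRaw (s 0) z u

end Pool.Agent.SymZF
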