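import Pool.Agent.SymZF.Iface

/-!
Module CL: comprehension for symmetric `P`-valued predicates.
-/

noncomputable section

namespace Pool.Agent.SymZF

section

variable {P G : Type} [PartialOrder P] [OrderTop P] [Group G] [MulAction G P]

/-- the raw comprehension name -/
def clRaw {S : SymSys P G} (a : HSN S) (Ψ : HSN S → P → Prop) : Nm P :=
  Nm.mk {w : a.1.ix × P // w.2 ≤ a.1.cd w.1 ∧ Ψ (a.el w.1) w.2}
    (fun w => (a.el w.1.1).1) (fun w => w.1.2)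

theorem mem_clRaw {S : SymSys P G} {a : HSN S} {Ψ : HSN S → P → Prop}
    (hmono : ∀ x r r', Ψ x r → r' ≤ r → Ψ x r')
    (hloc : ∀ x r, (∀ r' ≤ r, ∃ t ≤ r', Ψ x t) → Ψ x r)
    (hcongr : ∀ x y r, Nm.Eqv x.1 y.1 r → Ψ x r → Ψ y r) (z : HSN S) (r : P) :
    Nm.Mem z.1 (clRaw a Ψ) r ↔ (Nm.Mem z.1 a.1 r ∧ Ψ z r) := by
  constructor
  · intro h
    constructor
    · intro r' hr'
      obtain ⟨s, hs, w, hsw, he⟩ := h r' hr'
      exact ⟨s, hs, w.1.1, le_trans hsw w.2.1, he⟩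
    · apply hloc
      intro r' hr'
      obtain ⟨s, hs, w, hsw, he⟩ := h r' hr'
      exact ⟨s, hs, hcongr (a.el w.1.1) z s he.symm (hmono _ _ _ w.2.2 hsw)⟩
  · rintro ⟨h1, h2⟩ r' hr'
    obtain ⟨s, hs, j, hsj, he⟩ := h1 r' hr'
    have h3 : Ψ (a.el j) s := hcongr z (a.el j) s he (hmono _ _ _ h2 (hs.trans hr'))
    exact ⟨s, hs, ⟨(j, s), hsj, h3⟩, le_rfl, he⟩

end

theorem CL_proof : Stmt_CL := by
  intro P G _ _ _ _ S a Ψ hmono hloc hcongr hsym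
  obtain ⟨H, hH, hHΨ⟩ := hsym
  obtain ⟨K, hK, hKa⟩ := a.exists_fix
  refine ⟨HSN.mk' S {w : a.1.ix × P // w.2 ≤ a.1.cd w.1 ∧ Ψ (a.el w.1) w.2}
    (fun w => a.el w.1.1) (fun w => w.1.2) ⟨H ⊓ K, S.inf_mem H hH K hK, ?_⟩, ?_⟩
  · intro g hg w
    refine (mem_clRaw hmono hloc hcongr (g • a.el w.1.1) (g • w.1.2)).2 ⟨?_, ?_⟩
    · have h1 : Nm.Mem (a.1.el w.1.1) a.1 w.1.2 := Nm.mem_el a.1 w.1.1 w.2.1
      have h2 := S.mem_smul g h1
      exact h2.congr_right ((hKa g hg.2).mono le_top)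
    · exact hHΨ g hg.1 _ _ w.2.2
  · intro z r
    exact mem_clRaw hmono hloc hcongr z r

end Pool.Agent.SymZF
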