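import Pool.Agent.SymZF.Iface

/-! Module Core: Zorn's lemma for coherent sets of colour assignments. -/

noncomputable section

namespace Pool.Agent.SymZF

/-- symmetric coherent sets of assignments -/
def Good (E₀ : Submodule (ZMod 2) V) {X : Type 1} [MulAction GLV X]
    (Φ : Bool → Cond → X → X → Prop) (T : Set (X × Bool × Cond)) : Prop :=
  (∀ g ∈ Fix E₀, ∀ x b q, (x, b, q) ∈ T → (g • x, b, g • q) ∈ T) ∧
    (∀ x b q x' b' q' r d, (x, b, q) ∈ T → (x', b', q') ∈ T → r ≤ q → r ≤ q' →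
        Φ d r x x' → xor b b' = d)

theorem Core_proof (hTrip : Stmt_Trip) : Stmt_Core := by
  intro E₀ hfd X _ Φ hΦ
  obtain ⟨T, hT⟩ : ∃ T, Maximal (fun T => Good E₀ Φ T) T := by
    have := zorn_subset {T | Good E₀ Φ T} (fun c hc hchain => by
      refine ⟨⋃₀ c, ⟨?_, ?_⟩, fun s hs => Set.subset_sUnion_of_mem hs⟩
      · rintro g hg x b q ⟨T, hTc, hx⟩
        exact ⟨T, hTc, (hc hTc).1 g hg x b q hx⟩
      · rintro x b q x' b' q' r d ⟨T, hTc, hx⟩ ⟨T', hTc', hx'⟩ hr hr' hd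
        rcases hchain.total hTc hTc' with h | h
        · exact (hc hTc').2 x b q x' b' q' r d (h hx) hx' hr hr' hd
        · exact (hc hTc).2 x b q x' b' q' r d hx (h hx') hr hr' hd)
    exact this
  refine ⟨T, hT.1.1, hT.1.2, ?_⟩
  intro x q hx
  by_contra hno
  push Not at hno
  obtain ⟨x', q', hq', hcon, hinv⟩ := hTrip E₀ hfd X Φ hΦ x q hx
  set N : Set (X × Bool × Cond) := {w | ∃ g ∈ Fix E₀, w = (g • x', false, g • q')} with hN
  -- new elements are not connected to old ones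
  have newold : ∀ g ∈ Fix E₀, ∀ y b p, (y, b, p) ∈ T → ∀ r d, r ≤ g • q' → r ≤ p →
      ¬ Φ d r (g • x') y := by
    intro g hg y b p hy r d hrq hrp hd
    have hg' := (Fix E₀).inv_mem hg
    have h1 := hΦ.equiv g⁻¹ hg' _ _ _ _ hd
    rw [inv_smul_smul] at h1
    have h2 := hT.1.1 g⁻¹ hg' y b p hy
    have h3 : g⁻¹ • r ≤ q' := by
      have := Cond.smul_mono g⁻¹ _ _ hrq
      rwa [inv_smul_smul] at this
    have h4 : g⁻¹ • r ≤ g⁻¹ • p := Cond.smul_mono g⁻¹ _ _ hrp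
    obtain ⟨t, ht, b', hb'⟩ := hcon _ h3
    exact hno t (ht.trans (h3.trans hq')) (g⁻¹ • y) b (g⁻¹ • p) h2 (ht.trans h4) (xor b' d)
      (hΦ.trans _ _ _ _ _ _ hb' (hΦ.mono _ _ _ _ _ h1 ht))
  have hgood : Good E₀ Φ (T ∪ N) := by
    refine ⟨?_, ?_⟩
    · rintro g hg y b p (hy | ⟨k, hk, hy⟩)
      · exact Or.inl (hT.1.1 g hg y b p hy)
      · right
        simp only [Prod.mk.injEq] at hy
        obtain ⟨rfl, rfl, rfl⟩ := hy
        exact ⟨g * k, (Fix E₀).mul_mem hg hk, by rw [mul_smul, mul_smul]⟩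
    · rintro y b p y' b' p' r d (hy | ⟨k, hk, hy⟩) (hy' | ⟨k', hk', hy'⟩) hr hr' hd
      · exact hT.1.2 y b p y' b' p' r d hy hy' hr hr' hd
      · simp only [Prod.mk.injEq] at hy'
        obtain ⟨rfl, rfl, rfl⟩ := hy'
        exact absurd (hΦ.symm _ _ _ _ hd) (newold k' hk' y b p hy r d hr' hr)
      · simp only [Prod.mk.injEq] at hy
        obtain ⟨rfl, rfl, rfl⟩ := hy
        exact absurd hd (newold k hk y' b' p' hy' r d hr hr')
      · simp only [Prod.mk.injEq] at hy hy'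
        obtain ⟨rfl, rfl, rfl⟩ := hy
        obtain ⟨rfl, rfl, rfl⟩ := hy'
        have hk1 := (Fix E₀).inv_mem hk
        have h1 := hΦ.equiv k⁻¹ hk1 _ _ _ _ hd
        rw [inv_smul_smul, smul_smul] at h1
        have h3 : k⁻¹ • r ≤ q' := by
          have := Cond.smul_mono k⁻¹ _ _ hr
          rwa [inv_smul_smul] at this
        have h4 : k⁻¹ • r ≤ (k⁻¹ * k') • q' := by
          have := Cond.smul_mono k⁻¹ _ _ hr'
          rwa [smul_smul] at this
        cases d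
        · rfl
        · exact absurd h1 (hinv _ ((Fix E₀).mul_mem hk1 hk') _ h3 h4)
  have hmem : (x', false, q') ∈ T := by
    have h1 : T ∪ N ⊆ T := hT.2 hgood Set.subset_union_left
    exact h1 (Or.inr ⟨1, (Fix E₀).one_mem, by rw [one_smul, one_smul]⟩)
  obtain ⟨t, ht, b', hb'⟩ := hcon q' le_rfl
  exact hno t (ht.trans hq') x' false q' hmem ht b' hb'

end Pool.Agent.SymZF
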