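import Pool.Agent.SymZF.Iface

namespace Pool.Agent.SymZF

/-- An injective linear map on a finite dimensional subspace extends to an automorphism. -/
theorem exists_extend (W : Submodule (ZMod 2) V) (hW : FiniteDimensional (ZMod 2) W)
    (f : W →ₗ[ZMod 2] V) (hf : Function.Injective f) :
    ∃ t : GLV, ∀ v : W, t • (v : V) = f v := by
  obtain ⟨C, hC⟩ := Submodule.exists_isCompl W
  obtain ⟨C', hC'⟩ := Submodule.exists_isCompl (LinearMap.range f)
  let e1 : W ≃ₗ[ZMod 2] LinearMap.range f := LinearEquiv.ofInjective f hf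
  have hr : Module.rank (ZMod 2) (V ⧸ W) = Module.rank (ZMod 2) (V ⧸ LinearMap.range f) := by
    have h1 := Submodule.rank_quotient_add_rank W
    have h2 := Submodule.rank_quotient_add_rank (LinearMap.range f)
    have h3 : Module.rank (ZMod 2) W = Module.rank (ZMod 2) (LinearMap.range f) := e1.rank_eq
    rw [← h3] at h2
    exact Cardinal.eq_of_add_eq_add_right (h1.trans h2.symm) (Module.rank_lt_aleph0 _ _)
  obtain ⟨e2⟩ := nonempty_linearEquiv_of_rank_eq hr
  let e3 : C ≃ₗ[ZMod 2] C' := (Submodule.quotientEquivOfIsCompl W C hC).symm ≪≫ₗ e2 ≪≫ₗ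
    (Submodule.quotientEquivOfIsCompl _ C' hC')
  let t : GLV := (Submodule.prodEquivOfIsCompl W C hC).symm ≪≫ₗ (LinearEquiv.prodCongr e1 e3) ≪≫ₗ
    (Submodule.prodEquivOfIsCompl _ C' hC')
  refine ⟨t, fun v => ?_⟩
  show t (v : V) = f v
  simp only [t, LinearEquiv.trans_apply, Submodule.prodEquivOfIsCompl_symm_apply_left]
  simp [LinearEquiv.prodCongr_apply, e1]

/-- Module EX. -/
theorem EX_proof : Stmt_EX := by
  intro D₁ D₂ hD₁ hD₂ u hu g hg hsub
  let f₁ : V →ₗ.[ZMod 2] V := ⟨D₁, u.toLinearMap.comp D₁.subtype⟩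
  let f₂ : V →ₗ.[ZMod 2] V := ⟨D₂, g.toLinearMap.comp D₂.subtype⟩
  have hag : ∀ (x : f₁.domain) (y : f₂.domain), (x : V) = y → f₁ x = f₂ y := by
    intro x y hxy
    have hx : (x : V) ∈ D₁ ⊓ D₂ := ⟨x.2, by rw [hxy]; exact y.2⟩
    show u • (x : V) = g • (y : V)
    rw [← hxy, hu _ hx, hg _ hx]
  let F := f₁.sup f₂ hag
  have hF : ∀ (a b : V) (ha : a ∈ D₁) (hb : b ∈ D₂) (z : F.domain), a + b = z →
      F z = u • a + g • b := by
    intro a b ha hb z hz
    exact LinearPMap.sup_apply hag ⟨a, ha⟩ ⟨b, hb⟩ z hz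
  have hfin : FiniteDimensional (ZMod 2) F.domain := by
    show FiniteDimensional (ZMod 2) ↥(D₁ ⊔ D₂)
    infer_instance
  have hker : ∀ z : F.domain, F z = 0 → z = 0 := by
    intro z hz
    obtain ⟨a, ha, b, hb, hab⟩ := Submodule.mem_sup.1 (show (z : V) ∈ D₁ ⊔ D₂ from z.2)
    have h1 : u • a + g • b = 0 := by
      rw [← hF a b ha hb z hab]; exact hz
    have h2 : u • a = g • (-b) := by
      rw [smul_neg]; exact eq_neg_of_add_eq_zero_left h1
    have h3 : u • a ∈ D₁ ⊓ D₂ := hsub ⟨smul_mem_mv ha, by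
      rw [h2]; exact smul_mem_mv (D₂.neg_mem hb)⟩
    have h4 : u • a = a := by
      have := hu _ h3
      exact MulAction.injective u this
    have h5 : g • (-b) = -b := by
      rw [← h2] 
      have := hg _ h3
      rw [h2] at this
      have := MulAction.injective g this
      rw [h2]; exact this
    apply Subtype.ext
    show (z : V) = 0
    rw [← hab, ← h4, h2, h5, neg_add_cancel]
  have hinj : Function.Injective F.toFun := by
    intro x y hxy
    have h1 : F (x - y) = 0 := by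
      rw [LinearPMap.map_sub, sub_eq_zero]; exact hxy
    exact sub_eq_zero.1 (hker _ h1)
  obtain ⟨t, ht⟩ := exists_extend F.domain hfin F.toFun hinj
  refine ⟨t, ?_, ?_⟩
  · intro v hv
    have h1 := ht ⟨v, Submodule.mem_sup_left hv⟩
    have h2 := hF v 0 hv D₂.zero_mem ⟨v, Submodule.mem_sup_left hv⟩ (by simp)
    rw [smul_zero, add_zero] at h2
    exact h1.trans h2
  · intro v hv
    have h1 := ht ⟨v, Submodule.mem_sup_right hv⟩
    have h2 := hF 0 v D₁.zero_mem hv ⟨v, Submodule.mem_sup_right hv⟩ (by simp)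
    rw [smul_zero, zero_add] at h2
    exact h1.trans h2

end Pool.Agent.SymZF
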