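import Pool.Agent.SymZF.Iface

namespace Pool.Agent.SymZF

/-- A finite dimensional subspace has a common bound of all supports. -/
theorem exists_bound (W : Submodule (ZMod 2) V) (hW : FiniteDimensional (ZMod 2) W) :
    ∃ m : ℕ, ∀ v ∈ W, ∀ i, m ≤ i → v i = 0 := by
  classical
  have hfg : W.FG := (Submodule.fg_iff_finiteDimensional W).2 hW
  obtain ⟨s, hs⟩ := hfg
  refine ⟨s.sup (fun v => v.support.sup id + 1), fun v hv i hi => ?_⟩
  rw [← hs] at hv
  induction hv using Submodule.span_induction with
  | mem x hx =>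
    by_contra hne
    have h1 : i ∈ x.support := Finsupp.mem_support_iff.2 hne
    have h2 : i ≤ x.support.sup id := Finset.le_sup (f := id) h1
    have h3 : x.support.sup id + 1 ≤ s.sup (fun v => v.support.sup id + 1) :=
      Finset.le_sup (f := fun v : V => v.support.sup id + 1) hx
    omega
  | zero => rfl
  | add x y _ _ hx hy => rw [Finsupp.add_apply, hx, hy, add_zero]
  | smul a x _ hx => rw [Finsupp.smul_apply, hx, smul_zero]

/-- Module GP. -/
theorem GP_proof : Stmt_GP := by
  classical
  intro D W Q hW hQ hD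
  obtain ⟨m₁, hm₁⟩ := exists_bound W hW
  obtain ⟨m₂, hm₂⟩ := exists_bound Q hQ
  set m := max m₁ m₂ with hm
  have hWm : ∀ v ∈ W, ∀ i, m ≤ i → v i = 0 := fun v hv i hi => hm₁ v hv i (by omega)
  have hQm : ∀ v ∈ Q, ∀ i, m ≤ i → v i = 0 := fun v hv i hi => hm₂ v hv i (by omega)
  -- truncation
  let τ : V →ₗ[ZMod 2] V :=
    { toFun := fun v => v.filter (fun i => i < m)
      map_add' := fun x y => Finsupp.filter_add
      map_smul' := fun c x => Finsupp.filter_smul }
  have hτ : ∀ v : V, (∀ i, m ≤ i → v i = 0) → τ v = v := by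
    intro v hv
    ext i
    show (v.filter (fun i => i < m)) i = v i
    rw [Finsupp.filter_apply]
    split_ifs with h
    · rfl
    · rw [hv i (by omega)]
  -- shift
  let σ : V →ₗ[ZMod 2] V := Finsupp.lmapDomain (ZMod 2) (ZMod 2) (fun i => i + m)
  have hσlow : ∀ (v : V) i, i < m → σ v i = 0 := by
    intro v i hi
    show Finsupp.mapDomain (fun i => i + m) v i = 0
    apply Finsupp.mapDomain_of_notMem_range
    rintro ⟨j, hj⟩
    simp only at hj
    omega
  have hτσ : ∀ v, τ (σ v) = 0 := by
    intro v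
    ext i
    show ((σ v).filter (fun i => i < m)) i = 0
    rw [Finsupp.filter_apply]
    split_ifs with h
    · exact hσlow v i h
    · rfl
  have hσinj : ∀ v, σ v = 0 → v = 0 := by
    intro v hv
    have : Function.Injective (Finsupp.mapDomain (fun i : ℕ => i + m) : V → V) :=
      Finsupp.mapDomain_injective (add_left_injective m)
    apply this
    rw [Finsupp.mapDomain_zero]
    exact hv
  -- projection with kernel `D`
  obtain ⟨π, hπ⟩ : ∃ π : V →ₗ[ZMod 2] V, ∀ v, π v = 0 ↔ v ∈ D := by
    obtain ⟨s, hs⟩ := D.mkQ.exists_rightInverse_of_surjective (by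
      rw [LinearMap.range_eq_top]; exact Submodule.mkQ_surjective D)
    refine ⟨s.comp D.mkQ, fun v => ?_⟩
    rw [LinearMap.comp_apply]
    constructor
    · intro h
      have h2 : D.mkQ (s (D.mkQ v)) = D.mkQ v := LinearMap.congr_fun hs _
      rw [h, map_zero] at h2
      exact (Submodule.Quotient.mk_eq_zero D).1 h2.symm
    · intro h
      have : D.mkQ v = 0 := (Submodule.Quotient.mk_eq_zero D).2 h
      rw [this, map_zero]
  let N : V →ₗ[ZMod 2] V := σ.comp (π.comp τ)
  have hNN : ∀ v, N (N v) = 0 := by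
    intro v
    show σ (π (τ (σ (π (τ v))))) = 0
    rw [hτσ, map_zero, map_zero]
  let k : V →ₗ[ZMod 2] V := LinearMap.id + N
  have hk : ∀ v, k v = v + N v := fun v => rfl
  have hkk : k.comp k = LinearMap.id := by
    apply LinearMap.ext
    intro v
    show k (k v) = v
    rw [hk (k v), hk v, map_add, hNN, add_zero, add_assoc]
    have : N v + N v = 0 := by
      ext i
      rw [Finsupp.add_apply]
      exact CharTwo.add_self_eq_zero _
    rw [this, add_zero]
  refine ⟨LinearEquiv.ofLinearMap k k hkk hkk, ?_, ?_⟩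
  · intro v hv
    show k v = v
    rw [hk]
    show v + σ (π (τ v)) = v
    rw [hτ v (hWm v (hD hv)), (hπ v).2 hv, map_zero, add_zero]
  · rintro x ⟨hx, hxQ⟩
    unfold mv at hx
    rw [SetLike.mem_coe, Submodule.mem_map] at hx
    obtain ⟨s, hs, rfl⟩ := hx
    have e1 : (LinearEquiv.ofLinearMap k k hkk hkk).toLinearMap s = k s := rfl
    rw [e1] at hxQ ⊢
    have hτs : τ s = s := hτ s (hWm s hs)
    have e2 : k s = s + σ (π s) := by
      rw [hk]
      show s + σ (π (τ s)) = _
      rw [hτs]
    have h0 : σ (π s) = 0 := by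
      ext i
      rcases lt_or_ge i m with hi | hi
      · exact hσlow _ i hi
      · have h1 := hQm _ hxQ i hi
        rw [e2, Finsupp.add_apply, hWm s hs i hi, zero_add] at h1
        exact h1
    have h1 : s ∈ D := (hπ s).1 (hσinj _ h0)
    rw [e2, h0, add_zero]
    exact h1

end Pool.Agent.SymZF
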