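import Pool.Agent.SymZF.WCx

/-!
Existence of generic filters (Rasiowa-Sikorski).
-/

namespace Pool.Agent.SymZF

section

variable {P G : Type} [PartialOrder P] [OrderTop P] [Group G] [MulAction G P]

/-- the requirements -/
abbrev Req : Type := (Σ n : ℕ, Fml n × (Fin n → ℕ)) ⊕ (Σ n : ℕ, Fml (n + 1) × (Fin n → ℕ))

/-- the condition `p` meets the requirement -/
def Meets (S : SymSys P G) (e : ℕ → HSN S) : Req → P → Prop
  | .inl t, p => Frc S t.2.1 (fun i => e (t.2.2 i)) p ∨ Frc S (.neg t.2.1) (fun i => e (t.2.2 i)) p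
  | .inr t, p => Frc S (.all t.2.1) (fun i => e (t.2.2 i)) p ∨
      ∃ k, Frc S (.neg t.2.1) (cns (e k) (fun i => e (t.2.2 i))) p

theorem meets_dense (S : SymSys P G) (e : ℕ → HSN S) (h : WC S e) (t : Req) (p : P) :
    ∃ q ≤ p, Meets S e t q := by
  rcases t with ⟨n, φ, s⟩ | ⟨n, φ, s⟩
  · by_cases hf : Frc S φ (fun i => e (s i)) p
    · exact ⟨p, le_rfl, Or.inl hf⟩
    · obtain ⟨q, hq, hn⟩ := Frc.exists_neg hf
      exact ⟨q, hq, Or.inr hn⟩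
  · by_cases hf : Frc S (.all φ) (fun i => e (s i)) p
    · exact ⟨p, le_rfl, Or.inl hf⟩
    · rw [Frc_all] at hf
      push Not at hf
      obtain ⟨x, hx⟩ := hf
      obtain ⟨q, hq, hn⟩ := Frc.exists_neg hx
      exact ⟨q, hq, Or.inr (h n (.neg φ) s q ⟨x, hn⟩)⟩

/-- the descending sequence -/
def descSeq (nx : Req → P → P) (f : ℕ → Req) (p₀ : P) : ℕ → P
  | 0 => p₀
  | k + 1 => nx (f k) (descSeq nx f p₀ k)

theorem Genx_proof : Stmt_Genx := by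
  intro P G _ _ _ _ _ S e hWC p₀
  choose nx hnx1 hnx2 using meets_dense S e hWC
  have : Nonempty Req := ⟨Sum.inl ⟨2, .mem 0 1, fun _ => 0⟩⟩
  obtain ⟨f, hf⟩ := exists_surjective_nat Req
  set sq := descSeq nx f p₀ with hsq
  have hanti : Antitone sq := antitone_nat_of_succ_le (fun k => hnx1 (f k) (sq k))
  have hmeet : ∀ t : Req, ∃ k, Meets S e t (sq k) := by
    intro t
    obtain ⟨k, rfl⟩ := hf t
    exact ⟨k + 1, hnx2 (f k) (sq k)⟩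
  refine ⟨{q | ∃ k, sq k ≤ q}, ⟨⟨p₀, 0, le_rfl⟩, ?_, ?_, ?_, ?_⟩, ⟨0, le_rfl⟩⟩
  · rintro p ⟨k, hk⟩ q hpq
    exact ⟨k, hk.trans hpq⟩
  · rintro p ⟨k, hk⟩ q ⟨l, hl⟩
    exact ⟨sq (max k l), ⟨max k l, le_rfl⟩, (hanti (le_max_left k l)).trans hk,
      (hanti (le_max_right k l)).trans hl⟩
  · intro n φ s
    obtain ⟨k, hk⟩ := hmeet (Sum.inl ⟨n, φ, s⟩)
    exact ⟨sq k, ⟨k, le_rfl⟩, hk⟩
  · rintro n φ s ⟨p, ⟨l, hl⟩, hp⟩
    obtain ⟨k, hk | ⟨m, hk⟩⟩ := hmeet (Sum.inr ⟨n, φ, s⟩)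
    · exfalso
      exact (hk.mono (hanti (le_max_left k l))).not_and_neg
        (hp.mono ((hanti (le_max_right k l)).trans hl))
    · exact ⟨m, sq k, ⟨k, le_rfl⟩, hk⟩

end

end Pool.Agent.SymZF
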