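import Pool.Agent.SymZF.K2a

/-!
Module K2: the compactness principle `K_{K_2}` is forced.
-/

noncomputable section

namespace Pool.Agent.SymZF

/-- every element of `f` is a pair `(x, c)` with `x ∈ X`, `c ∈ {0,1}`
(variables `f = 0`, `R = 1`, `X = 2`) -/
abbrev h1c : Fml 3 :=
  .all (.imp (.mem 0 1) (.ex (.ex (.and (.mem 1 5) (.and (.or (.cZero 0) (.cOne 0)) (.cPair 2 1 0))))))

/-- `f` is total -/
abbrev h2c : Fml 3 := .all (.imp (.mem 0 3) (.ex (.cIn2 2 1 0)))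

/-- `f` is single valued -/
abbrev h3c : Fml 3 := .all (.all (.all (.imp (.cIn2 3 2 1) (.imp (.cIn2 3 2 0) (.eq 1 0)))))

/-- `f` respects the parity -/
abbrev h4c : Fml 3 :=
  .all (.all (.imp (.mem 1 4) (.imp (.mem 0 4) (.imp ((pf true).ren ![1, 0, 4, 3])
    (.neg (.iff (.cVal 2 1) (.cVal 2 0)))))))

/-- the formula expressing `ZHom` -/
abbrev hallc : Fml 3 :=
  .imp ((Fml.cHyp2 1 0 : Fml 2).ren ![1, 2]) (.imp h1c (.imp h2c (.imp h3c (.imp h4c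
    (.cHomK2 0 2 1)))))

theorem hallc_valid (hH : Stmt_ZHom) (M : Type) (E : M → M → Prop) (hE : ZF E) (s : Fin 3 → M) :
    Sat E hallc s := by
  have hs : s = cns (s 0) (cns (s 1) (cns (s 2) Fin.elim0)) := by
    funext i; fin_cases i <;> rfl
  generalize s 0 = f at hs
  generalize s 1 = R at hs
  generalize s 2 = X at hs
  subst hs
  unfold hallc
  rw [Sat_imp, Sat_imp, Sat_imp, Sat_imp, Sat_imp, Sat_ren, Sat_cHyp2, Sat_cHomK2]
  intro h0 h1 h2 h3 h4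
  apply hH M E hE X R f h0
  · simpa using h1
  · simpa using h2
  · simpa using h3
  · intro x y hx hy hxy
    simp only [Sat_all, Sat_imp, Sat_mem, Sat_pf_ren, Sat_neg, Sat_iff, Sat_cVal] at h4
    exact h4 x y hx hy ⟨h0, hxy⟩

theorem frc_phi_of_mem (hS : Stmt_Sound) (hP : Stmt_ZPar) (hZ : FrcZF CS) {X R x : HSN CS}
    {r : Cond} (s : Fin 0 → HSN CS) (h : Frc CS (.cHyp2 1 0) (cns R (cns X s)) r)
    (hx : Nm.Mem x.1 X.1 r) : PhiN X R false r x x := by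
  have h1 := hS Cond GLV CS hZ 3 (.imp ((Fml.cHyp2 1 0 : Fml 2).ren ![1, 2])
    (.imp (.mem 0 2) ((pf false).ren ![0, 0, 2, 1]))) (by
      intro M E hE s
      rw [Sat_imp, Sat_imp, Sat_ren, Sat_cHyp2, Sat_mem, Sat_pf_ren]
      intro h1 h2
      exact ⟨h1, (hP M E hE _ _ h1).1 _ h2⟩) (cns x (cns R (cns X Fin.elim0))) r
  rw [Frc_imp] at h1
  have h2 := h1 r le_rfl (by
    rw [Frc_ren]
    have : (cns x (cns R (cns X Fin.elim0)) : Fin 3 → HSN CS) ∘ ![1, 2] = cns R (cns X s) := by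
      funext i; fin_cases i <;> rfl
    rw [this]; exact h)
  rw [Frc_imp] at h2
  have h3 := h2 r le_rfl hx
  rw [Frc_pf_ren] at h3
  exact h3

theorem K2_proof (hS : Stmt_Sound) (hP : Stmt_ZPar) (hH : Stmt_ZHom) (hZ : FrcZF CS)
    (ha : Stmt_K2a) (hb : Stmt_K2b) (hC : Stmt_Core) : Stmt_K2 := by
  intro s r
  unfold Fml.cK2
  rw [Frc_all]
  intro X
  rw [Frc_all]
  intro R
  rw [Frc_imp]
  intro r1 _ _
  rw [Frc_imp]
  intro r2 _ hHyp
  rw [Frc_ex]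
  intro t ht
  obtain ⟨H, ⟨D, hD, hDH⟩, hfX⟩ := X.exists_fix
  obtain ⟨K, ⟨D', hD', hDK⟩, hfR⟩ := R.exists_fix
  have hX : ∀ g ∈ Fix (D ⊔ D'), Nm.Eqv (g • X).1 X.1 ⊤ :=
    fun g hg => hfX g (hDH (Fix_anti le_sup_left hg))
  have hR : ∀ g ∈ Fix (D ⊔ D'), Nm.Eqv (g • R).1 R.1 ⊤ :=
    fun g hg => hfR g (hDK (Fix_anti le_sup_right hg))
  have hE : FiniteDimensional (ZMod 2) (D ⊔ D' : Submodule (ZMod 2) V) := inferInstance
  have hPR := ha X R (D ⊔ D') hX hR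
  obtain ⟨T, hT1, hT2, hT3⟩ := hC (D ⊔ D') hE (HSN CS) (PhiN X R) hPR
  obtain ⟨f, hf1, hf2, hf3, hf4⟩ := hb X R (D ⊔ D') hE hX hR hPR T hT1 hT2 hT3
  refine ⟨t, le_rfl, f, ?_⟩
  have hmain := hS Cond GLV CS hZ 3 hallc (hallc_valid hH) (cns f (cns R (cns X s))) t
  unfold hallc at hmain
  rw [Frc_imp] at hmain
  have h0 := hmain t le_rfl (by
    rw [Frc_ren]
    have : (cns f (cns R (cns X s)) : Fin 3 → HSN CS) ∘ ![1, 2] = cns R (cns X s) := by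
      funext i; fin_cases i <;> rfl
    rw [this]; exact hHyp.mono ht)
  rw [Frc_imp] at h0
  have h1 := h0 t le_rfl (by
    unfold h1c
    rw [Frc_all]
    intro p
    rw [Frc_imp]
    intro t1 ht1 hp
    rw [Frc_ex]
    intro t2 ht2
    obtain ⟨t3, ht3, x, c, hx, hpx⟩ := hf1 p t1 hp t2 ht2
    refine ⟨t3, ht3, x, ?_⟩
    rw [Frc_ex]
    intro t4 ht4
    refine ⟨t4, le_rfl, bitN c, ?_⟩
    rw [Frc_and, Frc_and, Frc_or, frc_cPair_iff]
    refine ⟨hx.mono ht4, fun t5 ht5 => ⟨t5, le_rfl, ?_⟩, hpx.mono ht4⟩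
    rw [frc_cZero_iff, frc_cOne_iff]
    cases c
    · left; exact Nm.Eqv.refl _ _
    · right; exact Nm.Eqv.refl _ _)
  rw [Frc_imp] at h1
  have h2 := h1 t le_rfl (by
    unfold h2c
    rw [Frc_all]
    intro x
    rw [Frc_imp]
    intro t1 ht1 hx
    rw [Frc_ex]
    intro t2 ht2
    have hphi : PhiN X R false t1 x x :=
      frc_phi_of_mem hS hP hZ s (hHyp.mono (ht1.trans ht)) hx
    obtain ⟨t3, ht3, c, hc⟩ := hf2 x t1 hphi t2 ht2
    refine ⟨t3, ht3, bitN c, ?_⟩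
    rw [frc_cIn2_iff]
    exact hc)
  rw [Frc_imp] at h2
  have h3 := h2 t le_rfl (by
    unfold h3c
    rw [Frc_all]
    intro x
    rw [Frc_all]
    intro y
    rw [Frc_all]
    intro y'
    rw [Frc_imp]
    intro t1 ht1 hxy
    rw [Frc_imp]
    intro t2 ht2 hxy'
    rw [frc_cIn2_iff] at hxy hxy'
    rw [Frc_eq]
    apply Nm.Eqv.local
    intro t3 ht3
    obtain ⟨t4, ht4, x1, c, _, e1⟩ := hf1 _ _ hxy t3 (ht3.trans ht2)
    obtain ⟨t5, ht5, x2, c', _, e2⟩ := hf1 _ _ hxy' t4 (ht4.trans ht3)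
    have e1' := pairN_inj (x := x) (y := y) (e1.mono ht5)
    have e2' := pairN_inj (x := x) (y := y') e2
    have m1 : Nm.Mem (pairN x (bitN c)).1 f.1 t5 :=
      (hxy.mono (((ht5.trans ht4).trans ht3).trans ht2)).congr_left
        (pairN_congr (Nm.Eqv.refl _ _) e1'.2)
    have m2 : Nm.Mem (pairN x (bitN c')).1 f.1 t5 :=
      (hxy'.mono ((ht5.trans ht4).trans ht3)).congr_left
        (pairN_congr (Nm.Eqv.refl _ _) e2'.2)
    have hc := hf3 x t5 c c' m1 m2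
    subst hc
    exact ⟨t5, ht5.trans ht4, e1'.2.trans e2'.2.symm⟩)
  rw [Frc_imp] at h3
  have h4 := h3 t le_rfl (by
    unfold h4c
    rw [Frc_all]
    intro x
    rw [Frc_all]
    intro y
    rw [Frc_imp]
    intro t1 ht1 hx
    rw [Frc_imp]
    intro t2 ht2 hy
    rw [Frc_imp]
    intro t3 ht3 hxy
    rw [Frc_pf_ren] at hxy
    replace hxy : PhiN X R true t3 x y := hxy
    rw [Frc_neg]
    intro t4 ht4 hiff
    rw [Frc_iff] at hiff
    obtain ⟨t5, ht5, c, hc⟩ := hf2 x t3 (hPR.refl _ _ _ _ hxy) t4 ht4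
    obtain ⟨t6, ht6, c', hc'⟩ := hf2 y t3 (hPR.refl _ _ _ _ (hPR.symm _ _ _ _ hxy)) t5
      (ht5.trans ht4)
    have hcc := hf4 x y t6 c c' true (hc.mono ht6) hc'
      (hPR.mono _ _ _ _ _ hxy ((ht6.trans ht5).trans ht4))
    have h5 := hiff t6 (ht6.trans ht5)
    rw [frc_cVal_iff, frc_cVal_iff] at h5
    replace h5 : Nm.Mem (pairN x (bitN true)).1 f.1 t6 ↔ Nm.Mem (pairN y (bitN true)).1 f.1 t6 := h5
    cases c <;> cases c' <;> simp at hcc
    · have := hf3 x t6 _ _ (h5.2 hc') (hc.mono ht6)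
      simp at this
    · have := hf3 y t6 _ _ (h5.1 (hc.mono ht6)) hc'
      simp at this)
  exact h4

end Pool.Agent.SymZF
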