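import Pool.Agent.SymZF.Iface

/-!
Module K2a: the forced parity relation of a graph name satisfies `PRel`.
-/

noncomputable section

namespace Pool.Agent.SymZF

/-- formula of `PhiN` -/
abbrev pf (b : Bool) : Fml 4 := .and (.cHyp2 2 3) (.cPar b 2 3 0 1)

/-- an assignment for four variables -/
abbrev as4 {M : Type*} (x y X R : M) : Fin 4 → M := cns x (cns y (cns X (cns R Fin.elim0)))

theorem PhiN_def (X R : HSN CS) (b : Bool) (r : Cond) (x y : HSN CS) :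
    PhiN X R b r x y ↔ Frc CS (pf b) (as4 x y X R) r := Iff.rfl

theorem comp_as4 {M : Type*} {m : ℕ} (s : Fin m → M) (f : Fin 4 → Fin m) :
    s ∘ f = as4 (s (f 0)) (s (f 1)) (s (f 2)) (s (f 3)) := by
  funext i
  fin_cases i <;> rfl

theorem Sat_pf {M : Type*} {E : M → M → Prop} (b : Bool) (s : Fin 4 → M) :
    Sat E (pf b) s ↔ Hyp2 E (s 2) (s 3) ∧ Par E b (s 2) (s 3) (s 0) (s 1) := by
  rw [Sat_and, Sat_cHyp2, Sat_cPar]

theorem Sat_pf_ren {M : Type*} {E : M → M → Prop} (b : Bool) {m : ℕ} (f : Fin 4 → Fin m)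
    (s : Fin m → M) : Sat E ((pf b).ren f) s ↔
      Hyp2 E (s (f 2)) (s (f 3)) ∧ Par E b (s (f 2)) (s (f 3)) (s (f 0)) (s (f 1)) := by
  rw [Sat_ren, Sat_pf]; rfl

theorem Frc_pf_ren (b : Bool) {m : ℕ} (f : Fin 4 → Fin m) (s : Fin m → HSN CS) (r : Cond) :
    Frc CS ((pf b).ren f) s r ↔ PhiN (s (f 2)) (s (f 3)) b r (s (f 0)) (s (f 1)) := by
  rw [Frc_ren, comp_as4]; rfl

theorem K2a_proof (hS : Stmt_Sound) (hP : Stmt_ZPar) (hZ : FrcZF CS) : Stmt_K2a := by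
  intro X R E₀ hX hR
  have valid : ∀ (n : ℕ) (φ : Fml n), (∀ (M : Type) (E : M → M → Prop), ZF E → ∀ s, Sat E φ s) →
      ∀ s r, Frc CS φ s r := fun n φ h s r => hS Cond GLV CS hZ n φ h s r
  refine ⟨?_, ?_, ?_, ?_, ?_, ?_, ?_, ?_⟩
  · -- mono
    intro b r r' x y h hr
    exact Frc.mono h hr
  · -- loc
    intro b r x y h
    exact Frc.local h
  · -- equiv
    intro g hg b r x y h
    have h1 := Frc.smul g h
    refine Frc.congr (fun i => ?_) h1
    fin_cases i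
    · exact Nm.Eqv.refl _ _
    · exact Nm.Eqv.refl _ _
    · exact (hX g hg).mono le_top
    · exact (hR g hg).mono le_top
  · -- refl
    intro b r x y h
    have h1 := valid 4 (.imp (pf b) ((pf false).ren ![0, 0, 2, 3])) (by
      intro M E hE s
      rw [Sat_imp, Sat_pf, Sat_pf_ren]
      rintro ⟨h1, h2⟩
      refine ⟨h1, (hP M E hE _ _ h1).1 _ ?_⟩
      obtain ⟨F, hF, _, hx, _⟩ := h2
      exact hF _ hx) (as4 x y X R) r
    rw [Frc_imp] at h1
    have h2 := h1 r le_rfl h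
    rw [Frc_pf_ren] at h2
    exact h2
  · -- symm
    intro b r x y h
    have h1 := valid 4 (.imp (pf b) ((pf b).ren ![1, 0, 2, 3])) (by
      intro M E hE s
      rw [Sat_imp, Sat_pf, Sat_pf_ren]
      rintro ⟨h1, h2⟩
      exact ⟨h1, (hP M E hE _ _ h1).2.1 _ _ _ h2⟩) (as4 x y X R) r
    rw [Frc_imp] at h1
    have h2 := h1 r le_rfl h
    rw [Frc_pf_ren] at h2
    exact h2
  · -- trans
    intro a b r x y z h h'
    have h1 := valid 5 (.imp (.and ((pf a).ren ![0, 1, 3, 4]) ((pf b).ren ![1, 2, 3, 4]))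
        ((pf (xor a b)).ren ![0, 2, 3, 4])) (by
      intro M E hE s
      rw [Sat_imp, Sat_and, Sat_pf_ren, Sat_pf_ren, Sat_pf_ren]
      rintro ⟨⟨h1, h2⟩, ⟨_, h3⟩⟩
      exact ⟨h1, (hP M E hE _ _ h1).2.2.1 _ _ _ _ _ h2 h3⟩)
      (cns x (cns y (cns z (cns X (cns R Fin.elim0))))) r
    rw [Frc_imp] at h1
    have h2 := h1 r le_rfl (by
      rw [Frc_and, Frc_pf_ren, Frc_pf_ren]
      exact ⟨h, h'⟩)
    rw [Frc_pf_ren] at h2
    exact h2
  · -- excl
    intro r x y h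
    have h1 := valid 4 (.neg (.and (pf false) (pf true))) (by
      intro M E hE s
      rw [Sat_neg, Sat_and, Sat_pf, Sat_pf]
      rintro ⟨⟨h1, h2⟩, ⟨_, h3⟩⟩
      exact (hP M E hE _ _ h1).2.2.2.1 _ _ ⟨h2, h3⟩) (as4 x y X R) r
    rw [Frc_neg] at h1
    apply h1 r le_rfl
    rw [Frc_and]
    exact h
  · -- cont
    intro x
    obtain ⟨H, ⟨D, hD, hDH⟩, hfix⟩ := x.exists_fix
    refine ⟨D, hD, fun g hg r h => ?_⟩
    refine Frc.congr (fun i => ?_) h
    fin_cases i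
    · exact ((hfix g (hDH hg)).mono le_top).symm
    · exact Nm.Eqv.refl _ _
    · exact Nm.Eqv.refl _ _
    · exact Nm.Eqv.refl _ _

end Pool.Agent.SymZF
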