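import Pool.Agent.SymZF.LinNo

/-! Module K2b: the colouring name. -/

noncomputable section

namespace Pool.Agent.SymZF

theorem bitN_inj {c c' : Bool} {r : Cond} (h : Nm.Eqv (bitN c).1 (bitN c').1 r) : c = c' := by
  cases c <;> cases c'
  · rfl
  · exact absurd (numN_inj (n := 0) (m := 1) h) (by decide)
  · exact absurd (numN_inj (n := 1) (m := 0) h) (by decide)
  · rfl

theorem smul_bitN (g : GLV) (c : Bool) : g • bitN c = bitN c := by
  cases c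
  · exact smul_numN g 0
  · exact smul_numN g 1

theorem PhiN.mem {X R : HSN CS} {b : Bool} {r : Cond} {x y : HSN CS} (h : PhiN X R b r x y) :
    Nm.Mem x.1 X.1 r := by
  unfold PhiN at h
  rw [Frc_and] at h
  have h2 := h.2
  unfold Fml.cPar at h2
  rw [Frc_ex] at h2
  apply Nm.Mem.local
  intro t ht
  obtain ⟨u, hu, F, hF⟩ := h2 t ht
  refine ⟨u, hu, ?_⟩
  rw [Frc_and, Frc_and, Frc_and] at hF
  obtain ⟨h3, _, h4, _⟩ := hF
  unfold Fml.cSub at h3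
  rw [Frc_all] at h3
  have h5 := h3 x
  rw [Frc_imp] at h5
  have h6 := h5 u le_rfl
  simp only [Frc_mem, cns_zero, cns_succ] at h6 h4
  exact h6 h4

theorem PhiN.congr {X R : HSN CS} {b : Bool} {r : Cond} {x y x' y' : HSN CS}
    (h : PhiN X R b r x y) (hx : Nm.Eqv x.1 x'.1 r) (hy : Nm.Eqv y.1 y'.1 r) :
    PhiN X R b r x' y' := by
  unfold PhiN at h ⊢
  refine Frc.congr (fun i => ?_) h
  refine Fin.cases ?_ (fun i => Fin.cases ?_ (fun i => ?_) i) i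
  · exact hx
  · exact hy
  · exact Nm.Eqv.refl _ _

theorem K2b_proof : Stmt_K2b := by
  intro X R E₀ hfd hXE hRE hΦ T hT1 hT2 hT3
  -- the index set
  let ι : Type := {w : X.1.ix × Bool × Cond // w.2.2 ≤ X.1.cd w.1 ∧
    ∃ x' b' q', (x', b', q') ∈ T ∧ w.2.2 ≤ q' ∧ ∃ d, PhiN X R d w.2.2 (X.el w.1) x' ∧
      w.2.1 = xor b' d}
  let A : ι → HSN CS := fun w => pairN (X.el w.1.1) (bitN w.1.2.1)
  let p : ι → Cond := fun w => w.1.2.2
  -- general membership criterion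
  have crit : ∀ (x : HSN CS) (c : Bool) (r : Cond), Nm.Mem x.1 X.1 r →
      (∃ x' b' q', (x', b', q') ∈ T ∧ r ≤ q' ∧ ∃ d, PhiN X R d r x x' ∧ c = xor b' d) →
      Nm.Mem (pairN x (bitN c)).1 (Nm.mk ι (fun i => (A i).1) p) r := by
    intro x c r hx ⟨x', b', q', hTm, hrq, d, hd, hc⟩ r' hr'
    obtain ⟨s, hs, i, hsi, he⟩ := hx r' hr'
    have hds : PhiN X R d s (X.el i) x' :=
      (hΦ.mono _ _ _ _ _ hd (hs.trans hr')).congr he (Nm.Eqv.refl _ _)
    refine ⟨s, hs, (⟨(i, c, s), hsi, x', b', q', hTm, (hs.trans hr').trans hrq, d, hds, hc⟩ : ι),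
      le_rfl, ?_⟩
    exact pairN_congr he (Nm.Eqv.refl _ _)
  have hsym : ∃ H ∈ CS.opn, ∀ g ∈ H, ∀ i : ι,
      Nm.Mem (g • (A i).1) (Nm.mk ι (fun i => (A i).1) p) (g • p i) := by
    refine ⟨Fix E₀, ⟨E₀, hfd, le_rfl⟩, ?_⟩
    rintro g hg ⟨⟨i, c, q⟩, hq, x', b', q', hTm, hqq, d, hd, hc⟩
    change Nm.Mem (g • (pairN (X.el i) (bitN c)).1) _ (g • q)
    rw [← HSN.smul_val, smul_pairN, smul_bitN]
    have h1 : Nm.Mem (g • X.el i).1 X.1 (g • q) := by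
      have h2 : Nm.Mem (X.el i).1 X.1 q := Nm.mem_el X.1 i hq
      exact (CS.mem_smul g h2).congr_right ((hXE g hg).mono le_top)
    exact crit (g • X.el i) c (g • q) h1 ⟨g • x', b', g • q', hT1 g hg _ _ _ hTm,
      Cond.smul_mono _ _ _ hqq, d, hΦ.equiv g hg _ _ _ _ hd, hc⟩
  set f : HSN CS := HSN.mk' CS ι A p hsym with hf
  have hfv : f.1 = Nm.mk ι (fun i => (A i).1) p := rfl
  -- analysis of members
  have ana : ∀ (x : HSN CS) (c : Bool) (r : Cond), Nm.Mem (pairN x (bitN c)).1 f.1 r →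
      ∀ r' ≤ r, ∃ t ≤ r', ∃ x' b' q', (x', b', q') ∈ T ∧ t ≤ q' ∧
        ∃ d, PhiN X R d t x x' ∧ c = xor b' d := by
    intro x c r hm r' hr'
    obtain ⟨s, hs, ⟨⟨i, c', q⟩, hq, x', b', q', hTm, hqq, d, hd, hc⟩, hsq, he⟩ := hm r' hr'
    change s ≤ q at hsq
    change Nm.Eqv (pairN x (bitN c)).1 (pairN (X.el i) (bitN c')).1 s at he
    obtain ⟨e1, e2⟩ := pairN_inj he
    have hcc : c = c' := bitN_inj e2
    refine ⟨s, hs, x', b', q', hTm, hsq.trans hqq, d, ?_, hcc.trans hc⟩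
    exact (hΦ.mono _ _ _ _ _ hd hsq).congr e1.symm (Nm.Eqv.refl _ _)
  have fact4 : ∀ (x y : HSN CS) (r : Cond) (c c' d : Bool), Nm.Mem (pairN x (bitN c)).1 f.1 r →
      Nm.Mem (pairN y (bitN c')).1 f.1 r → PhiN X R d r x y → xor c c' = d := by
    intro x y r c c' d hx hy hd
    obtain ⟨t, ht, x', b', q', hTm, htq, d', hd', hc⟩ := ana x c r hx r le_rfl
    obtain ⟨u, hu, y', b'', q'', hTm', huq, d'', hd'', hc'⟩ := ana y c' r hy t ht
    have h1 : PhiN X R d' u x' x := hΦ.symm _ _ _ _ (hΦ.mono _ _ _ _ _ hd' hu)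
    have h2 : PhiN X R d u x y := hΦ.mono _ _ _ _ _ hd (hu.trans ht)
    have h3 : PhiN X R (xor (xor d' d) d'') u x' y' :=
      hΦ.trans _ _ _ _ _ _ (hΦ.trans _ _ _ _ _ _ h1 h2) hd''
    have h4 := hT2 x' b' q' y' b'' q'' u _ hTm hTm' (hu.trans htq) huq h3
    rw [hc, hc']
    revert h4
    cases b' <;> cases b'' <;> cases d' <;> cases d'' <;> cases d <;> decide
  refine ⟨f, ?_, ?_, ?_, fact4⟩
  · intro z r hz r' hr'
    obtain ⟨s, hs, ⟨⟨i, c, q⟩, hq, x', b', q', hTm, hqq, d, hd, hc⟩, hsq, he⟩ := hz r' hr'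
    change s ≤ q at hsq
    exact ⟨s, hs, X.el i, c, Nm.mem_el X.1 i (hsq.trans hq), he⟩
  · intro x r hx r' hr'
    have hx' : PhiN X R false r' x x := hΦ.mono _ _ _ _ _ hx hr'
    obtain ⟨t, ht, x', b', q', hTm, htq, d, hd⟩ := hT3 x r' hx'
    exact ⟨t, ht, xor b' d, crit x (xor b' d) t hd.mem ⟨x', b', q', hTm, htq, d, hd, rfl⟩⟩
  · intro x r c c' hc hc'
    obtain ⟨t, ht, x', b', q', hTm, htq, d, hd, _⟩ := ana x c r hc r le_rfl
    have h1 : PhiN X R false t x x := hΦ.refl _ _ _ _ hd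
    have h2 := fact4 x x t c c' false (hc.mono ht) (hc'.mono ht) h1
    revert h2
    cases c <;> cases c' <;> decide

end Pool.Agent.SymZF
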