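import Pool.Agent.SymZF.Iface

/-! Module LS: supports can be intersected. -/

noncomputable section

namespace Pool.Agent.SymZF

theorem mv_mono (g : GLV) {D D' : Submodule (ZMod 2) V} (h : D ≤ D') : mv g D ≤ mv g D' :=
  fun v hv => by rw [mem_mv] at hv ⊢; exact h hv

theorem mv_mul (g h : GLV) (D : Submodule (ZMod 2) V) : mv (g * h) D = mv g (mv h D) := by
  ext v
  rw [mem_mv, mem_mv, mem_mv, mul_inv_rev, mul_smul]

theorem mv_of_Fix {g : GLV} {D : Submodule (ZMod 2) V} (hg : g ∈ Fix D) : mv g D = D := by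
  ext v
  rw [mem_mv]
  have hg' : g⁻¹ ∈ Fix D := (Fix D).inv_mem hg
  constructor
  · intro h
    have h1 := hg _ h
    rw [smul_inv_smul] at h1
    rw [h1]; exact h
  · intro h
    rw [hg' v h]; exact h

theorem Cond.fn_unique (p : Cond) {v : V} {n : ℕ} {b b' : Bool} (h : (v, n, b) ∈ p.1)
    (h' : (v, n, b') ∈ p.1) : b = b' := by
  cases b <;> cases b'
  · rfl
  · exact absurd ⟨h', h⟩ (p.2 v n)
  · exact absurd ⟨h, h'⟩ (p.2 v n)
  · rfl

theorem Cond.Compat.symm {p q : Cond} (h : Cond.Compat p q) : Cond.Compat q p :=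
  fun v n b b' hb hb' => (h v n b' b hb' hb).symm

/-- if `r' ≤ w r₀` and common vectors have the same preimage under `u` and `w`, then `r'` and
`u r₀` are compatible -/
theorem compat_of {r' r₀ : Cond} {u w : GLV} (hw : r' ≤ w • r₀)
    (h : ∀ v ∈ r'.sp, u⁻¹ • v ∈ r₀.sp → u⁻¹ • v = w⁻¹ • v) : Cond.Compat r' (u • r₀) := by
  intro v n b b' hb hb'
  rw [Cond.mem_smul] at hb'
  have h1 : u⁻¹ • v = w⁻¹ • v := h v (Cond.mem_sp hb) (Cond.mem_sp hb')
  rw [h1] at hb'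
  have h2 : (v, n, b') ∈ (w • r₀).1 := by rw [Cond.mem_smul]; exact hb'
  exact Cond.fn_unique r' hb (hw h2)

theorem sp_smul_le {u : GLV} {r₀ : Cond} {v : V} (hv : v ∈ (u • r₀).sp) : u⁻¹ • v ∈ r₀.sp := by
  have : (u • r₀).sp ≤ mv u r₀.sp := by
    unfold Cond.sp
    rw [Submodule.span_le]
    rintro w ⟨⟨w', x⟩, hx, rfl⟩
    show w' ∈ mv u _
    rw [mem_mv]
    have hx' : (w', x) ∈ (u • r₀).1 := hx
    rw [Cond.mem_smul] at hx'
    exact Cond.mem_sp hx'
  exact mem_mv.1 (this hv)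

theorem Inv.move {E₀ : Submodule (ZMod 2) V} {X : Type 1} [MulAction GLV X]
    {Θ : Cond → X → X → Prop} (hΘ : ERel E₀ Θ) {x : X} {q : Cond} {D : Submodule (ZMod 2) V}
    (hi : Inv Θ x q D) {u w : GLV} (hu : u ∈ Fix E₀) (huw : u⁻¹ * w ∈ Fix D) {r : Cond}
    (hr1 : r ≤ u • q) (hr2 : r ≤ w • q) : Θ r (w • x) (u • x) := by
  have h1 := hi (u⁻¹ * w) huw (u⁻¹ • r) (by
    have := Cond.smul_mono u⁻¹ _ _ hr1
    rwa [inv_smul_smul] at this) (by
    have := Cond.smul_mono u⁻¹ _ _ hr2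
    rwa [smul_smul] at this)
  have h2 := hΘ.equiv u hu _ _ _ h1
  rw [smul_inv_smul, smul_smul, mul_inv_cancel_left] at h2
  exact h2

theorem LS_proof (hGP : Stmt_GP) (hEX : Stmt_EX) : Stmt_LS := by
  intro E₀ X _ Θ hΘ x₁ x₂ q₁ q₂ r₀ D₁ D₂ fd1 fd2 hE1 hE2 inv1 inv2 hr1 hr2 h12
  set D : Submodule (ZMod 2) V := D₁ ⊓ D₂ with hD
  have hED : E₀ ≤ D := le_inf hE1 hE2
  set S : Submodule (ZMod 2) V := D₁ ⊔ D₂ ⊔ r₀.sp with hS
  have hS1 : D₁ ≤ S := le_sup_left.trans le_sup_left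
  have hS2 : D₂ ≤ S := le_sup_right.trans le_sup_left
  have hS0 : r₀.sp ≤ S := le_sup_right
  have hSD : D ≤ S := inf_le_left.trans hS1
  have : FiniteDimensional (ZMod 2) S := by rw [hS]; infer_instance
  -- Step B
  have stepB : ∀ g ∈ Fix D, mv g S ⊓ S ≤ D → ∀ r, r ≤ r₀ → r ≤ g • r₀ → Θ r (g • x₁) x₁ := by
    intro g hg hgS r hr hrg
    apply hΘ.loc
    intro r' hr'
    set Q : Submodule (ZMod 2) V := S ⊔ mv g S ⊔ r'.sp with hQ
    have hQS : S ≤ Q := le_sup_left.trans le_sup_left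
    have hQg : mv g S ≤ Q := le_sup_right.trans le_sup_left
    have hQr : r'.sp ≤ Q := le_sup_right
    have : FiniteDimensional (ZMod 2) Q := by rw [hQ]; infer_instance
    obtain ⟨h1, h1F, h1I⟩ := hGP D₁ S Q inferInstance inferInstance hS1
    obtain ⟨h2, h2F, h2I⟩ := hGP D₂ S (mv h1⁻¹ (Q ⊔ mv h1 S)) inferInstance inferInstance hS2
    set u2 : GLV := h1 * h2 with hu2
    have h1D : h1 ∈ Fix D := Fix_anti inf_le_left h1F
    have h2D : h2 ∈ Fix D := Fix_anti inf_le_right h2F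
    have u2D : u2 ∈ Fix D := (Fix D).mul_mem h1D h2D
    have I2 : ∀ v, v ∈ mv u2 S → v ∈ Q ⊔ mv h1 S → h1⁻¹ • v ∈ D₂ := by
      intro v hv hvQ
      apply h2I
      refine ⟨?_, ?_⟩
      · rw [hu2, mv_mul, mem_mv] at hv
        exact hv
      · rw [SetLike.mem_coe, mem_mv, inv_inv, smul_inv_smul]
        exact hvQ
    have I2Q : ∀ v, v ∈ mv u2 S → v ∈ Q → v ∈ D := by
      intro v hv hvQ
      have a1 : h1⁻¹ • v ∈ D₂ := I2 v hv (le_sup_left (a := Q) hvQ)
      have a2 : v ∈ D₁ := h1I ⟨by rw [SetLike.mem_coe, mem_mv]; exact hS2 a1, hvQ⟩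
      have a3 : h1⁻¹ • v = v := (Fix D₁).inv_mem h1F v a2
      rw [a3] at a1
      exact ⟨a2, a1⟩
    obtain ⟨t0, ht01, ht02⟩ := hEX D₁ D₂ fd1 fd2 u2 u2D g hg (by
      rintro v ⟨hv1, hv2⟩
      exact I2Q v (mv_mono u2 hS1 hv1) (hQg (mv_mono g hS2 hv2)))
    obtain ⟨k, hkF, hkI⟩ := hGP (mv t0 (D₁ ⊔ D₂)) (mv t0 S) (Q ⊔ mv h1 S ⊔ mv u2 S) inferInstance
      inferInstance (mv_mono t0 (sup_le hS1 hS2))
    set t : GLV := k * t0 with ht
    have ht1 : ∀ a ∈ D₁, t • a = u2 • a := by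
      intro a ha
      rw [ht, mul_smul, hkF _ (smul_mem_mv (le_sup_left (a := D₁) ha)), ht01 a ha]
    have ht2 : ∀ a ∈ D₂, t • a = g • a := by
      intro a ha
      rw [ht, mul_smul, hkF _ (smul_mem_mv (le_sup_right (b := D₂) ha)), ht02 a ha]
    have tD : t ∈ Fix D := fun v hv => by rw [ht1 v hv.1, u2D v hv]
    have I3 : ∀ v, v ∈ mv t S → v ∈ Q ⊔ mv h1 S ⊔ mv u2 S →
        ∃ a ∈ D₁, ∃ b ∈ D₂, v = u2 • a + g • b ∧ t⁻¹ • v = a + b := by
      intro v hv hvQ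
      have a1 : v ∈ mv t0 (D₁ ⊔ D₂) := hkI ⟨by
        rw [ht, mv_mul] at hv; exact hv, hvQ⟩
      rw [mem_mv] at a1
      obtain ⟨a, ha, b, hb, hab⟩ := Submodule.mem_sup.1 a1
      have a2 : v = u2 • a + g • b := by
        have : v = t0 • (a + b) := by rw [hab, smul_inv_smul]
        rw [this, smul_add, ht01 a ha, ht02 b hb]
      refine ⟨a, ha, b, hb, a2, ?_⟩
      rw [inv_smul_eq_iff, smul_add, ht1 a ha, ht2 b hb]
      exact a2
    -- compatibility
    have c1 : Cond.Compat r' (h1 • r₀) := by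
      refine compat_of (w := 1) (by rw [one_smul]; exact hr'.trans hr) fun v hv hv' => ?_
      have : v ∈ D₁ := h1I ⟨by rw [SetLike.mem_coe, mem_mv]; exact hS0 hv', hQr hv⟩
      rw [(Fix D₁).inv_mem h1F v this, inv_one, one_smul]
    have c2 : Cond.Compat r' (u2 • r₀) := by
      refine compat_of (w := 1) (by rw [one_smul]; exact hr'.trans hr) fun v hv hv' => ?_
      have : v ∈ D := I2Q v (by rw [mem_mv]; exact hS0 hv') (hQr hv)
      rw [(Fix D).inv_mem u2D v this, inv_one, one_smul]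
    have c3 : Cond.Compat r' (t • r₀) := by
      refine compat_of (w := g) (hr'.trans hrg) fun v hv hv' => ?_
      obtain ⟨a, ha, b, hb, e1, e2⟩ := I3 v (by rw [mem_mv]; exact hS0 hv')
        (le_sup_left (a := Q ⊔ mv h1 S) (le_sup_left (a := Q) (hQr hv)))
      have hgb : g • b ∈ Q := hQg (smul_mem_mv (hS2 hb))
      have hua : u2 • a ∈ Q := by
        have : u2 • a = v - g • b := by rw [e1]; abel
        rw [this]; exact Q.sub_mem (hQr hv) hgb
      have hua' : u2 • a ∈ D := I2Q _ (smul_mem_mv (hS1 ha)) hua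
      have haD : a ∈ D := by
        have := (Fix D).inv_mem u2D _ hua'
        rw [inv_smul_smul] at this
        rw [this]; exact hua'
      rw [e2, eq_comm, inv_smul_eq_iff, e1, smul_add, u2D a haD, hg a haD]
    have c4 : Cond.Compat (h1 • r₀) (u2 • r₀) := by
      refine compat_of (w := h1) le_rfl fun v hv hv' => ?_
      have hv1 : v ∈ mv h1 S := by rw [mem_mv]; exact hS0 (sp_smul_le hv)
      have hb : h1⁻¹ • v ∈ D₂ := I2 v (by rw [mem_mv]; exact hS0 hv') (le_sup_right (b := mv h1 S) hv1)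
      rw [hu2, mul_inv_rev, mul_smul, (Fix D₂).inv_mem h2F _ hb]
    have c5 : Cond.Compat (u2 • r₀) (t • r₀) := by
      refine compat_of (w := u2) le_rfl fun v hv hv' => ?_
      have hv1 : v ∈ mv u2 S := by rw [mem_mv]; exact hS0 (sp_smul_le hv)
      obtain ⟨a, ha, b, hb, e1, e2⟩ := I3 v (by rw [mem_mv]; exact hS0 hv')
        (le_sup_right (b := mv u2 S) hv1)
      have hgb : g • b ∈ Q := hQg (smul_mem_mv (hS2 hb))
      have hgb' : g • b ∈ mv u2 S := by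
        have : g • b = v - u2 • a := by rw [e1]; abel
        rw [this]; exact (mv u2 S).sub_mem hv1 (smul_mem_mv (hS1 ha))
      have hgD : g • b ∈ D := I2Q _ hgb' hgb
      have hbD : b ∈ D := by
        have := (Fix D).inv_mem hg _ hgD
        rw [inv_smul_smul] at this
        rw [this]; exact hgD
      rw [e2, eq_comm, inv_smul_eq_iff, e1, smul_add, u2D b hbD, hg b hbD]
    have c6 : Cond.Compat (h1 • r₀) (t • r₀) := by
      refine compat_of (w := h1) le_rfl fun v hv hv' => ?_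
      have hv1 : v ∈ mv h1 S := by rw [mem_mv]; exact hS0 (sp_smul_le hv)
      obtain ⟨a, ha, b, hb, e1, e2⟩ := I3 v (by rw [mem_mv]; exact hS0 hv')
        (le_sup_left (a := Q ⊔ mv h1 S) (le_sup_right (b := mv h1 S) hv1))
      have hgb : g • b ∈ Q := hQg (smul_mem_mv (hS2 hb))
      have hua : u2 • a ∈ Q ⊔ mv h1 S := by
        have : u2 • a = v - g • b := by rw [e1]; abel
        rw [this]
        exact Submodule.sub_mem _ (le_sup_right (b := mv h1 S) hv1) (le_sup_left (a := Q) hgb)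
      have h3 : h1⁻¹ • (u2 • a) ∈ D₂ := I2 _ (smul_mem_mv (hS1 ha)) hua
      rw [hu2, mul_smul, inv_smul_smul] at h3
      have haD2 : a ∈ D₂ := by
        have := (Fix D₂).inv_mem h2F _ h3
        rw [inv_smul_smul] at this
        rw [this]; exact h3
      have haD : a ∈ D := ⟨ha, haD2⟩
      have e3 : v = g • (a + b) := by rw [e1, smul_add, u2D a haD, hg a haD]
      have hvg : v ∈ mv g S := by
        rw [e3]; exact smul_mem_mv (S.add_mem (hS1 ha) (hS2 hb))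
      have hvD1 : v ∈ D₁ := h1I ⟨hv1, hQg hvg⟩
      have hvD : v ∈ D := hgS ⟨hvg, hS1 hvD1⟩
      rw [(Fix D).inv_mem tD v hvD, (Fix D₁).inv_mem h1F v hvD1]
    set j1 := Cond.join (h1 • r₀) (u2 • r₀) c4 with hj1
    have cj1 : Cond.Compat (t • r₀) j1 := Cond.Compat.join_right c4 c6.symm c5.symm
    set j2 := Cond.join (t • r₀) j1 cj1 with hj2
    have cj2 : Cond.Compat r' j2 := Cond.Compat.join_right cj1 c3 (Cond.Compat.join_right c4 c1 c2)
    set r'' := Cond.join r' j2 cj2 with hr''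
    have l0 : r'' ≤ r' := Cond.join_le_left _ _ _
    have l1 : r'' ≤ j2 := Cond.join_le_right _ _ _
    have lt : r'' ≤ t • r₀ := l1.trans (Cond.join_le_left _ _ _)
    have l2 : r'' ≤ j1 := l1.trans (Cond.join_le_right _ _ _)
    have lh : r'' ≤ h1 • r₀ := l2.trans (Cond.join_le_left _ _ _)
    have lu : r'' ≤ u2 • r₀ := l2.trans (Cond.join_le_right _ _ _)
    have lr : r'' ≤ r₀ := l0.trans (hr'.trans hr)
    have lg : r'' ≤ g • r₀ := l0.trans (hr'.trans hrg)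
    refine ⟨r'', l0, ?_⟩
    have FE : ∀ {g : GLV}, g ∈ Fix D → g ∈ Fix E₀ := fun h => Fix_anti hED h
    have pm : ∀ u : GLV, u ∈ Fix D → r'' ≤ u • r₀ → Θ r'' (u • x₁) (u • x₂) := fun u hu hle =>
      hΘ.mono _ _ _ _ (hΘ.equiv u (FE hu) _ _ _ h12) hle
    have sm : ∀ u : GLV, ∀ {q q' : Cond}, q ≤ q' → u • q ≤ u • q' :=
      fun u q q' h => Cond.smul_mono u q q' h
    -- chain
    have k1 : Θ r'' (h1 • x₁) ((1 : GLV) • x₁) := inv1.move hΘ (Fix E₀).one_mem
      (by rw [inv_one, one_mul]; exact h1F) (by rw [one_smul]; exact lr.trans hr1)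
      (lh.trans (sm h1 hr1))
    have k2 : Θ r'' (h1 • x₁) (h1 • x₂) := pm h1 h1D lh
    have k3 : Θ r'' (u2 • x₂) (h1 • x₂) := inv2.move hΘ (FE h1D)
      (by rw [hu2, inv_mul_cancel_left]; exact h2F) (lh.trans (sm h1 hr2)) (lu.trans (sm u2 hr2))
    have k4 : Θ r'' (u2 • x₁) (u2 • x₂) := pm u2 u2D lu
    have k5 : Θ r'' (t • x₁) (u2 • x₁) := inv1.move hΘ (FE u2D)
      (fun v hv => by rw [mul_smul, ht1 v hv, inv_smul_smul]) (lu.trans (sm u2 hr1))
      (lt.trans (sm t hr1))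
    have k6 : Θ r'' (t • x₁) (t • x₂) := pm t tD lt
    have k7 : Θ r'' (g • x₂) (t • x₂) := inv2.move hΘ (FE tD)
      (fun v hv => by rw [mul_smul, ← ht2 v hv, inv_smul_smul]) (lt.trans (sm t hr2))
      (lg.trans (sm g hr2))
    have k8 : Θ r'' (g • x₁) (g • x₂) := pm g hg lg
    rw [one_smul] at k1
    have T := fun {a b c : X} (h : Θ r'' a b) (h' : Θ r'' b c) => hΘ.trans r'' a b c h h'
    have Sy := fun {a b : X} (h : Θ r'' a b) => hΘ.symm r'' a b h
    exact T k8 (T k7 (T (Sy k6) (T k5 (T k4 (T k3 (T (Sy k2) k1))))))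
  -- Step A
  intro g hg r hr hrg
  apply hΘ.loc
  intro r' hr'
  set Q : Submodule (ZMod 2) V := S ⊔ mv g S ⊔ r'.sp with hQ
  have hQS : S ≤ Q := le_sup_left.trans le_sup_left
  have hQg : mv g S ≤ Q := le_sup_right.trans le_sup_left
  have hQr : r'.sp ≤ Q := le_sup_right
  have : FiniteDimensional (ZMod 2) Q := by rw [hQ]; infer_instance
  obtain ⟨h, hF, hI⟩ := hGP D S Q inferInstance inferInstance hSD
  have c1 : Cond.Compat r' (h • r₀) := by
    refine compat_of (w := 1) (by rw [one_smul]; exact hr'.trans hr) fun v hv hv' => ?_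
    have : v ∈ D := hI ⟨by rw [SetLike.mem_coe, mem_mv]; exact hS0 hv', hQr hv⟩
    rw [(Fix D).inv_mem hF v this, inv_one, one_smul]
  refine ⟨Cond.join r' (h • r₀) c1, Cond.join_le_left _ _ _, ?_⟩
  set r'' := Cond.join r' (h • r₀) c1
  have l0 : r'' ≤ r' := Cond.join_le_left _ _ _
  have l1 : r'' ≤ h • r₀ := Cond.join_le_right _ _ _
  have e1 : Θ r'' (h • x₁) x₁ := stepB h hF (fun v hv => hI ⟨hv.1, hQS hv.2⟩) r''
    (l0.trans (hr'.trans hr)) l1
  have hgh : g⁻¹ * h ∈ Fix D := (Fix D).mul_mem ((Fix D).inv_mem hg) hF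
  have e2 : Θ (g⁻¹ • r'') ((g⁻¹ * h) • x₁) x₁ := by
    refine stepB (g⁻¹ * h) hgh ?_ _ ?_ ?_
    · rintro v ⟨hv1, hv2⟩
      have hv1' : g • v ∈ mv h S := by
        rw [SetLike.mem_coe, mv_mul, mem_mv, inv_inv] at hv1
        exact hv1
      have hv2' : g • v ∈ Q := hQg (smul_mem_mv hv2)
      have hv3 : g • v ∈ D := hI ⟨hv1', hv2'⟩
      have := (Fix D).inv_mem hg _ hv3
      rw [inv_smul_smul] at this
      rw [this]; exact hv3
    · have := Cond.smul_mono g⁻¹ _ _ (l0.trans (hr'.trans hrg))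
      rwa [inv_smul_smul] at this
    · have := Cond.smul_mono g⁻¹ _ _ l1
      rwa [smul_smul] at this
  have e3 := hΘ.equiv g (Fix_anti hED hg) _ _ _ e2
  rw [smul_inv_smul, smul_smul, mul_inv_cancel_left] at e3
  exact hΘ.trans _ _ _ _ (hΘ.symm _ _ _ e3) e1

end Pool.Agent.SymZF
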