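import Pool.Agent.SymZF.K2b

/-! Module LinFin: every finite subsystem is solvable. -/

noncomputable section

namespace Pool.Agent.SymZF

theorem realN_inj {u v : V} {r : Cond} (h : Nm.Eqv (realN u).1 (realN v).1 r) : u = v := by
  by_contra hne
  -- a fresh `n`
  obtain ⟨n, hn⟩ : ∃ n : ℕ, n ∉ r.1.image (fun x => x.2.1) := Infinite.exists_notMem_finset _
  have hfr : ∀ w b, (w, n, b) ∉ r.1 := fun w b hb => hn (Finset.mem_image.2 ⟨(w, n, b), hb, rfl⟩)
  have c1 : Cond.Compat (Cond.sing u n true) (Cond.sing v n false) := by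
    intro w m b b' hb hb'
    rw [Cond.mem_sing, Prod.mk.injEq] at hb hb'
    exact absurd (hb.1.symm.trans hb'.1) hne
  have c2 : Cond.Compat r (Cond.join _ _ c1) := by
    intro w m b b' hb hb'
    rw [Cond.mem_join, Cond.mem_sing, Cond.mem_sing] at hb'
    rcases hb' with hb' | hb' <;>
    · simp only [Prod.mk.injEq] at hb'
      rw [hb'.2.1] at hb
      exact absurd hb (hfr _ _)
  set r' := Cond.join r (Cond.join _ _ c1) c2 with hr'
  have l0 : r' ≤ r := Cond.join_le_left _ _ _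
  have l1 : r' ≤ Cond.sing u n true :=
    (Cond.join_le_right _ _ _).trans (Cond.join_le_left _ _ _)
  have l2 : r' ≤ Cond.sing v n false :=
    (Cond.join_le_right _ _ _).trans (Cond.join_le_right _ _ _)
  have h1 : Nm.Mem (numN CS n).1 (realN u).1 r' :=
    Nm.mem_el (Nm.mk ℕ (fun i => (numN CS i).val) fun i => Cond.sing u i true) n l1
  have h2 : Nm.Mem (numN CS n).1 (realN v).1 r' := h1.congr_right (h.mono l0)
  obtain ⟨s, hs, m, hsm, he⟩ := h2 r' le_rfl
  change s ≤ Cond.sing v m true at hsm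
  change Nm.Eqv (numN CS n).1 (numN CS m).1 s at he
  have hnm : n = m := numN_inj he
  subst hnm
  have a1 := (Cond.le_sing _ _ _ _).1 hsm
  have a2 := (Cond.le_sing _ _ _ _).1 (hs.trans l2)
  exact s.2 v n ⟨a1, a2⟩

/-- the finite set `{x_v : v ∈ W}` -/
def setB (W : Finset V) : HSN CS :=
  HSN.mk' CS {v // v ∈ W} (fun v => realN v.1) (fun _ => ⊤) ⟨Fix (Submodule.span (ZMod 2) (W : Set V)),
    ⟨_, FiniteDimensional.span_finset _ _, le_rfl⟩, fun g hg v => by
    rw [CS.smul_top]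
    have hv : g • v.1 = v.1 := hg v.1 (Submodule.subset_span v.2)
    have h2 : g • (realN v.1).1 = (realN v.1).1 := by
      rw [← HSN.smul_val, smul_realN, hv]
    rw [h2]
    exact Nm.mem_el (Nm.mk {v // v ∈ W} (fun i => (realN i.1).val) _) v le_rfl⟩

theorem mem_setB (W : Finset V) (z : HSN CS) (r : Cond) :
    Nm.Mem z.1 (setB W).1 r ↔ ∀ r' ≤ r, ∃ t ≤ r', ∃ v ∈ W, Nm.Eqv z.1 (realN v).1 t := by
  constructor
  · intro h r' hr'
    obtain ⟨s, hs, ⟨v, hv⟩, _, he⟩ := h r' hr'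
    exact ⟨s, hs, v, hv, he⟩
  · intro h r' hr'
    obtain ⟨s, hs, v, hv, he⟩ := h r' hr'
    exact ⟨s, hs, (⟨v, hv⟩ : {v // v ∈ W}), le_top, he⟩

theorem smul_setB (g : GLV) (W : Finset V) (r : Cond) :
    Nm.Eqv (g • setB W).1 (setB (W.map g.toEquiv.toEmbedding)).1 r := by
  apply HSN.ext_mem
  intro z t _
  have h1 : Nm.Mem z.1 (g • setB W).1 t ↔ Nm.Mem (g⁻¹ • z).1 (setB W).1 (g⁻¹ • t) := by
    rw [← CS.mem_smul_iff g⁻¹, HSN.smul_val, HSN.smul_val, inv_smul_smul]
  rw [h1, mem_setB, mem_setB]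
  constructor
  · intro h r' hr'
    obtain ⟨u, hu, v, hv, he⟩ := h (g⁻¹ • r') (Cond.smul_mono _ _ _ hr')
    refine ⟨g • u, ?_, g • v, ?_, ?_⟩
    · have := Cond.smul_mono g _ _ hu
      rwa [smul_inv_smul] at this
    · exact Finset.mem_map.2 ⟨v, hv, rfl⟩
    · have := CS.eqv_smul g he
      rw [← HSN.smul_val, ← HSN.smul_val, smul_inv_smul, smul_realN] at this
      exact this
  · intro h r' hr'
    obtain ⟨u, hu, v, hv, he⟩ := h (g • r') (by
      have := Cond.smul_mono g _ _ hr'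
      rwa [smul_inv_smul] at this)
    obtain ⟨w, hw, rfl⟩ := Finset.mem_map.1 hv
    refine ⟨g⁻¹ • u, ?_, w, hw, ?_⟩
    · have := Cond.smul_mono g⁻¹ _ _ hu
      rwa [inv_smul_smul] at this
    · have := CS.eqv_smul g⁻¹ he
      rw [← HSN.smul_val, ← HSN.smul_val, smul_realN] at this
      have h3 : g⁻¹ • (g.toEquiv.toEmbedding w) = w := by
        show g⁻¹ • (g • w) = w
        rw [inv_smul_smul]
      rw [h3] at this
      exact this

/-- the family of all finite sets `{x_v : v ∈ W}` -/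
def famB : HSN CS :=
  HSN.mk' CS (Finset V) setB (fun _ => ⊤) ⟨⊤, CS.top_mem, fun g _ W => by
    rw [CS.smul_top, ← HSN.smul_val]
    exact (Nm.mem_el (Nm.mk (Finset V) (fun i => (setB i).val) fun _ => ⊤)
      (W.map g.toEquiv.toEmbedding) le_rfl).congr_left (smul_setB g W ⊤).symm⟩

theorem mem_famB (z : HSN CS) (r : Cond) :
    Nm.Mem z.1 famB.1 r ↔ ∀ r' ≤ r, ∃ t ≤ r', ∃ W, Nm.Eqv z.1 (setB W).1 t := by
  constructor
  · intro h r' hr'
    obtain ⟨s, hs, W, _, he⟩ := h r' hr'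
    exact ⟨s, hs, W, he⟩
  · intro h r' hr'
    obtain ⟨s, hs, W, he⟩ := h r' hr'
    exact ⟨s, hs, (W : Finset V), le_top, he⟩

theorem setA_mem (z : HSN CS) (r : Cond) (h : Nm.Mem z.1 setA.1 r) :
    ∀ r' ≤ r, ∃ t ≤ r', ∃ v, Nm.Eqv z.1 (realN v).1 t := by
  intro r' hr'
  obtain ⟨s, hs, v, _, he⟩ := h r' hr'
  exact ⟨s, hs, v, he⟩

/-- a forced finite subset of `A` is densely one of the sets `{x_v : v ∈ W}` -/
theorem fin_sub_setA {n : ℕ} (i j : Fin n) (s : Fin n → HSN CS) (r : Cond) (hi : s i = setA)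
    (h1 : Frc CS (.cSub j i) s r) (h2 : Frc CS (.cFin j) s r) :
    ∀ r' ≤ r, ∃ t ≤ r', ∃ W, Nm.Eqv (s j).1 (setB W).1 t := by
  have hsub : ∀ z : HSN CS, ∀ t ≤ r, Nm.Mem z.1 (s j).1 t → Nm.Mem z.1 setA.1 t := by
    intro z t ht hz
    unfold Fml.cSub at h1
    simp only [Frc_all, Frc_imp, Frc_mem, cns_zero, cns_succ, hi] at h1
    exact h1 z t ht hz
  unfold Fml.cFin at h2
  rw [Frc_all] at h2
  have h3 := h2 famB
  simp only [Frc_imp, Frc_all, Frc_iff, Frc_or, Frc_eq, frc_cZero_iff, Frc_mem, cns_zero,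
    cns_one, cns_two, cns_three, cns_succ] at h3
  have h4 : Nm.Mem (s j).1 famB.1 r := by
    refine h3 r le_rfl ?_ r le_rfl ?_
    · intro e t _ he
      rw [mem_famB]
      intro t' ht'
      refine ⟨t', le_rfl, ∅, ?_⟩
      refine (he.mono ht').trans ?_
      apply HSN.ext_mem
      intro z u _
      constructor
      · intro hm; exact absurd hm (not_mem_emptyN z u)
      · intro hm
        rw [mem_setB] at hm
        obtain ⟨_, _, v, hv, _⟩ := hm u le_rfl
        simp at hv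
    · intro Y Z x t ht hY t' ht' hx t'' ht'' hZ
      rw [mem_famB] at hY ⊢
      intro u hu
      have hxA : Nm.Mem x.1 setA.1 u :=
        (hsub x t' (ht'.trans ht) hx).mono (hu.trans ht'')
      obtain ⟨u1, hu1, v, hv⟩ := setA_mem x u hxA u le_rfl
      obtain ⟨u2, hu2, W, hW⟩ := hY u1 (((hu1.trans hu).trans ht'').trans ht')
      classical
      refine ⟨u2, hu2.trans hu1, insert v W, ?_⟩
      apply HSN.ext_mem
      intro w y hy
      have hyt : y ≤ t'' := hy.trans (hu2.trans (hu1.trans hu))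
      rw [hZ w y hyt, mem_setB]
      have hWY := hW.mono hy
      have hvx := hv.mono (hy.trans hu2)
      constructor
      · intro h y' hy'
        obtain ⟨y1, hy1, hm | hm⟩ := h y' hy'
        · have hm' := hm.congr_right (hWY.mono (hy1.trans hy'))
          rw [mem_setB] at hm'
          obtain ⟨y2, hy2, v', hv', he⟩ := hm' y1 le_rfl
          exact ⟨y2, hy2.trans hy1, v', Finset.mem_insert_of_mem hv', he⟩
        · exact ⟨y1, hy1, v, Finset.mem_insert_self _ _, hm.trans (hvx.mono (hy1.trans hy'))⟩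
      · intro h y' hy'
        obtain ⟨y1, hy1, v', hv', he⟩ := h y' hy'
        refine ⟨y1, hy1, ?_⟩
        rcases Finset.mem_insert.1 hv' with rfl | hv'
        · right; exact he.trans (hvx.mono (hy1.trans hy')).symm
        · left
          refine Nm.Mem.congr_right ?_ (hWY.mono (hy1.trans hy')).symm
          rw [mem_setB]
          exact fun y2 hy2 => ⟨y2, le_rfl, v', hv', he.mono hy2⟩
  exact (mem_famB _ _).1 h4

/-- the linear functional `v ↦ v₀` as a truth value -/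
def lam (v : V) : Bool := decide (v 0 = 1)

theorem lam_add (u v : V) : xor (lam u) (xor (lam v) (lam (u + v))) = false := by
  unfold lam
  rw [Finsupp.add_apply]
  rcases zmod2_cases (u 0) with h | h <;> rcases zmod2_cases (v 0) with h' | h' <;>
    rw [h, h'] <;> decide

theorem lam_e0 : lam e0 = true := by
  unfold lam e0
  simp

/-- the partial solution on `{x_v : v ∈ W}` -/
def mapB (W : Finset V) : HSN CS :=
  HSN.mk' CS {v // v ∈ W} (fun v => pairN (realN v.1) (bitN (lam v.1))) (fun _ => ⊤)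
    ⟨Fix (Submodule.span (ZMod 2) (W : Set V)),
    ⟨_, FiniteDimensional.span_finset _ _, le_rfl⟩, fun g hg v => by
    rw [CS.smul_top]
    have hv : g • v.1 = v.1 := hg v.1 (Submodule.subset_span v.2)
    have h2 : g • (pairN (realN v.1) (bitN (lam v.1))).1 =
        (pairN (realN v.1) (bitN (lam v.1))).1 := by
      rw [← HSN.smul_val, smul_pairN, smul_realN, smul_bitN, hv]
    rw [h2]
    exact Nm.mem_el (Nm.mk {v // v ∈ W} (fun i => (pairN (realN i.1) (bitN (lam i.1))).val) _) v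
      le_rfl⟩

theorem mem_mapB (W : Finset V) (z : HSN CS) (r : Cond) :
    Nm.Mem z.1 (mapB W).1 r ↔ ∀ r' ≤ r, ∃ t ≤ r', ∃ v ∈ W,
      Nm.Eqv z.1 (pairN (realN v) (bitN (lam v))).1 t := by
  constructor
  · intro h r' hr'
    obtain ⟨s, hs, ⟨v, hv⟩, _, he⟩ := h r' hr'
    exact ⟨s, hs, v, hv, he⟩
  · intro h r' hr'
    obtain ⟨s, hs, v, hv, he⟩ := h r' hr'
    exact ⟨s, hs, (⟨v, hv⟩ : {v // v ∈ W}), le_top, he⟩

theorem frc_cMap_mapB {n : ℕ} (f i : Fin n) (s : Fin n → HSN CS) (r : Cond) (W : Finset V)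
    (hf : s f = mapB W) (hi : s i = setB W) : Frc CS (.cMap f i) s r := by
  unfold Fml.cMap
  rw [Frc_and]
  constructor
  · simp only [Frc_all, Frc_imp, Frc_mem, cns_zero, cns_succ, hf]
    intro p t _ hp
    apply Frc.local
    intro t' ht'
    obtain ⟨t'', ht'', v, hv, he⟩ := (mem_mapB W p t).1 hp t' ht'
    refine ⟨t'', ht'', ?_⟩
    apply Frc_ex_intro (realN v)
    apply Frc_ex_intro (bitN (lam v))
    simp only [Frc_and, Frc_mem, Frc_or, frc_cZero_iff, frc_cOne_iff, frc_cPair_iff, cns_zero,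
      cns_one, cns_two, cns_succ, hi]
    refine ⟨(mem_setB _ _ _).2 fun u hu => ⟨u, le_rfl, v, hv, Nm.Eqv.refl _ _⟩, ?_, he⟩
    intro u hu
    refine ⟨u, le_rfl, ?_⟩
    cases lam v
    · left; exact Nm.Eqv.refl _ _
    · right; exact Nm.Eqv.refl _ _
  · simp only [Frc_all, Frc_imp, Frc_mem, cns_zero, cns_succ, hi]
    intro x t _ hx
    apply Frc.local
    intro t' ht'
    obtain ⟨t'', ht'', v, hv, he⟩ := (mem_setB W x t).1 hx t' ht'
    refine ⟨t'', ht'', ?_⟩
    apply Frc_ex_intro (bitN (lam v))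
    simp only [Frc_and, Frc_all, Frc_imp, Frc_eq, frc_cIn2_iff, cns_zero,
      cns_one, cns_two, cns_succ, hf]
    refine ⟨(mem_mapB _ _ _).2 fun u hu => ⟨u, le_rfl, v, hv,
      pairN_congr (he.mono hu) (Nm.Eqv.refl _ _)⟩, ?_⟩
    intro z u hu hz
    apply Nm.Eqv.local
    intro u' hu'
    obtain ⟨u'', hu'', w, hw, hew⟩ := (mem_mapB W _ u).1 hz u' hu'
    obtain ⟨e1, e2⟩ := pairN_inj hew
    have : v = w := realN_inj (((he.mono ((hu''.trans hu').trans hu)).symm).trans e1)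
    subst this
    exact ⟨u'', hu'', e2⟩

theorem dec_mapB {n : ℕ} (f i : Fin n) (s : Fin n → HSN CS) (r : Cond) (W : Finset V) (v : V)
    (hv : v ∈ W) (hf : s f = mapB W) (hi : Nm.Eqv (s i).1 (realN v).1 r) :
    Dec (.cVal f i) s r (lam v) := by
  have key : ∀ t ≤ r, Nm.Mem (pairN (s i) (numN CS 1)).1 (mapB W).1 t → lam v = true := by
    intro t ht hm
    obtain ⟨t', ht', w, hw, he⟩ := (mem_mapB W _ t).1 hm t le_rfl
    obtain ⟨e1, e2⟩ := pairN_inj he
    have : v = w := realN_inj (((hi.mono (ht'.trans ht)).symm).trans e1)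
    subst this
    exact (bitN_inj (c := true) (c' := lam v) e2).symm
  cases hl : lam v
  · change Frc CS (.neg (.cVal f i)) s r
    rw [Frc_neg]
    intro t ht hF
    rw [frc_cVal_iff, hf] at hF
    have := key t ht hF
    rw [hl] at this
    exact absurd this (by decide)
  · change Frc CS (.cVal f i) s r
    rw [frc_cVal_iff, hf, mem_mapB]
    intro t ht
    refine ⟨t, le_rfl, v, hv, pairN_congr (hi.mono ht) ?_⟩
    rw [hl]
    exact Nm.Eqv.refl _ _

theorem frc_homB {n : ℕ} (f i j k : Fin n) (s : Fin n → HSN CS) (r : Cond) (W : Finset V)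
    (hf : s f = mapB W) (hi : s i = setB W) (hj : s j = relR0) (hk : s k = relR1) :
    Frc CS (.cHomLin f i j k) s r := by
  unfold Fml.cHomLin
  rw [Frc_and, Frc_and]
  refine ⟨frc_cMap_mapB f i s r W hf hi, ?_, ?_⟩
  · simp only [Frc_all, Frc_imp, Frc_mem, frc_cIn3_iff, cns_zero, cns_one, cns_two, cns_succ,
      hi, hj]
    intro x y z t1 _ hx t2 ht2 hy t3 ht3 hz t4 ht4 hm
    apply Frc.local
    intro t5 ht5
    obtain ⟨t6, ht6, w, _, he⟩ := hm t5 ht5
    change Nm.Eqv _ (pairN (pairN (realN w.1) (realN w.2)) (realN (w.1 + w.2))).1 t6 at he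
    obtain ⟨e12, e3⟩ := pairN_inj he
    obtain ⟨e1, e2⟩ := pairN_inj e12
    have l3 : t6 ≤ t3 := (ht6.trans ht5).trans ht4
    have l2 : t6 ≤ t2 := l3.trans ht3
    have l1 : t6 ≤ t1 := l2.trans ht2
    have inW : ∀ (a : HSN CS) (b : V) (t : Cond), Nm.Mem a.1 (setB W).1 t →
        Nm.Eqv a.1 (realN b).1 t → b ∈ W := by
      intro a b t ha hb
      obtain ⟨t', ht', v, hv, he'⟩ := (mem_setB W a t).1 ha t le_rfl
      have : b = v := realN_inj ((hb.mono ht').symm.trans he')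
      rw [this]; exact hv
    have w1 := inW x w.1 t6 (hx.mono l1) e1
    have w2 := inW y w.2 t6 (hy.mono l2) e2
    have w3 := inW z (w.1 + w.2) t6 (hz.mono l3) e3
    refine ⟨t6, ht6, ?_⟩
    set s' : Fin (n + 3) → HSN CS := cns z (cns y (cns x s)) with hs'
    have d1 : Dec (.cVal f.succ.succ.succ 2) s' t6 (lam w.1) :=
      dec_mapB _ _ _ _ W w.1 w1 hf e1
    have d2 : Dec (.cVal f.succ.succ.succ 1) s' t6 (lam w.2) :=
      dec_mapB _ _ _ _ W w.2 w2 hf e2
    have d3 : Dec (.cVal f.succ.succ.succ 0) s' t6 (lam (w.1 + w.2)) :=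
      dec_mapB _ _ _ _ W (w.1 + w.2) w3 hf e3
    have d4 := Dec.sum d1 d2 d3
    rw [lam_add] at d4
    exact d4
  · simp only [Frc_all, Frc_imp, Frc_mem, frc_cIn3_iff, cns_zero, cns_one, cns_two, cns_succ,
      hi, hk]
    intro x y z t1 _ hx t2 ht2 hy t3 ht3 hz t4 ht4 hm
    rw [relR1, mem_upair_self] at hm
    obtain ⟨e12, e3⟩ := pairN_inj hm
    obtain ⟨e1, e2⟩ := pairN_inj e12
    have l3 : t4 ≤ t3 := ht4
    have l2 : t4 ≤ t2 := l3.trans ht3
    have l1 : t4 ≤ t1 := l2.trans ht2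
    have w1 : e0 ∈ W := by
      obtain ⟨t', ht', v, hv, he'⟩ := (mem_setB W x t4).1 (hx.mono l1) t4 le_rfl
      have : e0 = v := realN_inj ((e1.mono ht').symm.trans he')
      rw [this]; exact hv
    set s' : Fin (n + 3) → HSN CS := cns z (cns y (cns x s)) with hs'
    have d1 : Dec (.cVal f.succ.succ.succ 2) s' t4 (lam e0) := dec_mapB _ _ _ _ W e0 w1 hf e1
    have d2 : Dec (.cVal f.succ.succ.succ 1) s' t4 (lam e0) := dec_mapB _ _ _ _ W e0 w1 hf e2
    have d3 : Dec (.cVal f.succ.succ.succ 0) s' t4 (lam e0) := dec_mapB _ _ _ _ W e0 w1 hf e3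
    have d4 := Dec.sum d1 d2 d3
    rw [lam_e0] at d4
    exact d4

theorem LinFin_proof : Stmt_LinFin := by
  intro n i j k s r hi hj hk
  unfold Fml.cHypLin
  simp only [Frc_all, Frc_imp]
  intro F t ht h1 t' ht' h2
  apply Frc.local
  intro u hu
  obtain ⟨u', hu', W, hW⟩ := fin_sub_setA i.succ 0 (cns F s) t' hi (h1.mono ht') h2 u hu
  refine ⟨u', hu', ?_⟩
  apply Frc_ex_intro (mapB W)
  have h3 : Frc CS (.cHomLin 0 1 j.succ.succ k.succ.succ) (cns (mapB W) (cns (setB W) s)) u' :=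
    frc_homB _ _ _ _ _ _ W rfl rfl hj hk
  refine Frc.congr (fun i => ?_) h3
  refine Fin.cases ?_ (fun i => Fin.cases ?_ (fun i => ?_) i) i
  · exact Nm.Eqv.refl _ _
  · exact hW.symm
  · exact Nm.Eqv.refl _ _

end Pool.Agent.SymZF
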