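import Pool.Agent.SymZF.LS

/-! Modules LinRel, LinNo, Lin. -/

noncomputable section

namespace Pool.Agent.SymZF

section Gen

variable {P G : Type} [PartialOrder P] [OrderTop P] [Group G] [MulAction G P] {S : SymSys P G}
  {n : ℕ}

theorem Frc_ex_intro {φ : Fml (n + 1)} {s : Fin n → HSN S} {r : P} (x : HSN S)
    (h : Frc S φ (cns x s) r) : Frc S (.ex φ) s r := by
  rw [Frc_ex]
  exact fun t ht => ⟨t, le_rfl, x, h.mono ht⟩

/-- `t` decides `φ` with truth value `b` -/
def Dec (φ : Fml n) (s : Fin n → HSN S) (t : P) (b : Bool) : Prop :=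
  if b then Frc S φ s t else Frc S (.neg φ) s t

theorem Dec.mono {φ : Fml n} {s : Fin n → HSN S} {t t' : P} {b : Bool} (h : Dec φ s t b)
    (ht : t' ≤ t) : Dec φ s t' b := by
  cases b
  · simp only [Dec, Bool.false_eq_true, if_false] at h ⊢; exact h.mono ht
  · simp only [Dec, if_true] at h ⊢; exact h.mono ht

theorem exists_dec (φ : Fml n) (s : Fin n → HSN S) (t : P) : ∃ t' ≤ t, ∃ b, Dec φ s t' b := by
  by_cases h : Frc S φ s t
  · exact ⟨t, le_rfl, true, h⟩
  · obtain ⟨t', ht', h'⟩ := Frc.exists_neg h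
    exact ⟨t', ht', false, h'⟩

theorem Dec.unique {φ : Fml n} {s : Fin n → HSN S} {t : P} {b b' : Bool} (h : Dec φ s t b)
    (h' : Dec φ s t b') : b = b' := by
  cases b <;> cases b' <;> simp only [Dec, Bool.false_eq_true, if_false, if_true] at h h'
  · rfl
  · exact (h'.not_and_neg h).elim
  · exact (h.not_and_neg h').elim
  · rfl

theorem Dec.neg {φ : Fml n} {s : Fin n → HSN S} {t : P} {b : Bool} (h : Dec φ s t b) :
    Dec (.neg φ) s t (!b) := by
  cases b
  · simp only [Dec, Bool.false_eq_true, if_false, Bool.not_false, if_true] at h ⊢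
    exact h
  · simp only [Dec, if_true, Bool.not_true, Bool.false_eq_true, if_false] at h ⊢
    rw [Frc_neg]
    intro t' ht' hn
    exact (h.mono ht').not_and_neg hn

theorem Dec.iff {φ ψ : Fml n} {s : Fin n → HSN S} {t : P} {b c : Bool} (h : Dec φ s t b)
    (h' : Dec ψ s t c) : Dec (.iff φ ψ) s t (b == c) := by
  cases b <;> cases c
  · change Frc S (.neg φ) s t at h
    change Frc S (.neg ψ) s t at h'
    change Frc S (.iff φ ψ) s t
    rw [Frc_iff]
    intro t' ht'
    exact ⟨fun hf => (hf.not_and_neg (h.mono ht')).elim, fun hf => (hf.not_and_neg (h'.mono ht')).elim⟩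
  · change Frc S (.neg φ) s t at h
    change Frc S ψ s t at h'
    change Frc S (.neg (.iff φ ψ)) s t
    rw [Frc_neg]
    intro t' ht' hf
    rw [Frc_iff] at hf
    exact ((hf t' le_rfl).2 (h'.mono ht')).not_and_neg (h.mono ht')
  · change Frc S φ s t at h
    change Frc S (.neg ψ) s t at h'
    change Frc S (.neg (.iff φ ψ)) s t
    rw [Frc_neg]
    intro t' ht' hf
    rw [Frc_iff] at hf
    exact ((hf t' le_rfl).1 (h.mono ht')).not_and_neg (h'.mono ht')
  · change Frc S φ s t at h
    change Frc S ψ s t at h'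
    change Frc S (.iff φ ψ) s t
    rw [Frc_iff]
    intro t' ht'
    exact ⟨fun _ => h'.mono ht', fun _ => h.mono ht'⟩

theorem Dec.sum {f x y z : Fin n} {s : Fin n → HSN S} {t : P} {a b c : Bool}
    (ha : Dec (.cVal f x) s t a) (hb : Dec (.cVal f y) s t b) (hc : Dec (.cVal f z) s t c) :
    Dec (.cSum f x y z) s t (xor a (xor b c)) := by
  have := (ha.iff (hb.iff hc).neg).neg
  unfold Fml.cSum
  convert this using 1
  cases a <;> cases b <;> cases c <;> rfl

end Gen

theorem mem_setA (v : V) (r : Cond) : Nm.Mem (realN v).1 setA.1 r :=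
  Nm.mem_el (Nm.mk V (fun i => (realN i).val) fun _ => ⊤) v le_top

theorem mem_relR0 (u v : V) (r : Cond) :
    Nm.Mem (pairN (pairN (realN u) (realN v)) (realN (u + v))).1 relR0.1 r :=
  Nm.mem_el (Nm.mk (V × V) (fun w => (pairN (pairN (realN w.1) (realN w.2))
      (realN (w.1 + w.2))).val) fun _ => ⊤) (u, v) le_top

theorem mem_relR1 (r : Cond) :
    Nm.Mem (pairN (pairN (realN e0) (realN e0)) (realN e0)).1 relR1.1 r := by
  unfold relR1
  rw [mem_upair_self]
  exact Nm.Eqv.refl _ _

theorem LinRel_proof : Stmt_LinRel := by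
  intro n i j s r hj hi
  have main : ∀ (p : HSN CS) (t : Cond) (u v w : V),
      Nm.Eqv p.1 (pairN (pairN (realN u) (realN v)) (realN w)).1 t →
      Frc CS (.ex (.ex (.ex (.ex (.and (.mem 3 j.succ.succ.succ.succ.succ)
      (.and (.mem 2 j.succ.succ.succ.succ.succ) (.and (.mem 1 j.succ.succ.succ.succ.succ)
        (.and (.cPair 0 3 2) (.cPair 4 0 1))))))))) (cns p s) t := by
    intro p t u v w he
    apply Frc_ex_intro (realN u)
    apply Frc_ex_intro (realN v)
    apply Frc_ex_intro (realN w)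
    apply Frc_ex_intro (pairN (realN u) (realN v))
    simp only [Frc_and, Frc_mem, frc_cPair_iff, cns_zero, cns_one, cns_two, cns_three, cns_four,
      cns_succ, hj]
    exact ⟨mem_setA _ _, mem_setA _ _, mem_setA _ _, Nm.Eqv.refl _ _, he⟩
  unfold Fml.cRel3
  simp only [Frc_all, Frc_imp, Frc_mem, cns_zero, cns_succ]
  intro p t _ hm
  rcases hi with hi | hi
  · rw [hi] at hm
    apply Frc.local
    intro t' ht'
    obtain ⟨t'', ht'', w, _, he⟩ := hm t' ht'
    exact ⟨t'', ht'', main p t'' w.1 w.2 (w.1 + w.2) he⟩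
  · rw [hi, relR1, mem_upair_self] at hm
    exact main p t _ _ _ hm

theorem zmod2_cases (c : ZMod 2) : c = 0 ∨ c = 1 := by revert c; decide

theorem exists_not_mem (W : Submodule (ZMod 2) V) [FiniteDimensional (ZMod 2) W] :
    ∃ v : V, v ∉ W := by
  by_contra h
  push Not at h
  have hW : W = ⊤ := by
    ext v; exact ⟨fun _ => trivial, fun _ => h v⟩
  subst hW
  have h1 : Module.Finite (ZMod 2) V := Module.Finite.of_surjective
    (Submodule.subtype (⊤ : Submodule (ZMod 2) V)) (fun v => ⟨⟨v, trivial⟩, rfl⟩)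
  have h2 : _root_.Finite ℕ := Module.Finite.finite_basis
    (Finsupp.basisSingleOne : Module.Basis ℕ (ZMod 2) V)
  exact not_finite ℕ

theorem LinNo_proof (hGP : Stmt_GP) (hTR : Stmt_TR) : Stmt_LinNo := by
  intro n h i j k s r hi hj hk hF
  unfold Fml.cHomLin at hF
  rw [Frc_and, Frc_and] at hF
  obtain ⟨_, hF0, hF1⟩ := hF
  set f : HSN CS := s h with hf
  -- values
  have A0 : ∀ (u v : V) (t : Cond), t ≤ r → ∀ a b c : Bool,
      Dec (.cVal 0 1) (cns f (cns (realN u) Fin.elim0)) t a →
      Dec (.cVal 0 1) (cns f (cns (realN v) Fin.elim0)) t b →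
      Dec (.cVal 0 1) (cns f (cns (realN (u + v)) Fin.elim0)) t c → xor a (xor b c) = false := by
    intro u v t ht a b c ha hb hc
    simp only [Frc_all] at hF0
    have h1 := hF0 (realN u) (realN v) (realN (u + v))
    simp only [Frc_imp, Frc_mem, frc_cIn3_iff, cns_zero, cns_one, cns_two, cns_succ, hi, hj] at h1
    have h2 := h1 t ht (mem_setA _ _) t le_rfl (mem_setA _ _) t le_rfl (mem_setA _ _) t le_rfl
      (mem_relR0 u v t)
    set s' : Fin (n + 3) → HSN CS := cns (realN (u + v)) (cns (realN v) (cns (realN u) s)) with hs'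
    have d1 : Dec (.cVal h.succ.succ.succ 2) s' t a := by
      cases a <;> simp only [Dec, Bool.false_eq_true, if_false, if_true, Frc_neg, frc_cVal_iff,
        cns_zero, cns_one] at ha ⊢ <;> exact ha
    have d2 : Dec (.cVal h.succ.succ.succ 1) s' t b := by
      cases b <;> simp only [Dec, Bool.false_eq_true, if_false, if_true, Frc_neg, frc_cVal_iff,
        cns_zero, cns_one] at hb ⊢ <;> exact hb
    have d3 : Dec (.cVal h.succ.succ.succ 0) s' t c := by
      cases c <;> simp only [Dec, Bool.false_eq_true, if_false, if_true, Frc_neg, frc_cVal_iff,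
        cns_zero, cns_one] at hc ⊢ <;> exact hc
    have d4 := Dec.sum d1 d2 d3
    have d5 : Dec (.cSum h.succ.succ.succ 2 1 0) s' t false := h2
    exact d4.unique d5
  have A1 : ∀ (t : Cond), t ≤ r → ∀ a : Bool,
      Dec (.cVal 0 1) (cns f (cns (realN e0) Fin.elim0)) t a → a = true := by
    intro t ht a ha
    simp only [Frc_all] at hF1
    have h1 := hF1 (realN e0) (realN e0) (realN e0)
    simp only [Frc_imp, Frc_mem, frc_cIn3_iff, cns_zero, cns_one, cns_two, cns_succ, hi, hk] at h1
    have h2 := h1 t ht (mem_setA _ _) t le_rfl (mem_setA _ _) t le_rfl (mem_setA _ _) t le_rfl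
      (mem_relR1 t)
    set s' : Fin (n + 3) → HSN CS := cns (realN e0) (cns (realN e0) (cns (realN e0) s)) with hs'
    have d1 : Dec (.cVal h.succ.succ.succ 2) s' t a := by
      cases a <;> simp only [Dec, Bool.false_eq_true, if_false, if_true, Frc_neg, frc_cVal_iff,
        cns_zero, cns_one] at ha ⊢ <;> exact ha
    have d2 : Dec (.cVal h.succ.succ.succ 1) s' t a := by
      cases a <;> simp only [Dec, Bool.false_eq_true, if_false, if_true, Frc_neg, frc_cVal_iff,
        cns_zero, cns_one] at ha ⊢ <;> exact ha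
    have d3 : Dec (.cVal h.succ.succ.succ 0) s' t a := by
      cases a <;> simp only [Dec, Bool.false_eq_true, if_false, if_true, Frc_neg, frc_cVal_iff,
        cns_zero, cns_one] at ha ⊢ <;> exact ha
    have d4 := Dec.sum d1 d2 d3
    have d5 : Dec (.cSum h.succ.succ.succ 2 1 0) s' t true := h2
    have := d4.unique d5
    cases a
    · simp at this
    · rfl
  -- the support
  obtain ⟨H, ⟨D, hDf, hDH⟩, hfix⟩ := f.exists_fix
  set W : Submodule (ZMod 2) V := D ⊔ Submodule.span (ZMod 2) {e0} with hW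
  have hWfd : FiniteDimensional (ZMod 2) W := by rw [hW]; infer_instance
  have hWfix : ∀ g ∈ Fix W, Nm.Eqv (g • f).1 f.1 ⊤ := fun g hg =>
    hfix g (hDH (Fix_anti le_sup_left hg))
  have he0 : e0 ∈ W := Submodule.mem_sup_right (Submodule.mem_span_singleton_self e0)
  have eqv1 : ∀ g ∈ Fix W, ∀ v t, Nm.Mem (pairN (realN v) (numN CS 1)).1 f.1 t →
      Nm.Mem (pairN (realN (g • v)) (numN CS 1)).1 f.1 (g • t) := by
    intro g hg v t hm
    have h1 := CS.mem_smul g hm
    rw [← HSN.smul_val, smul_pairN, smul_realN, smul_numN] at h1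
    exact h1.congr_right ((hWfix g hg).mono le_top)
  have claim : ∀ v, v ∉ W → ∀ r' ≤ r, ¬ Nm.Mem (pairN (realN v) (numN CS 1)).1 f.1 r' := by
    intro v hv r' hr' hm
    set S : Submodule (ZMod 2) V := W ⊔ Submodule.span (ZMod 2) {v} ⊔ r'.sp with hS
    have hSfd : FiniteDimensional (ZMod 2) S := by rw [hS]; infer_instance
    have hWS : W ≤ S := le_sup_left.trans le_sup_left
    have hvS : v ∈ S := le_sup_left (b := r'.sp)
      (Submodule.mem_sup_right (Submodule.mem_span_singleton_self v))
    have hrS : r'.sp ≤ S := le_sup_right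
    obtain ⟨g, hgF, hgI⟩ := hGP W S S inferInstance inferInstance hWS
    have hgv : g • v ∉ S := by
      intro hc
      have h1 : g • v ∈ W := hgI ⟨smul_mem_mv hvS, hc⟩
      have h2 := (Fix W).inv_mem hgF _ h1
      rw [inv_smul_smul] at h2
      exact hv (h2 ▸ h1)
    have hv2 : v ∉ W ⊔ Submodule.span (ZMod 2) {g • v} := by
      intro hc
      obtain ⟨w, hw, y, hy, hwy⟩ := Submodule.mem_sup.1 hc
      obtain ⟨c, rfl⟩ := Submodule.mem_span_singleton.1 hy
      have hcc : c = 0 ∨ c = 1 := zmod2_cases c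
      rcases hcc with rfl | rfl
      · rw [zero_smul, add_zero] at hwy
        exact hv (hwy ▸ hw)
      · rw [one_smul] at hwy
        apply hgv
        have : g • v = v - w := eq_sub_of_add_eq' hwy
        rw [this]; exact S.sub_mem hvS (hWS hw)
    obtain ⟨h0, h0F, h0v⟩ := hTR W v (g • v) hv2
    obtain ⟨k', hkF, hkI⟩ := hGP (mv h0 (W ⊔ Submodule.span (ZMod 2) {v})) (mv h0 S) (S ⊔ mv g S)
      inferInstance inferInstance (mv_mono h0 le_sup_left)
    set t : GLV := k' * h0 with ht
    have ht1 : ∀ x ∈ W ⊔ Submodule.span (ZMod 2) {v}, t • x = h0 • x := by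
      intro x hx
      rw [ht, mul_smul, hkF _ (smul_mem_mv hx)]
    have htW : t ∈ Fix W := fun w hw => by
      rw [ht1 w (le_sup_left (a := W) hw), h0F w hw]
    have htv : t • v = v + g • v := by
      rw [ht1 v (Submodule.mem_sup_right (Submodule.mem_span_singleton_self v)), h0v]
    have key : ∀ x, x ∈ mv t S → x ∈ S ⊔ mv g S → ∃ w ∈ W, x = w ∨ x = w + (v + g • v) := by
      intro x hx hx'
      have h1 : x ∈ mv h0 (W ⊔ Submodule.span (ZMod 2) {v}) := hkI ⟨by
        rw [ht, mv_mul] at hx; exact hx, hx'⟩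
      rw [mem_mv] at h1
      obtain ⟨w, hw, y, hy, hwy⟩ := Submodule.mem_sup.1 h1
      obtain ⟨c, rfl⟩ := Submodule.mem_span_singleton.1 hy
      have hx2 : x = h0 • (w + c • v) := by rw [hwy, smul_inv_smul]
      refine ⟨w, hw, ?_⟩
      have hcc : c = 0 ∨ c = 1 := zmod2_cases c
      rcases hcc with rfl | rfl
      · left; rw [hx2, zero_smul, add_zero, h0F w hw]
      · right; rw [hx2, one_smul, smul_add, h0F w hw, h0v]
    have hWg : ∀ w ∈ W, w ∈ mv g S := fun w hw => by
      have := smul_mem_mv (g := g) (hWS hw)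
      rwa [hgF w hw] at this
    have c1 : Cond.Compat r' (g • r') := by
      refine compat_of (w := 1) (by rw [one_smul]) fun x hx hx' => ?_
      have : x ∈ W := hgI ⟨by rw [SetLike.mem_coe, mem_mv]; exact hrS hx', hrS hx⟩
      rw [(Fix W).inv_mem hgF x this, inv_one, one_smul]
    have c2 : Cond.Compat r' (t • r') := by
      refine compat_of (w := 1) (by rw [one_smul]) fun x hx hx' => ?_
      obtain ⟨w, hw, hxw⟩ := key x (by rw [mem_mv]; exact hrS hx')
        (le_sup_left (a := S) (hrS hx))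
      have hxW : x ∈ W := by
        rcases hxw with rfl | hxw
        · exact hw
        · exfalso
          apply hgv
          have : g • v = x - w - v := by rw [hxw]; abel
          rw [this]; exact S.sub_mem (S.sub_mem (hrS hx) (hWS hw)) hvS
      rw [(Fix W).inv_mem htW x hxW, inv_one, one_smul]
    have c3 : Cond.Compat (g • r') (t • r') := by
      refine compat_of (w := g) le_rfl fun x hx hx' => ?_
      have hxg : x ∈ mv g S := by rw [mem_mv]; exact hrS (sp_smul_le hx)
      obtain ⟨w, hw, hxw⟩ := key x (by rw [mem_mv]; exact hrS hx')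
        (le_sup_right (b := mv g S) hxg)
      have hxW : x ∈ W := by
        rcases hxw with rfl | hxw
        · exact hw
        · exfalso
          apply hv
          have h1 : v ∈ mv g S := by
            have : v = x - w - g • v := by rw [hxw]; abel
            rw [this]
            exact Submodule.sub_mem _ (Submodule.sub_mem _ hxg (hWg w hw)) (smul_mem_mv hvS)
          exact hgI ⟨h1, hvS⟩
      rw [(Fix W).inv_mem htW x hxW, (Fix W).inv_mem hgF x hxW]
    set j1 := Cond.join (g • r') (t • r') c3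
    have cj : Cond.Compat r' j1 := Cond.Compat.join_right c3 c1 c2
    set r'' := Cond.join r' j1 cj
    have l0 : r'' ≤ r' := Cond.join_le_left _ _ _
    have l1 : r'' ≤ j1 := Cond.join_le_right _ _ _
    have lg : r'' ≤ g • r' := l1.trans (Cond.join_le_left _ _ _)
    have lt : r'' ≤ t • r' := l1.trans (Cond.join_le_right _ _ _)
    have v1 : Dec (.cVal 0 1) (cns f (cns (realN v) Fin.elim0)) r'' true := by
      simp only [Dec, if_true, frc_cVal_iff, cns_zero, cns_one]
      exact hm.mono l0
    have v2 : Dec (.cVal 0 1) (cns f (cns (realN (g • v)) Fin.elim0)) r'' true := by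
      simp only [Dec, if_true, frc_cVal_iff, cns_zero, cns_one]
      exact (eqv1 g hgF v r' hm).mono lg
    have v3 : Dec (.cVal 0 1) (cns f (cns (realN (v + g • v)) Fin.elim0)) r'' true := by
      simp only [Dec, if_true, frc_cVal_iff, cns_zero, cns_one]
      rw [← htv]
      exact (eqv1 t htW v r' hm).mono lt
    have := A0 v (g • v) r'' (l0.trans hr') true true true v1 v2 v3
    simp at this
  obtain ⟨v, hv⟩ := exists_not_mem W
  have hv' : v + e0 ∉ W := by
    intro hc
    apply hv
    have : v = (v + e0) - e0 := by abel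
    rw [this]; exact W.sub_mem hc he0
  obtain ⟨t, ht, b, hb⟩ := exists_dec (.cVal 0 1) (cns f (cns (realN e0) Fin.elim0)) r
  have hb1 := A1 t ht b hb
  have w1 : Dec (.cVal 0 1) (cns f (cns (realN v) Fin.elim0)) t false := by
    simp only [Dec, Bool.false_eq_true, if_false, Frc_neg, frc_cVal_iff, cns_zero, cns_one]
    exact fun t' ht' => claim v hv t' (ht'.trans ht)
  have w2 : Dec (.cVal 0 1) (cns f (cns (realN (v + e0)) Fin.elim0)) t false := by
    simp only [Dec, Bool.false_eq_true, if_false, Frc_neg, frc_cVal_iff, cns_zero, cns_one]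
    exact fun t' ht' => claim (v + e0) hv' t' (ht'.trans ht)
  have hsum : v + (v + e0) = e0 := by
    rw [← add_assoc, ← two_smul (ZMod 2) v]
    have : (2 : ZMod 2) = 0 := by decide
    rw [this, zero_smul, zero_add]
  have := A0 v (v + e0) t ht false false b w1 w2 (by rw [hsum]; exact hb)
  rw [hb1] at this
  simp at this

theorem Lin_proof (h1 : Stmt_LinRel) (h2 : Stmt_LinFin) (h3 : Stmt_LinNo) : Stmt_Lin := by
  intro s r
  rw [Frc_neg]
  intro r' _ hF
  unfold Fml.cLin at hF
  simp only [Frc_all] at hF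
  have h := hF setA relR0 relR1
  simp only [Frc_imp] at h
  set s' : Fin 3 → HSN CS := cns relR1 (cns relR0 (cns setA s)) with hs'
  have a1 : Frc CS (.cRel3 1 2) s' r' := h1 _ 1 2 s' r' rfl (Or.inl rfl)
  have a2 : Frc CS (.cRel3 0 2) s' r' := h1 _ 0 2 s' r' rfl (Or.inr rfl)
  have a3 : Frc CS (.cHypLin 2 1 0) s' r' := h2 _ 2 1 0 s' r' rfl rfl rfl
  have a4 := h r' le_rfl a1 r' le_rfl a2 r' le_rfl a3
  rw [Frc_ex] at a4
  obtain ⟨t, _, x, hx⟩ := a4 r' le_rfl
  exact h3 _ 0 3 2 1 (cns x s') t rfl rfl rfl hx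

end Pool.Agent.SymZF
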