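import Pool.Agent.SymZF.Iface

/-! Modules Sound and Model. -/

noncomputable section

namespace Pool.Agent.SymZF

/-- The structure given by a generic filter is a model of ZF. -/
theorem zf_of_truth {P G : Type} [PartialOrder P] [OrderTop P] [Group G] [MulAction G P]
    (S : SymSys P G) (hZ : FrcZF S) (e : ℕ → HSN S) (U : Set P) (hU : Gen S e U)
    (M : Type) (E : M → M → Prop) (q : ℕ → M) (hq : Function.Surjective q)
    (ht : ∀ (n : ℕ) (φ : Fml n) (s : Fin n → ℕ),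
        Sat E φ (fun i => q (s i)) ↔ ∃ p ∈ U, Frc S φ (fun i => e (s i)) p) : ZF E := by
  obtain ⟨p₀, hp₀⟩ := hU.nonempty
  have key : ∀ (n : ℕ) (φ : Fml n), (∀ s r, Frc S φ s r) → ∀ s, Sat E φ s := by
    intro n φ h s
    choose m hm using fun i => hq (s i)
    have h1 := (ht n φ m).2 ⟨p₀, hp₀, h _ _⟩
    have h2 : (fun i => q (m i)) = s := funext hm
    rwa [h2] at h1
  exact zf_of_sat (key _ _ hZ.ext) (key _ _ hZ.found) (key _ _ hZ.pairing) (key _ _ hZ.union)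
    (key _ _ hZ.power) (key _ _ hZ.inf) (fun n φ => key _ _ (hZ.sep n φ))
    (fun n φ => key _ _ (hZ.repl n φ))

theorem Sound_proof (h1 : Stmt_WCx) (h2 : Stmt_Genx) (h3 : Stmt_Truth) : Stmt_Sound := by
  intro P G _ _ _ _ _ S hZ n φ hφ s r
  by_contra hn
  obtain ⟨r', hr', hneg⟩ := Frc.exists_neg hn
  obtain ⟨e, he, hwc⟩ := h1 P G S (fun k => if h : k < n then s ⟨k, h⟩ else emptyN S)
  obtain ⟨U, hU, hrU⟩ := h2 P G S e hwc r'
  obtain ⟨M, E, q, hq, ht⟩ := h3 P G S e U hU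
  have hzf := zf_of_truth S hZ e U hU M E q hq ht
  choose m hm using fun i : Fin n => he i.1
  have hm' : (fun i => e (m i)) = s := by
    funext i
    rw [hm i, dif_pos i.2]
  have h4 := hφ M E hzf (fun i => q (m i))
  obtain ⟨p, hp, hf⟩ := (ht n φ m).1 h4
  rw [hm'] at hf
  obtain ⟨t, _, ht1, ht2⟩ := hU.dir p hp r' hrU
  exact (hf.mono ht1).not_and_neg (hneg.mono ht2)

theorem Model_proof (h1 : Stmt_WCx) (h2 : Stmt_Genx) (h3 : Stmt_Truth) : Stmt_Model := by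
  intro P G _ _ _ _ _ S hZ
  obtain ⟨e, he, hwc⟩ := h1 P G S (fun _ => emptyN S)
  obtain ⟨U, hU, hrU⟩ := h2 P G S e hwc ⊤
  obtain ⟨M, E, q, hq, ht⟩ := h3 P G S e U hU
  refine ⟨M, E, zf_of_truth S hZ e U hU M E q hq ht, ?_⟩
  intro n φ h s
  choose m hm using fun i => hq (s i)
  have h1 := (ht n φ m).2 ⟨⊤, hrU, h _ _⟩
  have h2 : (fun i => q (m i)) = s := funext hm
  rwa [h2] at h1

/-- Final assembly. -/
theorem Final_of (hZ : FrcZF CS) (hM : Stmt_Model) (hK : Stmt_K2) (hL : Stmt_Lin) :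
    Stmt_Final := by
  obtain ⟨M, E, hzf, h⟩ := hM Cond GLV CS hZ
  refine ⟨M, E, hzf, ?_, ?_⟩
  · have := h 0 .cK2 hK Fin.elim0
    rwa [Sat_cK2] at this
  · have := h 0 (.neg .cLin) hL Fin.elim0
    rwa [Sat_neg, Sat_cLin] at this

end Pool.Agent.SymZF
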