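import Pool.Agent.SymZF.Iface

namespace Pool.Agent.SymZF

/-- Module TR. -/
theorem TR_proof : Stmt_TR := by
  intro W v w hv
  obtain ⟨f, hf, hf'⟩ := Submodule.exists_dual_map_eq_bot_of_notMem hv inferInstance
  have hz : ∀ x ∈ W ⊔ Submodule.span (ZMod 2) {w}, f x = 0 := by
    intro x hx
    have : f x ∈ (W ⊔ Submodule.span (ZMod 2) {w}).map f := Submodule.mem_map_of_mem hx
    rw [hf'] at this
    simpa using this
  have hw : f w = 0 := hz w (Submodule.mem_sup_right (Submodule.mem_span_singleton_self w))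
  have hfv : f v = 1 := by
    have h2 : ∀ c : ZMod 2, c ≠ 0 → c = 1 := by decide
    exact h2 _ hf
  let h : V →ₗ[ZMod 2] V := LinearMap.id + (LinearMap.toSpanSingleton (ZMod 2) V w).comp f
  have hh : ∀ x, h x = x + f x • w := fun x => rfl
  have hinv : ∀ x, h (h x) = x := by
    intro x
    rw [hh (h x), hh x, map_add, map_smul, hw, smul_zero, add_zero, add_assoc, ← add_smul]
    have : f x + f x = 0 := CharTwo.add_self_eq_zero _
    rw [this, zero_smul, add_zero]
  have hc : h.comp h = LinearMap.id := LinearMap.ext hinv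
  refine ⟨LinearEquiv.ofLinearMap h h hc hc, ?_, ?_⟩
  · intro x hx
    show h x = x
    rw [hh, hz x (Submodule.mem_sup_left hx), zero_smul, add_zero]
  · show h v = v + w
    rw [hh, hfv, one_smul]

end Pool.Agent.SymZF
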