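import Pool.Agent.SymZF.LS

/-! Module Trip. -/

noncomputable section

namespace Pool.Agent.SymZF

namespace TripAux

variable {E₀ : Submodule (ZMod 2) V} {X : Type 1} [MulAction GLV X]

theorem finrank_mv (g : GLV) (D : Submodule (ZMod 2) V) :
    Module.finrank (ZMod 2) (mv g D) = Module.finrank (ZMod 2) D :=
  LinearEquiv.finrank_map_eq g D

theorem le_mv_of_Fix {g : GLV} (hg : g ∈ Fix E₀) {D : Submodule (ZMod 2) V} (h : E₀ ≤ D) :
    E₀ ≤ mv g D := by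
  have := mv_mono g h
  rwa [mv_of_Fix hg] at this

/-- translation of supports -/
theorem Inv.translate {Θ : Cond → X → X → Prop} (hΘ : ERel E₀ Θ) {x : X} {q : Cond}
    {D : Submodule (ZMod 2) V} (hi : Inv Θ x q D) {g : GLV} (hg : g ∈ Fix E₀) :
    Inv Θ (g • x) (g • q) (mv g D) := by
  intro k hk r hr hr'
  have hk' : g⁻¹ * (k * g) ∈ Fix D := by
    intro v hv
    have := hk (g • v) (smul_mem_mv hv)
    rw [mul_smul, mul_smul, this, inv_smul_smul]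
  have := hi.move hΘ hg hk' hr (by rw [mul_smul]; exact hr')
  rwa [mul_smul] at this

/-- transport of supports -/
theorem Inv.transport {Θ : Cond → X → X → Prop} (hΘ : ERel E₀ Θ) {x y : X} {q q' : Cond}
    {D : Submodule (ZMod 2) V} (hi : Inv Θ x q D) (hD : E₀ ≤ D) (hq : q' ≤ q)
    (hxy : Θ q' x y) : Inv Θ y q' D := by
  intro g hg r hr hr'
  have h1 : Θ r (g • x) x := hi g hg r (hr.trans hq) (hr'.trans (Cond.smul_mono g _ _ hq))
  have h2 : Θ r x y := hΘ.mono _ _ _ _ hxy hr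
  have h3 : Θ r (g • x) (g • y) := hΘ.mono _ _ _ _ (hΘ.equiv g (Fix_anti hD hg) _ _ _ hxy) hr'
  exact hΘ.trans _ _ _ _ (hΘ.symm _ _ _ h3) (hΘ.trans _ _ _ _ h1 h2)

theorem Inv.mono {Θ : Cond → X → X → Prop} {x : X} {q q' : Cond}
    {D : Submodule (ZMod 2) V} (hi : Inv Θ x q D) (hq : q' ≤ q) : Inv Θ x q' D :=
  fun g hg r hr hr' => hi g hg r (hr.trans hq) (hr'.trans (Cond.smul_mono g _ _ hq))

/-- a new pair of values separating `v` and `w` -/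
theorem exists_sep (q : Cond) (v w : V) (hvw : v ≠ w) :
    ∃ q' ≤ q, ∃ n, (v, n, true) ∈ q'.1 ∧ (w, n, false) ∈ q'.1 := by
  classical
  set n := q.1.sup (fun x => x.2.1) + 1 with hn
  have hfresh : ∀ u b, (u, n, b) ∉ q.1 := by
    intro u b h
    have : n ≤ q.1.sup (fun x => x.2.1) := Finset.le_sup (f := fun x : V × ℕ × Bool => x.2.1) h
    omega
  have c1 : Cond.Compat q (Cond.sing v n true) := by
    intro u m b b' h h'
    rw [Cond.mem_sing] at h'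
    simp only [Prod.mk.injEq] at h'
    rw [h'.2.1] at h
    exact absurd h (hfresh _ _)
  set q1 := Cond.join q (Cond.sing v n true) c1 with hq1
  have c2 : Cond.Compat q1 (Cond.sing w n false) := by
    intro u m b b' h h'
    rw [Cond.mem_sing] at h'
    simp only [Prod.mk.injEq] at h'
    rw [hq1, Cond.mem_join, Cond.mem_sing] at h
    rcases h with h | h
    · rw [h'.2.1] at h
      exact absurd h (hfresh _ _)
    · simp only [Prod.mk.injEq] at h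
      exact absurd (h.1.symm.trans h'.1) hvw
  refine ⟨Cond.join q1 (Cond.sing w n false) c2, (Cond.join_le_left _ _ _).trans
    (Cond.join_le_left _ _ _), n, ?_, ?_⟩
  · rw [Cond.mem_join]; left
    rw [hq1, Cond.mem_join]; right
    rw [Cond.mem_sing]
  · rw [Cond.mem_join]; right
    rw [Cond.mem_sing]

/-- a condition separating all points of a finite dimensional space -/
theorem exists_sep_all (q : Cond) (D : Submodule (ZMod 2) V) (hD : FiniteDimensional (ZMod 2) D) :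
    ∃ q' ≤ q, ∀ v ∈ D, ∀ w ∈ D, v ≠ w →
      ∃ n, (v, n, true) ∈ q'.1 ∧ (w, n, false) ∈ q'.1 := by
  classical
  have hfin : Finite D := Module.finite_of_finite (ZMod 2)
  have hset : (D : Set V).Finite := Set.toFinite _
  have key : ∀ P : Finset (V × V), ∃ q' ≤ q, ∀ x ∈ P, x.1 ≠ x.2 →
      ∃ n, (x.1, n, true) ∈ q'.1 ∧ (x.2, n, false) ∈ q'.1 := by
    intro P
    induction P using Finset.induction_on with
    | empty => exact ⟨q, le_rfl, fun x hx => absurd hx (Finset.notMem_empty _)⟩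
    | insert a s _ ih =>
      obtain ⟨q1, hq1, h1⟩ := ih
      by_cases ha : a.1 = a.2
      · refine ⟨q1, hq1, fun x hx hne => ?_⟩
        rcases Finset.mem_insert.1 hx with rfl | hx
        · exact absurd ha hne
        · exact h1 x hx hne
      · obtain ⟨q2, hq2, n, hn1, hn2⟩ := exists_sep q1 a.1 a.2 ha
        refine ⟨q2, hq2.trans hq1, fun x hx hne => ?_⟩
        rcases Finset.mem_insert.1 hx with rfl | hx
        · exact ⟨n, hn1, hn2⟩
        · obtain ⟨k, hk1, hk2⟩ := h1 x hx hne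
          exact ⟨k, hq2 hk1, hq2 hk2⟩
  obtain ⟨q', hq', h⟩ := key (hset.toFinset ×ˢ hset.toFinset)
  refine ⟨q', hq', fun v hv w hw hne => ?_⟩
  exact h (v, w) (Finset.mem_product.2 ⟨hset.mem_toFinset.2 hv, hset.mem_toFinset.2 hw⟩) hne

/-- densely connected -/
def Psi (Φ : Bool → Cond → X → X → Prop) (r : Cond) (x y : X) : Prop :=
  ∀ r' ≤ r, ∃ t ≤ r', ∃ b, Φ b t x y

theorem erel_false {Φ : Bool → Cond → X → X → Prop} (h : PRel E₀ Φ) : ERel E₀ (Φ false) where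
  mono := h.mono false
  loc := h.loc false
  equiv := fun g hg => h.equiv g hg false
  symm := h.symm false
  trans := fun r x y z h1 h2 => by
    have := h.trans false false r x y z h1 h2
    simpa using this

theorem erel_psi {Φ : Bool → Cond → X → X → Prop} (h : PRel E₀ Φ) : ERel E₀ (Psi Φ) where
  mono := fun r r' x y h1 hr r'' hr'' => h1 r'' (hr''.trans hr)
  loc := fun r x y h1 r' hr' => by
    obtain ⟨t, ht, h2⟩ := h1 r' hr'
    obtain ⟨t', ht', b, h3⟩ := h2 t le_rfl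
    exact ⟨t', ht'.trans ht, b, h3⟩
  equiv := fun g hg r x y h1 r' hr' => by
    obtain ⟨t, ht, b, h2⟩ := h1 (g⁻¹ • r') (by
      have := Cond.smul_mono g⁻¹ _ _ hr'
      rwa [inv_smul_smul] at this)
    refine ⟨g • t, ?_, b, h.equiv g hg b _ _ _ h2⟩
    have := Cond.smul_mono g _ _ ht
    rwa [smul_inv_smul] at this
  symm := fun r x y h1 r' hr' => by
    obtain ⟨t, ht, b, h2⟩ := h1 r' hr'
    exact ⟨t, ht, b, h.symm b _ _ _ h2⟩
  trans := fun r x y z h1 h2 r' hr' => by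
    obtain ⟨t, ht, b, h3⟩ := h1 r' hr'
    obtain ⟨t', ht', b', h4⟩ := h2 t (ht.trans hr')
    exact ⟨t', ht'.trans ht, _, h.trans b b' _ _ _ _ (h.mono _ _ _ _ _ h3 ht') h4⟩

theorem psi_of {Φ : Bool → Cond → X → X → Prop} (h : PRel E₀ Φ) {b : Bool} {r : Cond} {x y : X}
    (h1 : Φ b r x y) : Psi Φ r x y := fun r' hr' => ⟨r', le_rfl, b, h.mono _ _ _ _ _ h1 hr'⟩

end TripAux

open TripAux

theorem Trip_proof (hLS : Stmt_LS) (hGP : Stmt_GP) : Stmt_Trip := by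
  classical
  intro E₀ hE₀ X _ Φ hΦ x₀ q₀ hx₀
  have hF := erel_false hΦ
  have hΨ := erel_psi hΦ
  obtain ⟨D₀, fd₀, hD₀⟩ := hΦ.cont x₀
  have hinv0 : Inv (Φ false) x₀ q₀ (D₀ ⊔ E₀) := by
    intro g hg r hr _
    exact hD₀ g (Fix_anti le_sup_left hg) r (hΦ.mono _ _ _ _ _ hx₀ hr)
  -- first minimal choice
  obtain ⟨n₁, ⟨q₁, D₁, fd₁, hE₁, hq₁, hI₁, hn₁⟩, hmin₁⟩ : ∃ n : ℕ, (∃ (q : Cond)
      (D : Submodule (ZMod 2) V), FiniteDimensional (ZMod 2) D ∧ E₀ ≤ D ∧ q ≤ q₀ ∧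
      Inv (Psi Φ) x₀ q D ∧ Module.finrank (ZMod 2) D = n) ∧ ∀ m < n, ¬ (∃ (q : Cond)
      (D : Submodule (ZMod 2) V), FiniteDimensional (ZMod 2) D ∧ E₀ ≤ D ∧ q ≤ q₀ ∧
      Inv (Psi Φ) x₀ q D ∧ Module.finrank (ZMod 2) D = m) := by
    have hex : ∃ n : ℕ, (∃ (q : Cond)
      (D : Submodule (ZMod 2) V), FiniteDimensional (ZMod 2) D ∧ E₀ ≤ D ∧ q ≤ q₀ ∧
      Inv (Psi Φ) x₀ q D ∧ Module.finrank (ZMod 2) D = n) :=
      ⟨_, q₀, D₀ ⊔ E₀, inferInstance, le_sup_right, le_rfl,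
        fun g hg r hr hr' => psi_of hΦ (hinv0 g hg r hr hr'), rfl⟩
    exact ⟨Nat.find hex, Nat.find_spec hex, fun m hm => Nat.find_min hex hm⟩
  -- second minimal choice
  obtain ⟨n₂, ⟨x₂, q₂, D₂, fd₂, hE₂, hq₂, hc₂, hI₂, hn₂⟩, hmin₂⟩ : ∃ n : ℕ, (∃ (x : X) (q : Cond)
      (D : Submodule (ZMod 2) V), FiniteDimensional (ZMod 2) D ∧ E₀ ≤ D ∧ q ≤ q₁ ∧
      Psi Φ q x₀ x ∧ Inv (Φ false) x q D ∧ Module.finrank (ZMod 2) D = n) ∧
      ∀ m < n, ¬ (∃ (x : X) (q : Cond)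
      (D : Submodule (ZMod 2) V), FiniteDimensional (ZMod 2) D ∧ E₀ ≤ D ∧ q ≤ q₁ ∧
      Psi Φ q x₀ x ∧ Inv (Φ false) x q D ∧ Module.finrank (ZMod 2) D = m) := by
    have hex : ∃ n : ℕ, (∃ (x : X) (q : Cond)
      (D : Submodule (ZMod 2) V), FiniteDimensional (ZMod 2) D ∧ E₀ ≤ D ∧ q ≤ q₁ ∧
      Psi Φ q x₀ x ∧ Inv (Φ false) x q D ∧ Module.finrank (ZMod 2) D = n) :=
      ⟨_, x₀, q₁, D₀ ⊔ E₀, inferInstance, le_sup_right, le_rfl,
        psi_of hΦ (hΦ.mono _ _ _ _ _ hx₀ hq₁), Inv.mono hinv0 hq₁, rfl⟩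
    exact ⟨Nat.find hex, Nat.find_spec hex, fun m hm => Nat.find_min hex hm⟩
  have min₁ : ∀ (q : Cond) (D : Submodule (ZMod 2) V), FiniteDimensional (ZMod 2) D → E₀ ≤ D →
      q ≤ q₀ → Inv (Psi Φ) x₀ q D → Module.finrank (ZMod 2) D₁ ≤ Module.finrank (ZMod 2) D := by
    intro q D fd hE hq hI
    by_contra hlt
    exact hmin₁ _ (by rw [← hn₁]; omega) ⟨q, D, fd, hE, hq, hI, rfl⟩
  have min₂ : ∀ (x : X) (q : Cond) (D : Submodule (ZMod 2) V), FiniteDimensional (ZMod 2) D →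
      E₀ ≤ D → q ≤ q₁ → Psi Φ q x₀ x → Inv (Φ false) x q D →
      Module.finrank (ZMod 2) D₂ ≤ Module.finrank (ZMod 2) D := by
    intro x q D fd hE hq hc hI
    by_contra hlt
    exact hmin₂ _ (by rw [← hn₂]; omega) ⟨x, q, D, fd, hE, hq, hc, hI, rfl⟩
  obtain ⟨q₃, hq₃, hsep⟩ := exists_sep_all q₂ D₁ fd₁
  -- Claim 1
  have claim1 : D₂ ≤ D₁ := by
    by_contra hnot
    have hlt : Module.finrank (ZMod 2) (D₂ ⊓ D₁ : Submodule (ZMod 2) V) <
        Module.finrank (ZMod 2) D₂ :=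
      Submodule.finrank_lt_finrank_of_lt (lt_of_le_of_ne inf_le_left
        (fun h => hnot (inf_eq_left.1 h)))
    set S : Submodule (ZMod 2) V := D₁ ⊔ D₂ ⊔ q₂.sp with hS
    have hS1 : D₁ ≤ S := le_sup_left.trans le_sup_left
    have hS2 : D₂ ≤ S := le_sup_right.trans le_sup_left
    have hS0 : q₂.sp ≤ S := le_sup_right
    have fdS : FiniteDimensional (ZMod 2) S := by rw [hS]; infer_instance
    obtain ⟨h₁, h₁F, h₁I⟩ := hGP D₁ S S fdS fdS hS1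
    obtain ⟨h₂, h₂F, h₂I⟩ := hGP D₁ S (S ⊔ mv h₁ S) fdS inferInstance hS1
    have c1 : Cond.Compat q₂ (h₁ • q₂) := by
      refine compat_of (w := 1) (by rw [one_smul]) fun v hv hv' => ?_
      have : v ∈ D₁ := h₁I ⟨by rw [SetLike.mem_coe, mem_mv]; exact hS0 hv', hS0 hv⟩
      rw [(Fix D₁).inv_mem h₁F v this, inv_one, one_smul]
    have c2 : Cond.Compat q₂ (h₂ • q₂) := by
      refine compat_of (w := 1) (by rw [one_smul]) fun v hv hv' => ?_
      have : v ∈ D₁ := h₂I ⟨by rw [SetLike.mem_coe, mem_mv]; exact hS0 hv',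
        le_sup_left (a := S) (hS0 hv)⟩
      rw [(Fix D₁).inv_mem h₂F v this, inv_one, one_smul]
    have c3 : Cond.Compat (h₁ • q₂) (h₂ • q₂) := by
      refine compat_of (w := h₁) le_rfl fun v hv hv' => ?_
      have hv1 : v ∈ mv h₁ S := by rw [mem_mv]; exact hS0 (sp_smul_le hv)
      have : v ∈ D₁ := h₂I ⟨by rw [SetLike.mem_coe, mem_mv]; exact hS0 hv',
        le_sup_right (b := mv h₁ S) hv1⟩
      rw [(Fix D₁).inv_mem h₂F v this, (Fix D₁).inv_mem h₁F v this]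
    set j := Cond.join (h₁ • q₂) (h₂ • q₂) c3 with hj
    set ρ := Cond.join q₂ j (Cond.Compat.join_right c3 c1 c2) with hρ
    have l0 : ρ ≤ q₂ := Cond.join_le_left _ _ _
    have l1 : ρ ≤ h₁ • q₂ := (Cond.join_le_right _ _ _).trans (Cond.join_le_left _ _ _)
    have l2 : ρ ≤ h₂ • q₂ := (Cond.join_le_right _ _ _).trans (Cond.join_le_right _ _ _)
    have con : ∀ h ∈ Fix D₁, ρ ≤ h • q₂ → Psi Φ ρ x₂ (h • x₂) := by
      intro h hh hle
      have e1 : Psi Φ ρ x₀ x₂ := hΨ.mono _ _ _ _ hc₂ l0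
      have e2 : Psi Φ ρ (h • x₀) (h • x₂) :=
        hΨ.mono _ _ _ _ (hΨ.equiv h (Fix_anti hE₁ hh) _ _ _ hc₂) hle
      have e3 : Psi Φ ρ (h • x₀) x₀ := hI₁ h hh ρ (l0.trans hq₂)
        (hle.trans (Cond.smul_mono h _ _ hq₂))
      exact hΨ.trans _ _ _ _ (hΨ.symm _ _ _ e1) (hΨ.trans _ _ _ _ (hΨ.symm _ _ _ e3) e2)
    obtain ⟨t₁, ht₁, i, hi⟩ := con h₁ h₁F l1 ρ le_rfl
    obtain ⟨ρ', ht₂, k, hk⟩ := con h₂ h₂F l2 t₁ ht₁
    have hi' : Φ i ρ' x₂ (h₁ • x₂) := hΦ.mono _ _ _ _ _ hi ht₂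
    have lρ : ρ' ≤ ρ := ht₂.trans ht₁
    have hE1 : ∀ h ∈ Fix D₁, h ∈ Fix E₀ := fun h hh => Fix_anti hE₁ hh
    -- the case where `x₂ ~ h • x₂` with sign `false`
    have caseF : ∀ h ∈ Fix D₁, (∀ v, v ∈ mv h S → v ∈ S → v ∈ D₁) → ρ' ≤ h • q₂ →
        Φ false ρ' x₂ (h • x₂) → False := by
      intro h hh hint hle hfx
      have hI := hLS E₀ X (Φ false) hF x₂ (h • x₂) q₂ (h • q₂) ρ' D₂ (mv h D₂) fd₂ inferInstance
        hE₂ (le_mv_of_Fix (hE1 h hh) hE₂) hI₂ (Inv.translate hF hI₂ (hE1 h hh)) (lρ.trans l0) hle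
        hfx
      have h3 := min₂ x₂ ρ' (D₂ ⊓ mv h D₂) inferInstance
        (le_inf hE₂ (le_mv_of_Fix (hE1 h hh) hE₂)) (lρ.trans (l0.trans hq₂))
        (hΨ.mono _ _ _ _ hc₂ (lρ.trans l0)) hI
      have h4 : D₂ ⊓ mv h D₂ ≤ D₂ ⊓ D₁ := by
        rintro v ⟨hv1, hv2⟩
        exact ⟨hv1, hint v (mv_mono h hS2 hv2) (hS2 hv1)⟩
      have h5 := Submodule.finrank_mono h4
      omega
    cases i with
    | false =>
      exact caseF h₁ h₁F (fun v hv hv' => h₁I ⟨hv, hv'⟩) (lρ.trans l1) hi'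
    | true =>
      cases k with
      | false =>
        exact caseF h₂ h₂F (fun v hv hv' => h₂I ⟨hv, le_sup_left (a := S) hv'⟩) (lρ.trans l2) hk
      | true =>
        have h12 : Φ false ρ' (h₁ • x₂) (h₂ • x₂) := by
          have := hΦ.trans true true ρ' _ _ _ (hΦ.symm _ _ _ _ hi') hk
          simpa using this
        have hI := hLS E₀ X (Φ false) hF (h₁ • x₂) (h₂ • x₂) (h₁ • q₂) (h₂ • q₂) ρ' (mv h₁ D₂)
          (mv h₂ D₂) inferInstance inferInstance (le_mv_of_Fix (hE1 _ h₁F) hE₂)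
          (le_mv_of_Fix (hE1 _ h₂F) hE₂) (Inv.translate hF hI₂ (hE1 _ h₁F))
          (Inv.translate hF hI₂ (hE1 _ h₂F)) (lρ.trans l1) (lρ.trans l2) h12
        have hI' := Inv.translate hF hI ((Fix E₀).inv_mem (hE1 _ h₁F))
        rw [inv_smul_smul] at hI'
        have hle : h₁⁻¹ • ρ' ≤ q₂ := by
          have := Cond.smul_mono h₁⁻¹ _ _ (lρ.trans l1)
          rwa [inv_smul_smul] at this
        have h3 := min₂ x₂ (h₁⁻¹ • ρ') _ inferInstance
          (le_mv_of_Fix ((Fix E₀).inv_mem (hE1 _ h₁F))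
            (le_inf (le_mv_of_Fix (hE1 _ h₁F) hE₂) (le_mv_of_Fix (hE1 _ h₂F) hE₂)))
          (hle.trans hq₂) (hΨ.mono _ _ _ _ hc₂ hle) hI'
        rw [finrank_mv] at h3
        have h4 : mv h₁ D₂ ⊓ mv h₂ D₂ ≤ mv h₁ (D₂ ⊓ D₁) := by
          rintro v ⟨hv1, hv2⟩
          have hvD : v ∈ D₁ := h₂I ⟨mv_mono h₂ hS2 hv2,
            le_sup_right (b := mv h₁ S) (mv_mono h₁ hS2 hv1)⟩
          have hv1' : h₁⁻¹ • v ∈ D₂ := mem_mv.1 hv1
          rw [mem_mv]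
          refine ⟨hv1', ?_⟩
          rw [(Fix D₁).inv_mem h₁F v hvD]
          exact hvD
        have h5 := Submodule.finrank_mono h4
        rw [finrank_mv] at h5
        omega
  -- Claim 2
  refine ⟨x₂, q₃, hq₃.trans (hq₂.trans hq₁), ?_, ?_⟩
  · intro r hr
    exact hc₂ r (hr.trans hq₃)
  · intro g hg r hr hr' htrue
    have hr2 : r ≤ q₂ := hr.trans hq₃
    have hr2' : r ≤ g • q₂ := hr'.trans (Cond.smul_mono g _ _ hq₃)
    have hIx₂ : Inv (Psi Φ) x₂ q₂ D₁ := Inv.transport hΨ hI₁ hE₁ hq₂ hc₂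
    have hI := hLS E₀ X (Psi Φ) hΨ x₂ (g • x₂) q₂ (g • q₂) r D₁ (mv g D₁) fd₁ inferInstance hE₁
      (le_mv_of_Fix hg hE₁) hIx₂ (Inv.translate hΨ hIx₂ hg) hr2 hr2' (psi_of hΦ htrue)
    have hEi : E₀ ≤ D₁ ⊓ mv g D₁ := le_inf hE₁ (le_mv_of_Fix hg hE₁)
    have hI' : Inv (Psi Φ) x₀ r (D₁ ⊓ mv g D₁) :=
      Inv.transport hΨ hI hEi le_rfl (hΨ.symm _ _ _ (hΨ.mono _ _ _ _ hc₂ hr2))
    have h1 := min₁ r (D₁ ⊓ mv g D₁) inferInstance hEi (hr2.trans (hq₂.trans hq₁)) hI'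
    have h2 : D₁ ⊓ mv g D₁ = D₁ := Submodule.eq_of_le_of_finrank_le inf_le_left h1
    have h3 : D₁ ≤ mv g D₁ := inf_eq_left.1 h2
    have h4 : D₁ = mv g D₁ := Submodule.eq_of_le_of_finrank_le h3 (by rw [finrank_mv])
    have hgF : g ∈ Fix D₁ := by
      intro v hv
      by_contra hne
      have hgv : g • v ∈ D₁ := by
        rw [h4]; exact smul_mem_mv hv
      obtain ⟨n, hn1, hn2⟩ := hsep v hv (g • v) hgv (fun h => hne h.symm)
      have e1 : (g • v, n, true) ∈ r.1 := hr' (Cond.apply_mem_smul g q₃ v _ hn1)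
      have e2 : (g • v, n, false) ∈ r.1 := hr hn2
      exact r.2 _ _ ⟨e1, e2⟩
    have h5 : Φ false r (g • x₂) x₂ := hI₂ g (Fix_anti claim1 hgF) r hr2 hr2'
    exact hΦ.excl r x₂ (g • x₂) ⟨hΦ.symm _ _ _ _ h5, htrue⟩

end Pool.Agent.SymZF
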