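import Pool.Agent.SymZF.Iface

/-!
The quotient structure of a generic filter and the truth lemma.
-/

namespace Pool.Agent.SymZF

section

variable {P G : Type} [PartialOrder P] [OrderTop P] [Group G] [MulAction G P]

theorem cns_comp_fun {α β : Type*} {n : ℕ} (f : α → β) (k : α) (s : Fin n → α) :
    (fun i => f (cns k s i)) = cns (f k) (fun i => f (s i)) := by
  funext i
  refine Fin.cases ?_ (fun j => ?_) i <;> rfl

theorem Gen.not_both {S : SymSys P G} {e : ℕ → HSN S} {U : Set P} (hU : Gen S e U) {n : ℕ}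
    {φ : Fml n} {s : Fin n → HSN S} {p q : P} (hp : p ∈ U) (hq : q ∈ U) (h : Frc S φ s p)
    (h' : Frc S (.neg φ) s q) : False := by
  obtain ⟨r, _, hrp, hrq⟩ := hU.dir p hp q hq
  exact (h.mono hrp).not_and_neg (h'.mono hrq)

/-- the equivalence relation of the quotient structure -/
def genSetoid (S : SymSys P G) (e : ℕ → HSN S) (U : Set P) (hU : Gen S e U) : Setoid ℕ where
  r a b := ∃ p ∈ U, Nm.Eqv (e a).1 (e b).1 p
  iseqv := by
    refine ⟨fun a => ?_, ?_, ?_⟩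
    · obtain ⟨p, hp⟩ := hU.nonempty
      exact ⟨p, hp, Nm.Eqv.refl _ _⟩
    · rintro a b ⟨p, hp, h⟩
      exact ⟨p, hp, h.symm⟩
    · rintro a b c ⟨p, hp, h⟩ ⟨q, hq, h'⟩
      obtain ⟨r, hr, hrp, hrq⟩ := hU.dir p hp q hq
      exact ⟨r, hr, (h.mono hrp).trans (h'.mono hrq)⟩

theorem Truth_proof : Stmt_Truth := by
  intro P G _ _ _ _ S e U hU
  let st := genSetoid S e U hU
  have hE : ∀ a b a' b' : ℕ, a ≈ a' → b ≈ b' →
      ((∃ p ∈ U, Nm.Mem (e a).1 (e b).1 p) = (∃ p ∈ U, Nm.Mem (e a').1 (e b').1 p)) := by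
    have key : ∀ a b a' b' : ℕ, a ≈ a' → b ≈ b' →
        (∃ p ∈ U, Nm.Mem (e a).1 (e b).1 p) → (∃ p ∈ U, Nm.Mem (e a').1 (e b').1 p) := by
      rintro a b a' b' ⟨p, hp, h⟩ ⟨q, hq, h'⟩ ⟨t, ht, hm⟩
      obtain ⟨r, hr, hrp, hrq⟩ := hU.dir p hp q hq
      obtain ⟨u, hu, hur, hut⟩ := hU.dir r hr t ht
      exact ⟨u, hu, ((hm.mono hut).congr_left (h.mono (hur.trans hrp))).congr_right
        (h'.mono (hur.trans hrq))⟩
    intro a b a' b' h h'
    exact propext ⟨key a b a' b' h h', key a' b' a b (Setoid.symm h) (Setoid.symm h')⟩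
  refine ⟨Quotient st, Quotient.lift₂ (fun a b => ∃ p ∈ U, Nm.Mem (e a).1 (e b).1 p) hE,
    Quotient.mk st, Quotient.mk_surjective, ?_⟩
  intro n φ
  induction φ with
  | mem i j =>
    intro s
    rw [Sat_mem]
    simp only [Frc_mem]
    exact Iff.rfl
  | eq i j =>
    intro s
    rw [Sat_eq]
    simp only [Frc_eq]
    exact Quotient.eq
  | neg φ ih =>
    intro s
    rw [Sat_neg, ih]
    constructor
    · intro h
      obtain ⟨p, hp, h1 | h1⟩ := hU.dec _ φ s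
      · exact absurd ⟨p, hp, h1⟩ h
      · exact ⟨p, hp, h1⟩
    · rintro ⟨p, hp, h⟩ ⟨q, hq, h'⟩
      exact hU.not_both hq hp h' h
  | and φ ψ ih ih' =>
    intro s
    rw [Sat_and, ih, ih']
    constructor
    · rintro ⟨⟨p, hp, h⟩, ⟨q, hq, h'⟩⟩
      obtain ⟨r, hr, hrp, hrq⟩ := hU.dir p hp q hq
      exact ⟨r, hr, by rw [Frc_and]; exact ⟨h.mono hrp, h'.mono hrq⟩⟩
    · rintro ⟨p, hp, h⟩
      rw [Frc_and] at h
      exact ⟨⟨p, hp, h.1⟩, ⟨p, hp, h.2⟩⟩
  | all φ ih =>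
    intro s
    rw [Sat_all]
    have hk : ∀ k : ℕ, Sat (Quotient.lift₂ (fun a b => ∃ p ∈ U, Nm.Mem (e a).1 (e b).1 p) hE) φ
        (cns (Quotient.mk st k) (fun i => Quotient.mk st (s i))) ↔
        ∃ p ∈ U, Frc S φ (cns (e k) (fun i => e (s i))) p := by
      intro k
      have h := ih (cns k s)
      rw [cns_comp_fun, cns_comp_fun] at h
      exact h
    constructor
    · intro h
      obtain ⟨p, hp, h1 | h1⟩ := hU.dec _ (.all φ) s
      · exact ⟨p, hp, h1⟩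
      · exfalso
        obtain ⟨k, q, hq, h2⟩ := hU.wit _ φ s ⟨p, hp, h1⟩
        obtain ⟨t, ht, h3⟩ := (hk k).1 (h _)
        exact hU.not_both ht hq h3 h2
    · rintro ⟨p, hp, h⟩ x
      obtain ⟨k, rfl⟩ := Quotient.mk_surjective x
      rw [Frc_all] at h
      exact (hk k).2 ⟨p, hp, h _⟩

end

end Pool.Agent.SymZF
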