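import Pool.Agent.SymZF.Iface

/-!
Existence of countable witness-closed enumerations of names.
-/

namespace Pool.Agent.SymZF

/-- a code for formulas -/
def Fml.code : {n : ℕ} → Fml n → ℕ
  | _, .mem i j => Nat.pair 0 (Nat.pair i.val j.val)
  | _, .eq i j => Nat.pair 1 (Nat.pair i.val j.val)
  | _, .neg φ => Nat.pair 2 (Fml.code φ)
  | _, .and φ ψ => Nat.pair 3 (Nat.pair (Fml.code φ) (Fml.code ψ))
  | _, .all φ => Nat.pair 4 (Fml.code φ)

theorem Fml.code_inj {n : ℕ} (φ : Fml n) : ∀ ψ : Fml n, φ.code = ψ.code → φ = ψ := by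
  induction φ with
  | mem i j =>
    intro ψ h
    cases ψ <;> simp only [Fml.code, Nat.pair_eq_pair] at h
    · obtain ⟨-, h1, h2⟩ := h
      rw [Fin.ext h1, Fin.ext h2]
    all_goals (exfalso; omega)
  | eq i j =>
    intro ψ h
    cases ψ <;> simp only [Fml.code, Nat.pair_eq_pair] at h
    · exfalso; omega
    · obtain ⟨-, h1, h2⟩ := h
      rw [Fin.ext h1, Fin.ext h2]
    all_goals (exfalso; omega)
  | neg φ ih =>
    intro ψ h
    cases ψ <;> simp only [Fml.code, Nat.pair_eq_pair] at h
    case neg φ' => rw [ih φ' h.2]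
    all_goals (exfalso; omega)
  | and φ ψ ih ih' =>
    intro χ h
    cases χ <;> simp only [Fml.code, Nat.pair_eq_pair] at h
    case and φ' ψ' => rw [ih φ' h.2.1, ih' ψ' h.2.2]
    all_goals (exfalso; omega)
  | all φ ih =>
    intro ψ h
    cases ψ <;> simp only [Fml.code, Nat.pair_eq_pair] at h
    case all φ' => rw [ih φ' h.2]
    all_goals (exfalso; omega)

instance (n : ℕ) : Countable (Fml n) :=
  Function.Injective.countable (f := Fml.code) (fun φ ψ h => φ.code_inj ψ h)

section

variable {P G : Type} [PartialOrder P] [OrderTop P] [Group G] [MulAction G P]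

open Classical in
/-- a choice of witnesses -/
noncomputable def witN (S : SymSys P G) (d : HSN S) (n : ℕ) (φ : Fml (n + 1))
    (s : Fin n → HSN S) (p : P) : HSN S :=
  if h : ∃ x, Frc S φ (cns x s) p then h.choose else d

theorem witN_spec (S : SymSys P G) (d : HSN S) (n : ℕ) (φ : Fml (n + 1))
    (s : Fin n → HSN S) (p : P) (h : ∃ x, Frc S φ (cns x s) p) :
    Frc S φ (cns (witN S d n φ s p) s) p := by
  rw [witN, dif_pos h]
  exact h.choose_spec

/-- adding all witnesses -/
def stepN (S : SymSys P G) (d : HSN S) (N : Set (HSN S)) : Set (HSN S) :=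
  N ∪ Set.range (fun t : (Σ n : ℕ, Fml (n + 1) × (Fin n → N) × P) =>
    witN S d t.1 t.2.1 (fun i => (t.2.2.1 i).1) t.2.2.2)

theorem stepN_countable [Countable P] (S : SymSys P G) (d : HSN S) (N : Set (HSN S))
    (hN : N.Countable) : (stepN S d N).Countable := by
  have : Countable N := hN.to_subtype
  exact hN.union (Set.countable_range _)

/-- the iteration -/
def itN (S : SymSys P G) (d : HSN S) (N : Set (HSN S)) : ℕ → Set (HSN S)
  | 0 => N
  | k + 1 => stepN S d (itN S d N k)

theorem itN_mono (S : SymSys P G) (d : HSN S) (N : Set (HSN S)) : Monotone (itN S d N) :=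
  monotone_nat_of_le_succ (fun _ => Set.subset_union_left)

theorem WCx_proof : Stmt_WCx := by
  intro P G _ _ _ _ _ S a
  have hcnt : ∀ k, (itN S (a 0) (Set.range a) k).Countable := by
    intro k
    induction k with
    | zero => exact Set.countable_range a
    | succ k ih => exact stepN_countable S (a 0) _ ih
  have hN : (⋃ k, itN S (a 0) (Set.range a) k).Countable := Set.countable_iUnion hcnt
  obtain ⟨e, he⟩ := hN.exists_eq_range ⟨a 0, Set.mem_iUnion.2 ⟨0, Set.mem_range_self 0⟩⟩
  refine ⟨e, fun k => ?_, ?_⟩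
  · have : a k ∈ Set.range e := by
      rw [← he]
      exact Set.mem_iUnion.2 ⟨0, Set.mem_range_self k⟩
    exact this
  · intro n φ s p hx
    have h1 : ∀ i, ∃ k, e (s i) ∈ itN S (a 0) (Set.range a) k := by
      intro i
      have : e (s i) ∈ ⋃ k, itN S (a 0) (Set.range a) k := by
        rw [he]; exact Set.mem_range_self _
      exact Set.mem_iUnion.1 this
    choose k hk using h1
    obtain ⟨K, hK⟩ : ∃ K, ∀ i, k i ≤ K :=
      ⟨Finset.univ.sup k, fun i => Finset.le_sup (Finset.mem_univ i)⟩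
    have h2 : ∀ i, e (s i) ∈ itN S (a 0) (Set.range a) K := fun i => itN_mono S (a 0) _ (hK i) (hk i)
    have h3 : witN S (a 0) n φ (fun i => e (s i)) p ∈ itN S (a 0) (Set.range a) (K + 1) :=
      Or.inr ⟨⟨n, φ, fun i => ⟨e (s i), h2 i⟩, p⟩, rfl⟩
    have h4 : witN S (a 0) n φ (fun i => e (s i)) p ∈ Set.range e := by
      rw [← he]; exact Set.mem_iUnion.2 ⟨K + 1, h3⟩
    obtain ⟨m, hm⟩ := h4
    refine ⟨m, ?_⟩
    rw [hm]
    exact witN_spec S (a 0) n φ _ p hx

end

end Pool.Agent.SymZF
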