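import Pool.Agent.SymZF.ZPair

/-! Module ZHom: `ZHom_proof` is proved in `Pool.Agent.SymZF.ZPair`. -/
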