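import Pool.Agent.SymZF.Iface

/-!
Modules ZPair, ZPar and ZHom: reasoning inside a model of ZF.
-/

namespace Pool.Agent.SymZF

theorem ZPair_proof : Stmt_ZPair := by
  intro M E hZ
  have hsing : ∀ x, ∃ s, ∀ w, E w s ↔ w = x := by
    intro x
    obtain ⟨u, hu⟩ := hZ.pair x x
    exact ⟨u, fun w => by rw [hu w]; tauto⟩
  have hzero : ∃ y, IsZero E y := by
    obtain ⟨w, ⟨e, he, _⟩, _⟩ := hZ.inf
    exact ⟨e, he⟩
  have hzu : ∀ y z, IsZero E y → IsZero E z → y = z := by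
    intro y z hy hz
    exact hZ.ext y z fun w => ⟨fun h => (hy w h).elim, fun h => (hz w h).elim⟩
  refine ⟨?_, ?_, ?_, hzero, ?_, hzu, ?_, ?_⟩
  · intro x y
    obtain ⟨s, hs⟩ := hsing x
    obtain ⟨t, ht⟩ := hZ.pair x y
    obtain ⟨p, hp⟩ := hZ.pair s t
    refine ⟨p, fun z => ?_⟩
    rw [hp z]
    constructor
    · rintro (rfl | rfl)
      · exact Or.inl hs
      · exact Or.inr ht
    · rintro (h | h)
      · left; exact hZ.ext _ _ fun w => by rw [h w, hs w]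
      · right; exact hZ.ext _ _ fun w => by rw [h w, ht w]
  · intro p x y x' y' h h'
    have hxx : x = x' := by
      obtain ⟨s, hs⟩ := hsing x
      have h1 : E s p := (h s).2 (Or.inl hs)
      rcases (h' s).1 h1 with h2 | h2
      · exact ((hs x').1 ((h2 x').2 rfl)).symm
      · exact ((hs x').1 ((h2 x').2 (Or.inl rfl))).symm
    subst hxx
    refine ⟨rfl, ?_⟩
    obtain ⟨t, ht⟩ := hZ.pair x y
    obtain ⟨t', ht'⟩ := hZ.pair x y'
    have h1 : E t p := (h t).2 (Or.inr ht)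
    have h1' : E t' p := (h' t').2 (Or.inr ht')
    rcases (h' t).1 h1 with h2 | h2
    · have hyx : y = x := (h2 y).1 ((ht y).2 (Or.inr rfl))
      rcases (h t').1 h1' with h3 | h3
      · have : y' = x := (h3 y').1 ((ht' y').2 (Or.inr rfl))
        rw [hyx, this]
      · have : y' = x ∨ y' = y := (h3 y').1 ((ht' y').2 (Or.inr rfl))
        rcases this with h4 | h4
        · rw [hyx, h4]
        · exact h4.symm
    · have h3 : y = x ∨ y = y' := (h2 y).1 ((ht y).2 (Or.inr rfl))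
      rcases h3 with h3 | h3
      · have h4 : y' = x ∨ y' = y := (ht y').1 ((h2 y').2 (Or.inr rfl))
        rcases h4 with h4 | h4
        · rw [h3, h4]
        · exact h4.symm
      · exact h3
  · intro p q x y hp hq
    exact hZ.ext _ _ fun z => by rw [hp z, hq z]
  · obtain ⟨e, he⟩ := hzero
    obtain ⟨s, hs⟩ := hsing e
    exact ⟨s, fun z => by
      rw [hs z]
      exact ⟨fun h => h ▸ he, fun h => hzu _ _ h he⟩⟩
  · intro y z hy hz
    exact hZ.ext _ _ fun w => by rw [hy w, hz w]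
  · intro y hy h1
    obtain ⟨e, he⟩ := hzero
    exact hy e ((h1 e).2 he)

section
variable {M : Type} {E : M → M → Prop}

theorem zf_union2 (hZ : ZF E) (F F' : M) : ∃ G, ∀ w, E w G ↔ (E w F ∨ E w F') := by
  obtain ⟨t, ht⟩ := hZ.pair F F'
  obtain ⟨G, hG⟩ := hZ.union t
  refine ⟨G, fun w => ?_⟩
  rw [hG w]
  constructor
  · rintro ⟨y, hy, hw⟩
    rcases (ht y).1 hy with rfl | rfl
    · exact Or.inl hw
    · exact Or.inr hw
  · rintro (h | h)
    · exact ⟨F, (ht F).2 (Or.inl rfl), h⟩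
    · exact ⟨F', (ht F').2 (Or.inr rfl), h⟩

theorem zf_sing (hZ : ZF E) (x : M) : ∃ s, ∀ w, E w s ↔ w = x := by
  obtain ⟨u, hu⟩ := hZ.pair x x
  exact ⟨u, fun w => by rw [hu w]; tauto⟩

theorem isFin_union (hZ : ZF E) (F F' G : M) (hF : IsFin E F) (hF' : IsFin E F')
    (hG : ∀ w, E w G ↔ (E w F ∨ E w F')) : IsFin E G := by
  intro A h0 h1
  have hFA : E F A := hF A h0 fun Y Z x hY hx hZ' => h1 Y Z x hY ((hG x).2 (Or.inl hx)) hZ'
  obtain ⟨P, hP⟩ := hZ.power F'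
  obtain ⟨A', hA'⟩ := hZ.sep 2 (.ex (.and (.mem 0 2) (.all (.iff (.mem 0 1)
    (.or (.mem 0 4) (.mem 0 2)))))) (cns A (cns F Fin.elim0)) P
  have hA'' : ∀ Y, E Y A' ↔ ((∀ z, E z Y → E z F') ∧
      ∃ z, E z A ∧ ∀ w, E w z ↔ (E w F ∨ E w Y)) := by
    intro Y
    rw [hA' Y, hP Y]
    simp
  have hfin : E F' A' := by
    apply hF' A'
    · intro e he
      rw [hA'']
      refine ⟨fun z hz => (he z hz).elim, F, hFA, fun w => ?_⟩
      exact ⟨fun h => Or.inl h, fun h => h.elim id fun h => (he w h).elim⟩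
    · intro Y Z x hY hx hZ'
      rw [hA''] at hY ⊢
      obtain ⟨hsub, z, hzA, hz⟩ := hY
      refine ⟨fun w hw => ?_, ?_⟩
      · rcases (hZ' w).1 hw with h | h
        · exact hsub w h
        · rw [h]; exact hx
      · obtain ⟨s, hs⟩ := zf_sing hZ x
        obtain ⟨Z', hZ''⟩ := zf_union2 hZ z s
        refine ⟨Z', h1 z Z' x hzA ((hG x).2 (Or.inr hx)) fun w => by rw [hZ'' w, hs w],
          fun w => ?_⟩
        rw [hZ'' w, hs w, hz w, hZ' w]
        tauto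
  obtain ⟨_, z, hzA, hz⟩ := (hA'' F').1 hfin
  have : z = G := hZ.ext _ _ fun w => by rw [hz w, hG w]
  rw [← this]
  exact hzA

theorem isFin_sing (hZ : ZF E) (x G : M) (hG : ∀ w, E w G ↔ w = x) : IsFin E G := by
  intro A h0 h1
  obtain ⟨e, he⟩ := (ZPair_proof M E hZ).2.2.2.1
  exact h1 e G x (h0 e he) ((hG x).2 rfl) fun w => by
    rw [hG w]
    exact ⟨fun h => Or.inr h, fun h => h.elim (fun h => (he w h).elim) id⟩

theorem homK2_restrict (hZ : ZF E) (f G F R : M) (hf : HomK2 E f G R)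
    (hFG : ∀ w, E w F → E w G) :
    ∃ f', HomK2 E f' F R ∧ ∀ x, E x F → (ValOne E f' x ↔ ValOne E f x) := by
  obtain ⟨hp1, hp2, hp3, -⟩ := ZPair_proof M E hZ
  obtain ⟨f', hf'⟩ := hZ.sep 1 (.ex (.ex (.and (.mem 1 3) (.cPair 2 1 0))))
    (cns F Fin.elim0) f
  have hf'' : ∀ p, E p f' ↔ (E p f ∧ ∃ x y, E x F ∧ IsPair E p x y) := by
    intro p
    rw [hf' p]
    simp
  have hin : ∀ x y, In2 E f' x y ↔ (E x F ∧ In2 E f x y) := by
    intro x y
    constructor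
    · rintro ⟨p, hp, hpf⟩
      obtain ⟨h1, x', y', hx', hp'⟩ := (hf'' p).1 hpf
      obtain ⟨rfl, rfl⟩ := hp2 _ _ _ _ _ hp hp'
      exact ⟨hx', p, hp, h1⟩
    · rintro ⟨hx, p, hp, hpf⟩
      exact ⟨p, hp, (hf'' p).2 ⟨hpf, x, y, hx, hp⟩⟩
  have hval : ∀ x, E x F → (ValOne E f' x ↔ ValOne E f x) := by
    intro x hx
    unfold ValOne
    constructor
    · rintro ⟨y, hy, h⟩
      exact ⟨y, hy, ((hin x y).1 h).2⟩
    · rintro ⟨y, hy, h⟩
      exact ⟨y, hy, (hin x y).2 ⟨hx, h⟩⟩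
  refine ⟨f', ⟨⟨?_, ?_⟩, ?_⟩, hval⟩
  · intro p hp
    obtain ⟨h1, x', y', hx', hp'⟩ := (hf'' p).1 hp
    obtain ⟨x, y, hx, hy, hpp⟩ := hf.1.1 p h1
    obtain ⟨rfl, rfl⟩ := hp2 _ _ _ _ _ hpp hp'
    exact ⟨x, y, hx', hy, hpp⟩
  · intro x hx
    obtain ⟨y, hy, hyu⟩ := hf.1.2 x (hFG x hx)
    exact ⟨y, (hin x y).2 ⟨hx, hy⟩, fun y' hy' => hyu y' ((hin x y').1 hy').2⟩
  · intro x y hx hy hR
    rw [hval x hx, hval y hy]
    exact hf.2 x y (hFG x hx) (hFG y hy) hR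

end

theorem ZPar_proof : Stmt_ZPar := by
  intro M E hZ X R hyp
  refine ⟨?_, ?_, ?_, ?_, ?_⟩
  · intro x hx
    obtain ⟨s, hs⟩ := zf_sing hZ x
    refine ⟨s, fun z hz => ?_, isFin_sing hZ x s hs, (hs x).2 rfl, (hs x).2 rfl, ?_⟩
    · rw [(hs z).1 hz]; exact hx
    · intro f _
      simp
  · rintro b x y ⟨F, h1, h2, h3, h4, h5⟩
    refine ⟨F, h1, h2, h4, h3, fun f hf => ?_⟩
    have := h5 f hf
    cases b
    · simp at this ⊢; tauto
    · simp at this ⊢; tauto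
  · rintro a b x y z ⟨F, h1, h2, h3, h4, h5⟩ ⟨F', h1', h2', h3', h4', h5'⟩
    obtain ⟨G, hG⟩ := zf_union2 hZ F F'
    refine ⟨G, fun w hw => ?_, isFin_union hZ F F' G h2 h2' hG, (hG x).2 (Or.inl h3),
      (hG z).2 (Or.inr h4'), fun f hf => ?_⟩
    · rcases (hG w).1 hw with h | h
      · exact h1 w h
      · exact h1' w h
    · obtain ⟨f1, hf1, hv1⟩ := homK2_restrict hZ f G F R hf fun w hw => (hG w).2 (Or.inl hw)
      obtain ⟨f2, hf2, hv2⟩ := homK2_restrict hZ f G F' R hf fun w hw => (hG w).2 (Or.inr hw)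
      have e1 := h5 f1 hf1
      have e2 := h5' f2 hf2
      rw [hv1 x h3, hv1 y h4] at e1
      rw [hv2 y h3', hv2 z h4'] at e2
      cases a <;> cases b <;> simp at e1 e2 ⊢ <;> tauto
  · rintro x y ⟨⟨F, h1, h2, h3, h4, h5⟩, ⟨F', h1', h2', h3', h4', h5'⟩⟩
    obtain ⟨G, hG⟩ := zf_union2 hZ F F'
    obtain ⟨f, hf⟩ := hyp G (fun w hw => by
      rcases (hG w).1 hw with h | h
      · exact h1 w h
      · exact h1' w h) (isFin_union hZ F F' G h2 h2' hG)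
    obtain ⟨f1, hf1, hv1⟩ := homK2_restrict hZ f G F R hf fun w hw => (hG w).2 (Or.inl hw)
    obtain ⟨f2, hf2, hv2⟩ := homK2_restrict hZ f G F' R hf fun w hw => (hG w).2 (Or.inr hw)
    have e1 := h5 f1 hf1
    have e2 := h5' f2 hf2
    rw [hv1 x h3, hv1 y h4] at e1
    rw [hv2 x h3', hv2 y h4'] at e2
    simp at e1 e2
    tauto
  · intro x y hx hy hR
    obtain ⟨s, hs⟩ := zf_sing hZ x
    obtain ⟨t, ht⟩ := zf_sing hZ y
    obtain ⟨G, hG⟩ := zf_union2 hZ s t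
    have hxG : E x G := (hG x).2 (Or.inl ((hs x).2 rfl))
    have hyG : E y G := (hG y).2 (Or.inr ((ht y).2 rfl))
    refine ⟨G, fun w hw => ?_, isFin_union hZ s t G (isFin_sing hZ x s hs)
      (isFin_sing hZ y t ht) hG, hxG, hyG, fun f hf => ?_⟩
    · rcases (hG w).1 hw with h | h
      · rw [(hs w).1 h]; exact hx
      · rw [(ht w).1 h]; exact hy
    · have := hf.2 x y hxG hyG hR
      simpa using this

theorem ZHom_proof : Stmt_ZHom := by
  intro M E hZ X R f hyp h1 h2 h3 h4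
  refine ⟨⟨h1, fun x hx => ?_⟩, fun x y hx hy hR => ?_⟩
  · obtain ⟨y, hy⟩ := h2 x hx
    exact ⟨y, hy, fun y' hy' => h3 x y' y hy' hy⟩
  · exact h4 x y hx hy ((ZPar_proof M E hZ X R hyp).2.2.2.2 x y hx hy hR)

end Pool.Agent.SymZF
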