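import Pool.Agent.SymZF.AxA
import Pool.Agent.SymZF.AxI
import Pool.Agent.SymZF.AxP
import Pool.Agent.SymZF.AxR
import Pool.Agent.SymZF.AxS
import Pool.Agent.SymZF.AxU
import Pool.Agent.SymZF.CL
import Pool.Agent.SymZF.Core
import Pool.Agent.SymZF.EX
import Pool.Agent.SymZF.GP
import Pool.Agent.SymZF.TR
import Pool.Agent.SymZF.LS
import Pool.Agent.SymZF.Trip
import Pool.Agent.SymZF.Genx
import Pool.Agent.SymZF.WCx
import Pool.Agent.SymZF.Truth
import Pool.Agent.SymZF.Sound
import Pool.Agent.SymZF.ZPair
import Pool.Agent.SymZF.ZPar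
import Pool.Agent.SymZF.ZHom
import Pool.Agent.SymZF.K2a
import Pool.Agent.SymZF.LinFin
import Pool.Agent.SymZF.LinNo
import Pool.Agent.SymZF.K2b
import Pool.Agent.SymZF.K2

/-! Final assembly. -/

namespace Pool.Agent.SymZF

theorem frcZF_all {P G : Type} [PartialOrder P] [OrderTop P] [Group G] [MulAction G P]
    (S : SymSys P G) : FrcZF S where
  ext := (AxA_proof P G S).1
  found := (AxA_proof P G S).2.1
  pairing := (AxA_proof P G S).2.2
  union := AxU_proof P G S
  power := AxP_proof P G S
  inf := AxI_proof P G S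
  sep := AxS_proof CL_proof P G S
  repl := AxR_proof CL_proof P G S

theorem Sound_all : Stmt_Sound := Sound_proof WCx_proof Genx_proof Truth_proof

theorem K2_all : Stmt_K2 :=
  K2_proof Sound_all ZPar_proof ZHom_proof (frcZF_all CS)
    (K2a_proof Sound_all ZPar_proof (frcZF_all CS)) K2b_proof
    (Core_proof (Trip_proof (LS_proof GP_proof EX_proof) GP_proof))

theorem Final_proof : Stmt_Final :=
  Final_of (frcZF_all CS) (Model_proof WCx_proof Genx_proof Truth_proof) K2_all
    (Lin_proof LinRel_proof LinFin_proof (LinNo_proof GP_proof TR_proof))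

end Pool.Agent.SymZF
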