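import Pool.Agent.SymZF.Iface

/-!
Module AxA: extensionality, foundation and pairing are forced.
-/

noncomputable section

namespace Pool.Agent.SymZF

theorem AxA_proof : Stmt_AxA := by
  intro P G _ _ _ _ S
  refine ⟨fun s r => ?_, fun s r => ?_, fun s r => ?_⟩
  · simp only [Fml.cExt, Frc_imp, Frc_all, Frc_iff, Frc_mem, Frc_eq, cns_zero]
    intro r' _ h
    exact HSN.ext_mem (fun z t ht => h z t ht)
  · simp only [Fml.cFound, Frc_imp, Frc_ex, Frc_and, Frc_all, Frc_mem, Frc_neg, cns_zero]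
    intro r' _ h
    by_contra hcon
    push Not at hcon
    obtain ⟨t, ht, hn⟩ := hcon
    have claim : ∀ (y : Nm P) (hy : HS S y), ∀ u ≤ t, ¬ Nm.Mem y (s 0).1 u := by
      intro y
      induction y with
      | mk ι A p ih =>
        intro hy u hu hmem
        obtain ⟨z, v, hv, hzy, v', hv', hzx⟩ := hn u hu ⟨Nm.mk ι A p, hy⟩ hmem
        have hzy' : Nm.Mem z.1 (Nm.mk ι A p) v' := Nm.Mem.mono hzy hv'
        have hzx' : Nm.Mem z.1 (s 0).1 v' := hzx
        obtain ⟨q, hq, j, hj, he⟩ := hzy' v' le_rfl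
        have hA : HS S (A j) := by
          have := ((HS_iff S (Nm.mk ι A p)).1 hy).1 j
          exact this
        exact ih j hA q (hq.trans (hv'.trans (hv.trans hu)))
          ((hzx'.mono hq).congr_left he)
    obtain ⟨u, hu, y, hy⟩ := h t ht
    exact claim y.1 y.2 u hu hy
  · rw [Fml.cPairing, Frc_ex]
    intro q _
    refine ⟨q, le_rfl, upair (s 0) (s 1), ?_⟩
    simp only [Frc_all, Frc_iff, Frc_or, Frc_mem, Frc_eq, cns_zero, cns_one]
    intro z u _
    exact mem_upair (s 0) (s 1) z u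

end Pool.Agent.SymZF
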