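import Pool.Agent.SymZF.Codes

/-!
Basic hereditarily symmetric names: empty set, unordered and ordered pairs, (Zermelo) numerals.
-/

noncomputable section

namespace Pool.Agent.SymZF

variable {P G : Type} [PartialOrder P] [OrderTop P] [Group G] [MulAction G P] {S : SymSys P G}

/-- forced equality of symmetric names -/
def EqvN (x y : HSN S) (r : P) : Prop := Nm.Eqv x.1 y.1 r

/-- forced membership of symmetric names -/
def MemN (x y : HSN S) (r : P) : Prop := Nm.Mem x.1 y.1 r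

theorem HSN.smul_eq_of_val {g : G} {x y : HSN S} (h : g • x.1 = y.1) : g • x = y := HSN.ext h

/-- the empty set -/
def emptyN (S : SymSys P G) : HSN S :=
  HSN.mk' S Empty (fun i => i.elim) (fun i => i.elim) ⟨⊤, S.top_mem, fun _ _ i => i.elim⟩

theorem not_mem_emptyN (z : HSN S) (r : P) : ¬ Nm.Mem z.1 (emptyN S).1 r := by
  intro h
  obtain ⟨s, _, j, _⟩ := h r le_rfl
  exact Empty.elim j

@[simp] theorem smul_emptyN (g : G) : g • emptyN S = emptyN S := by
  apply HSN.ext
  show Nm.mk Empty _ _ = Nm.mk Empty _ _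
  congr 1
  · funext i; exact i.elim
  · funext i; exact i.elim

/-- the unordered pair `{x, y}` -/
def upair (x y : HSN S) : HSN S :=
  HSN.mk' S Bool (fun b => if b then x else y) (fun _ => ⊤) (by
    obtain ⟨H, hH, hx⟩ := x.exists_fix
    obtain ⟨K, hK, hy⟩ := y.exists_fix
    refine ⟨H ⊓ K, S.inf_mem H hH K hK, fun g hg i => ?_⟩
    rw [S.smul_top]
    have h1 : Nm.Eqv (g • (if i then x else y).1) ((if i then x else y).1) ⊤ := by
      cases i
      · exact hy g hg.2
      · exact hx g hg.1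
    exact (Nm.mem_el (Nm.mk Bool (fun b => (if b then x else y).1) fun _ => ⊤) i le_rfl).congr_left
      h1.symm)

theorem mem_upair (x y z : HSN S) (r : P) :
    Nm.Mem z.1 (upair x y).1 r ↔ ∀ r' ≤ r, ∃ t ≤ r', Nm.Eqv z.1 x.1 t ∨ Nm.Eqv z.1 y.1 t := by
  constructor
  · intro h t ht
    obtain ⟨u, hu, j, _, he⟩ := h t ht
    refine ⟨u, hu, ?_⟩
    cases j
    · right; exact he
    · left; exact he
  · intro h t ht
    obtain ⟨u, hu, he | he⟩ := h t ht
    · exact ⟨u, hu, (true : Bool), le_top, he⟩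
    · exact ⟨u, hu, (false : Bool), le_top, he⟩

@[simp] theorem smul_upair (g : G) (x y : HSN S) : g • upair x y = upair (g • x) (g • y) := by
  apply HSN.ext
  show Nm.mk Bool _ _ = Nm.mk Bool _ _
  congr 1
  · funext i; cases i <;> rfl
  · funext i; exact S.smul_top g

theorem upair_congr {x y x' y' : HSN S} {r : P} (hx : Nm.Eqv x.1 x'.1 r) (hy : Nm.Eqv y.1 y'.1 r) :
    Nm.Eqv (upair x y).1 (upair x' y').1 r := by
  apply HSN.ext_mem
  intro z t ht
  rw [mem_upair, mem_upair]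
  constructor
  · intro h u hu
    obtain ⟨w, hw, he | he⟩ := h u hu
    · exact ⟨w, hw, Or.inl (he.trans (hx.mono ((hw.trans hu).trans ht)))⟩
    · exact ⟨w, hw, Or.inr (he.trans (hy.mono ((hw.trans hu).trans ht)))⟩
  · intro h u hu
    obtain ⟨w, hw, he | he⟩ := h u hu
    · exact ⟨w, hw, Or.inl (he.trans (hx.mono ((hw.trans hu).trans ht)).symm)⟩
    · exact ⟨w, hw, Or.inr (he.trans (hy.mono ((hw.trans hu).trans ht)).symm)⟩

/-- the Kuratowski pair `(x, y)` -/
def pairN (x y : HSN S) : HSN S := upair (upair x x) (upair x y)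

@[simp] theorem smul_pairN (g : G) (x y : HSN S) : g • pairN x y = pairN (g • x) (g • y) := by
  simp [pairN]

theorem pairN_congr {x y x' y' : HSN S} {r : P} (hx : Nm.Eqv x.1 x'.1 r) (hy : Nm.Eqv y.1 y'.1 r) :
    Nm.Eqv (pairN x y).1 (pairN x' y').1 r :=
  upair_congr (upair_congr hx hx) (upair_congr hx hy)

theorem frc_eqv_upair (w x y : HSN S) (r : P) :
    (∀ z : HSN S, ∀ r' ≤ r, (Nm.Mem z.1 w.1 r' ↔ ∀ t ≤ r', ∃ u ≤ t, Nm.Eqv z.1 x.1 u ∨ Nm.Eqv z.1 y.1 u))
      ↔ Nm.Eqv w.1 (upair x y).1 r := by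
  constructor
  · intro h
    apply HSN.ext_mem
    intro z t ht
    rw [h z t ht, mem_upair]
  · intro h z t ht
    rw [← mem_upair]
    exact ⟨fun hm => hm.congr_right (h.mono ht), fun hm => hm.congr_right (h.symm.mono ht)⟩

theorem mem_upair_self (x z : HSN S) (r : P) :
    Nm.Mem z.1 (upair x x).1 r ↔ Nm.Eqv z.1 x.1 r := by
  rw [mem_upair]
  constructor
  · intro h
    apply Nm.Eqv.local
    intro t ht
    obtain ⟨u, hu, he | he⟩ := h t ht <;> exact ⟨u, hu, he⟩
  · intro h t ht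
    exact ⟨t, le_rfl, Or.inl (h.mono ht)⟩

/-- meaning of the pair code for names -/
theorem frc_cPair_iff {n : ℕ} (i j k : Fin n) (s : Fin n → HSN S) (r : P) :
    Frc S (.cPair i j k) s r ↔ Nm.Eqv (s i).1 (pairN (s j) (s k)).1 r := by
  have key1 : ∀ (z : HSN S) (t : P),
      (∀ w : HSN S, ∀ u ≤ t, (Nm.Mem w.1 z.1 u ↔ Nm.Eqv w.1 (s j).1 u)) ↔
        Nm.Eqv z.1 (upair (s j) (s j)).1 t := by
    intro z t
    constructor
    · intro h
      apply HSN.ext_mem
      intro w u hu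
      rw [h w u hu, mem_upair_self]
    · intro h w u hu
      rw [← mem_upair_self]
      exact ⟨fun hm => hm.congr_right (h.mono hu), fun hm => hm.congr_right (h.symm.mono hu)⟩
  have key2 : ∀ (z : HSN S) (t : P),
      (∀ w : HSN S, ∀ u ≤ t, (Nm.Mem w.1 z.1 u ↔
        ∀ v ≤ u, ∃ v' ≤ v, Nm.Eqv w.1 (s j).1 v' ∨ Nm.Eqv w.1 (s k).1 v')) ↔
        Nm.Eqv z.1 (upair (s j) (s k)).1 t := by
    intro z t
    constructor
    · intro h
      apply HSN.ext_mem
      intro w u hu
      rw [h w u hu, mem_upair]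
    · intro h w u hu
      rw [← mem_upair]
      exact ⟨fun hm => hm.congr_right (h.mono hu), fun hm => hm.congr_right (h.symm.mono hu)⟩
  unfold Fml.cPair
  simp only [Frc_all, Frc_iff, Frc_or, Frc_mem, Frc_eq, cns_zero, cns_succ, cns_one]
  constructor
  · intro h
    apply HSN.ext_mem
    intro z t ht
    rw [h z t ht, pairN, mem_upair]
    refine forall₂_congr fun u hu => exists_congr fun v => and_congr_right fun hv => ?_
    rw [← key1, ← key2]
  · intro h z t ht
    have h1 : Nm.Mem z.1 (s i).1 t ↔ Nm.Mem z.1 (pairN (s j) (s k)).1 t :=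
      ⟨fun hm => hm.congr_right (h.mono ht), fun hm => hm.congr_right (h.symm.mono ht)⟩
    rw [h1, pairN, mem_upair]
    refine forall₂_congr fun u hu => exists_congr fun v => and_congr_right fun hv => ?_
    rw [← key1, ← key2]

/-- Zermelo numerals: `0 = ∅`, `n + 1 = {n}`; in particular `numN 0 = 0`, `numN 1 = 1`. -/
def numN (S : SymSys P G) : ℕ → HSN S
  | 0 => emptyN S
  | n + 1 => upair (numN S n) (numN S n)

@[simp] theorem smul_numN (g : G) (n : ℕ) : g • numN S n = numN S n := by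
  induction n with
  | zero => exact smul_emptyN g
  | succ n ih => rw [numN, smul_upair, ih]

theorem numN_inj {n m : ℕ} {r : P} (h : Nm.Eqv (numN S n).1 (numN S m).1 r) : n = m := by
  induction n generalizing m with
  | zero =>
    cases m with
    | zero => rfl
    | succ m =>
      exfalso
      have h1 : Nm.Mem (numN S m).1 (numN S (m + 1)).1 r := by
        rw [numN, mem_upair_self]; exact Nm.Eqv.refl _ _
      exact not_mem_emptyN _ r (h1.congr_right h.symm)
  | succ n ih =>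
    cases m with
    | zero =>
      exfalso
      have h1 : Nm.Mem (numN S n).1 (numN S (n + 1)).1 r := by
        rw [numN, mem_upair_self]; exact Nm.Eqv.refl _ _
      exact not_mem_emptyN _ r (h1.congr_right h)
    | succ m =>
      have h1 : Nm.Mem (numN S n).1 (numN S (n + 1)).1 r := by
        rw [numN, mem_upair_self]; exact Nm.Eqv.refl _ _
      have h2 := h1.congr_right h
      rw [numN, mem_upair_self] at h2
      rw [ih h2]

theorem frc_cZero_iff {n : ℕ} (i : Fin n) (s : Fin n → HSN S) (r : P) :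
    Frc S (.cZero i) s r ↔ Nm.Eqv (s i).1 (numN S 0).1 r := by
  simp only [Fml.cZero, Frc_all, Frc_neg, Frc_mem, cns_zero, cns_succ]
  constructor
  · intro h
    apply HSN.ext_mem
    intro z t ht
    exact ⟨fun hm => absurd hm (h z t ht), fun hm => absurd hm (not_mem_emptyN z t)⟩
  · intro h z t ht hm
    exact not_mem_emptyN z t (hm.congr_right (h.mono ht))

theorem frc_cOne_iff {n : ℕ} (i : Fin n) (s : Fin n → HSN S) (r : P) :
    Frc S (.cOne i) s r ↔ Nm.Eqv (s i).1 (numN S 1).1 r := by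
  simp only [Fml.cOne, Frc_all, Frc_iff, Frc_mem, cns_zero, cns_succ, frc_cZero_iff]
  constructor
  · intro h
    apply HSN.ext_mem
    intro z t ht
    rw [h z t ht, ← mem_upair_self]; rfl
  · intro h z t ht
    rw [← mem_upair_self]
    exact ⟨fun hm => hm.congr_right (h.mono ht), fun hm => hm.congr_right (h.symm.mono ht)⟩

/-- meaning of `(x, y) ∈ R` for names -/
theorem frc_cIn2_iff {n : ℕ} (i j k : Fin n) (s : Fin n → HSN S) (r : P) :
    Frc S (.cIn2 i j k) s r ↔ Nm.Mem (pairN (s j) (s k)).1 (s i).1 r := by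
  unfold Fml.cIn2
  simp only [Frc_ex, Frc_and, frc_cPair_iff, Frc_mem, cns_zero, cns_succ]
  constructor
  · intro h
    apply Nm.Mem.local
    intro t ht
    obtain ⟨u, hu, x, hx, hm⟩ := h t ht
    exact ⟨u, hu, hm.congr_left hx⟩
  · intro h t ht
    exact ⟨t, le_rfl, _, Nm.Eqv.refl _ _, h.mono ht⟩

/-- meaning of `((x, y), z) ∈ R` for names -/
theorem frc_cIn3_iff {n : ℕ} (i j k l : Fin n) (s : Fin n → HSN S) (r : P) :
    Frc S (.cIn3 i j k l) s r ↔ Nm.Mem (pairN (pairN (s j) (s k)) (s l)).1 (s i).1 r := by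
  unfold Fml.cIn3
  simp only [Frc_ex, Frc_and, frc_cPair_iff, Frc_mem, cns_zero, cns_succ, cns_one]
  constructor
  · intro h
    apply Nm.Mem.local
    intro t ht
    obtain ⟨u, hu, q, h2⟩ := h t ht
    obtain ⟨v, hv, p, hq, hp, hm⟩ := h2 u le_rfl
    exact ⟨v, hv.trans hu, hm.congr_left (hp.trans (pairN_congr hq (Nm.Eqv.refl _ _)))⟩
  · intro h t ht
    refine ⟨t, le_rfl, pairN (s j) (s k), fun u hu => ⟨u, le_rfl, pairN (pairN (s j) (s k)) (s l), ?_⟩⟩
    exact ⟨Nm.Eqv.refl _ _, Nm.Eqv.refl _ _, h.mono (hu.trans ht)⟩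

/-- meaning of `f(x) = 1` for names -/
theorem frc_cVal_iff {n : ℕ} (i j : Fin n) (s : Fin n → HSN S) (r : P) :
    Frc S (.cVal i j) s r ↔ Nm.Mem (pairN (s j) (numN S 1)).1 (s i).1 r := by
  unfold Fml.cVal
  simp only [Frc_ex, Frc_and, frc_cOne_iff, frc_cIn2_iff, cns_zero, cns_succ]
  constructor
  · intro h
    apply Nm.Mem.local
    intro t ht
    obtain ⟨u, hu, x, hx, hm⟩ := h t ht
    exact ⟨u, hu, hm.congr_left (pairN_congr (Nm.Eqv.refl _ _) hx)⟩
  · intro h t ht
    exact ⟨t, le_rfl, _, Nm.Eqv.refl _ _, h.mono ht⟩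

/-- pairs are equal iff their components are -/
theorem pairN_inj {x y x' y' : HSN S} {r : P} (h : Nm.Eqv (pairN x y).1 (pairN x' y').1 r) :
    Nm.Eqv x.1 x'.1 r ∧ Nm.Eqv y.1 y'.1 r := by
  have hsing : ∀ (a b : HSN S) (t : P), Nm.Mem a.1 (upair b b).1 t → Nm.Eqv a.1 b.1 t :=
    fun a b t hm => (mem_upair_self b a t).1 hm
  have hx : Nm.Eqv x.1 x'.1 r := by
    have h1 : Nm.Mem (upair x x).1 (pairN x' y').1 r := by
      refine Nm.Mem.congr_right ?_ h
      rw [pairN, mem_upair]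
      exact fun t _ => ⟨t, le_rfl, Or.inl (Nm.Eqv.refl _ _)⟩
    rw [pairN, mem_upair] at h1
    apply Nm.Eqv.local
    intro t ht
    obtain ⟨u, hu, he | he⟩ := h1 t ht
    · refine ⟨u, hu, ?_⟩
      apply hsing
      exact Nm.Mem.congr_right ((mem_upair_self x x u).2 (Nm.Eqv.refl _ _)) he
    · refine ⟨u, hu, ?_⟩
      have h3 : Nm.Mem x'.1 (upair x x).1 u :=
        Nm.Mem.congr_right ((mem_upair x' y' x' u).2
          (fun v _ => ⟨v, le_rfl, Or.inl (Nm.Eqv.refl _ _)⟩)) he.symm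
      exact (hsing _ _ _ h3).symm
  refine ⟨hx, ?_⟩
  apply Nm.Eqv.local
  intro t ht
  -- `{x, y}` is in `(x', y')`
  have h1 : Nm.Mem (upair x y).1 (pairN x' y').1 t := by
    refine Nm.Mem.congr_right ?_ (h.mono ht)
    rw [pairN, mem_upair]
    exact fun t _ => ⟨t, le_rfl, Or.inr (Nm.Eqv.refl _ _)⟩
  have h2 : Nm.Mem (upair x' y').1 (pairN x y).1 t := by
    refine Nm.Mem.congr_right ?_ (h.mono ht).symm
    rw [pairN, mem_upair]
    exact fun t _ => ⟨t, le_rfl, Or.inr (Nm.Eqv.refl _ _)⟩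
  rw [pairN, mem_upair] at h1 h2
  obtain ⟨u, hu, he⟩ := h1 t le_rfl
  obtain ⟨v, hv, he'⟩ := h2 u hu
  have hxv : Nm.Eqv x.1 x'.1 v := hx.mono ((hv.trans hu).trans ht)
  have hyv : Nm.Mem y.1 (upair x y).1 v :=
    (mem_upair x y y v).2 (fun w _ => ⟨w, le_rfl, Or.inr (Nm.Eqv.refl _ _)⟩)
  have hyv' : Nm.Mem y'.1 (upair x' y').1 v :=
    (mem_upair x' y' y' v).2 (fun w _ => ⟨w, le_rfl, Or.inr (Nm.Eqv.refl _ _)⟩)
  rcases he with he | he
  · -- `{x, y} = {x'}` so `y = x'`
    have e1 : Nm.Eqv y.1 x'.1 v := hsing _ _ _ (hyv.congr_right (he.mono hv))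
    rcases he' with he' | he'
    · have e2 : Nm.Eqv y'.1 x.1 v := hsing _ _ _ (hyv'.congr_right he')
      exact ⟨v, hv.trans hu, (e1.trans hxv.symm).trans e2.symm⟩
    · have e2 := hyv'.congr_right he'
      rw [mem_upair] at e2
      obtain ⟨w, hw, e2 | e2⟩ := e2 v le_rfl
      · exact ⟨w, (hw.trans hv).trans hu, ((e1.trans hxv.symm).mono hw).trans e2.symm⟩
      · exact ⟨w, (hw.trans hv).trans hu, e2.symm⟩
  · have e1 := hyv.congr_right (he.mono hv)
    rw [mem_upair] at e1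
    obtain ⟨w, hw, e1 | e1⟩ := e1 v le_rfl
    · have e2 : Nm.Mem y'.1 (upair x y).1 w :=
        (hyv'.mono hw).congr_right (he.mono (hw.trans hv)).symm
      rw [mem_upair] at e2
      obtain ⟨w', hw', e2 | e2⟩ := e2 w le_rfl
      · refine ⟨w', ((hw'.trans hw).trans hv).trans hu, ?_⟩
        exact ((e1.mono hw').trans (hxv.mono (hw'.trans hw)).symm).trans e2.symm
      · exact ⟨w', ((hw'.trans hw).trans hv).trans hu, e2.symm⟩
    · exact ⟨w, (hw.trans hv).trans hu, e1⟩

end Pool.Agent.SymZF
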