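import Pool.Agent.SymZF.Frc

/-!
Formula codes for the axioms of ZF and for the set-theoretic notions of `Defs.lean`, with their
meaning under `Sat`.
-/

namespace Pool.Agent.SymZF

section Extra

variable {M : Type*} (E : M → M → Prop)

/-- Every finite subset of the graph `(X, R)` is 2-colourable. -/
def Hyp2 (X R : M) : Prop := ∀ F, IsSub E F X → IsFin E F → ∃ f, HomK2 E f F R

/-- Every finite subsystem is solvable. -/
def HypLin (X R₀ R₁ : M) : Prop :=
  ∀ F, IsSub E F X → IsFin E F → ∃ f, HomLin E f F R₀ R₁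

/-- Parity relation of a graph: some finite subset of `X` containing `x` and `y` forces
`f(x) = f(y)` (`b = false`), resp. `f(x) ≠ f(y)` (`b = true`), for its 2-colourings `f`. -/
def Par (b : Bool) (X R x y : M) : Prop :=
  ∃ F, IsSub E F X ∧ IsFin E F ∧ E x F ∧ E y F ∧
    ∀ f, HomK2 E f F R → if b then ¬ (ValOne E f x ↔ ValOne E f y)
      else (ValOne E f x ↔ ValOne E f y)

end Extra

namespace Fml

variable {n : ℕ}

/-- code of `x ⊆ y` -/
def cSub (x y : Fin n) : Fml n := all (imp (mem 0 x.succ) (mem 0 y.succ))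

/-- code of `y = 0` -/
def cZero (y : Fin n) : Fml n := all (neg (mem 0 y.succ))

/-- code of `y = 1` -/
def cOne (y : Fin n) : Fml n := all (iff (mem 0 y.succ) (cZero 0))

/-- code of `p = (x, y)` -/
def cPair (p x y : Fin n) : Fml n :=
  all (iff (mem 0 p.succ)
    (or (all (iff (mem 0 1) (eq 0 x.succ.succ)))
      (all (iff (mem 0 1) (or (eq 0 x.succ.succ) (eq 0 y.succ.succ))))))

/-- code of `(x, y) ∈ R` -/
def cIn2 (R x y : Fin n) : Fml n := ex (and (cPair 0 x.succ y.succ) (mem 0 R.succ))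

/-- code of `((x, y), z) ∈ R` -/
def cIn3 (R x y z : Fin n) : Fml n :=
  ex (ex (and (cPair 1 x.succ.succ y.succ.succ)
    (and (cPair 0 1 z.succ.succ) (mem 0 R.succ.succ))))

/-- code of `R ⊆ X × X` -/
def cRel2 (R X : Fin n) : Fml n :=
  all (imp (mem 0 R.succ)
    (ex (ex (and (mem 1 X.succ.succ.succ) (and (mem 0 X.succ.succ.succ) (cPair 2 1 0))))))

/-- code of `R ⊆ (X × X) × X` -/
def cRel3 (R X : Fin n) : Fml n :=
  all (imp (mem 0 R.succ)
    (ex (ex (ex (ex (and (mem 3 X.succ.succ.succ.succ.succ)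
      (and (mem 2 X.succ.succ.succ.succ.succ) (and (mem 1 X.succ.succ.succ.succ.succ)
        (and (cPair 0 3 2) (cPair 4 0 1))))))))))

/-- code of: `F` is finite -/
def cFin (F : Fin n) : Fml n :=
  all (imp (all (imp (cZero 0) (mem 0 1)))
    (imp (all (all (all (imp (mem 2 3) (imp (mem 0 F.succ.succ.succ.succ)
        (imp (all (iff (mem 0 2) (or (mem 0 3) (eq 0 1)))) (mem 1 3)))))))
      (mem F.succ 0)))

/-- code of: `f` is a map from `X` to `{0,1}` -/
def cMap (f X : Fin n) : Fml n :=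
  and (all (imp (mem 0 f.succ)
      (ex (ex (and (mem 1 X.succ.succ.succ) (and (or (cZero 0) (cOne 0)) (cPair 2 1 0)))))))
    (all (imp (mem 0 X.succ)
      (ex (and (cIn2 f.succ.succ 1 0) (all (imp (cIn2 f.succ.succ.succ 2 0) (eq 0 1)))))))

/-- code of `f(x) = 1` -/
def cVal (f x : Fin n) : Fml n := ex (and (cOne 0) (cIn2 f.succ x.succ 0))

/-- code of `HomK2` -/
def cHomK2 (f F R : Fin n) : Fml n :=
  and (cMap f F)
    (all (all (imp (mem 1 F.succ.succ) (imp (mem 0 F.succ.succ)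
      (imp (cIn2 R.succ.succ 1 0) (neg (iff (cVal f.succ.succ 1) (cVal f.succ.succ 0))))))))

/-- code of `Hyp2` -/
def cHyp2 (X R : Fin n) : Fml n :=
  all (imp (cSub 0 X.succ) (imp (cFin 0) (ex (cHomK2 0 1 R.succ.succ))))

/-- code of `CompactK2` -/
def cK2 : Fml n := all (all (imp (cRel2 0 1) (imp (cHyp2 1 0) (ex (cHomK2 0 2 1)))))

/-- code of `SumOne` -/
def cSum (f x y z : Fin n) : Fml n :=
  neg (iff (cVal f x) (neg (iff (cVal f y) (cVal f z))))

/-- code of `HomLin` -/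
def cHomLin (f F R₀ R₁ : Fin n) : Fml n :=
  and (cMap f F)
    (and
      (all (all (all (imp (mem 2 F.succ.succ.succ) (imp (mem 1 F.succ.succ.succ)
        (imp (mem 0 F.succ.succ.succ) (imp (cIn3 R₀.succ.succ.succ 2 1 0)
          (neg (cSum f.succ.succ.succ 2 1 0)))))))))
      (all (all (all (imp (mem 2 F.succ.succ.succ) (imp (mem 1 F.succ.succ.succ)
        (imp (mem 0 F.succ.succ.succ) (imp (cIn3 R₁.succ.succ.succ 2 1 0)
          (cSum f.succ.succ.succ 2 1 0)))))))))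

/-- code of `HypLin` -/
def cHypLin (X R₀ R₁ : Fin n) : Fml n :=
  all (imp (cSub 0 X.succ) (imp (cFin 0) (ex (cHomLin 0 1 R₀.succ.succ R₁.succ.succ))))

/-- code of `CompactLin` -/
def cLin : Fml n :=
  all (all (all (imp (cRel3 1 2) (imp (cRel3 0 2) (imp (cHypLin 2 1 0)
    (ex (cHomLin 0 3 2 1)))))))

/-- code of `Par` -/
def cPar (b : Bool) (X R x y : Fin n) : Fml n :=
  ex (and (cSub 0 X.succ) (and (cFin 0) (and (mem x.succ 0) (and (mem y.succ 0)
    (all (imp (cHomK2 0 1 R.succ.succ)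
      (if b then neg (iff (cVal 0 x.succ.succ) (cVal 0 y.succ.succ))
        else iff (cVal 0 x.succ.succ) (cVal 0 y.succ.succ))))))))

/-- extensionality for `x = v₀`, `y = v₁` -/
def cExt : Fml 2 := imp (all (iff (mem 0 1) (mem 0 2))) (eq 0 1)

/-- foundation for `x = v₀` -/
def cFound : Fml 1 := imp (ex (mem 0 1)) (ex (and (mem 0 1) (all (imp (mem 0 1) (neg (mem 0 2))))))

/-- pairing -/
def cPairing : Fml 2 := ex (all (iff (mem 0 1) (or (eq 0 2) (eq 0 3))))

/-- union -/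
def cUnion : Fml 1 := ex (all (iff (mem 0 1) (ex (and (mem 0 3) (mem 1 0)))))

/-- power set -/
def cPower : Fml 1 := ex (all (iff (mem 0 1) (all (imp (mem 0 1) (mem 0 3)))))

/-- infinity -/
def cInf : Fml 0 :=
  ex (and (ex (and (all (neg (mem 0 1))) (mem 0 1)))
    (all (imp (mem 0 1) (ex (and (mem 0 2) (all (iff (mem 0 1) (or (mem 0 2) (eq 0 2)))))))))

/-- separation for `φ(x, s)`; `a = v₀` and `s` is the rest -/
def cSep (φ : Fml (n + 1)) : Fml (n + 1) :=
  ex (all (iff (mem 0 1) (and (mem 0 2) (φ.ren (cns 0 (fun i => i.succ.succ.succ))))))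

/-- replacement for `φ(y, x, s)`; `a = v₀` and `s` is the rest -/
def cRepl (φ : Fml (n + 2)) : Fml (n + 1) :=
  imp (all (imp (mem 0 1)
      (ex (and (φ.ren (cns 0 (cns 1 (fun i => i.succ.succ.succ))))
        (all (imp (φ.ren (cns 0 (cns 2 (fun i => i.succ.succ.succ.succ)))) (eq 0 1)))))))
    (ex (all (iff (mem 0 1)
      (ex (and (mem 0 3) (φ.ren (cns 1 (cns 0 (fun i => i.succ.succ.succ.succ)))))))))

end Fml

section SatCodes

variable {M : Type*} {E : M → M → Prop} {n : ℕ}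

@[simp] theorem Sat_cSub (x y : Fin n) (s : Fin n → M) :
    Sat E (.cSub x y) s ↔ IsSub E (s x) (s y) := by
  simp [Fml.cSub, IsSub]

@[simp] theorem Sat_cZero (y : Fin n) (s : Fin n → M) :
    Sat E (.cZero y) s ↔ IsZero E (s y) := by
  simp [Fml.cZero, IsZero]

@[simp] theorem Sat_cOne (y : Fin n) (s : Fin n → M) :
    Sat E (.cOne y) s ↔ IsOne E (s y) := by
  simp [Fml.cOne, IsOne]

@[simp] theorem Sat_cPair (p x y : Fin n) (s : Fin n → M) :
    Sat E (.cPair p x y) s ↔ IsPair E (s p) (s x) (s y) := by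
  simp [Fml.cPair, IsPair]

@[simp] theorem Sat_cIn2 (R x y : Fin n) (s : Fin n → M) :
    Sat E (.cIn2 R x y) s ↔ In2 E (s R) (s x) (s y) := by
  simp [Fml.cIn2, In2]

@[simp] theorem Sat_cIn3 (R x y z : Fin n) (s : Fin n → M) :
    Sat E (.cIn3 R x y z) s ↔ In3 E (s R) (s x) (s y) (s z) := by
  simp [Fml.cIn3, In3]

@[simp] theorem Sat_cRel2 (R X : Fin n) (s : Fin n → M) :
    Sat E (.cRel2 R X) s ↔ Rel2 E (s R) (s X) := by
  simp [Fml.cRel2, Rel2]

@[simp] theorem Sat_cRel3 (R X : Fin n) (s : Fin n → M) :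
    Sat E (.cRel3 R X) s ↔ Rel3 E (s R) (s X) := by
  simp [Fml.cRel3, Rel3]

@[simp] theorem Sat_cFin (F : Fin n) (s : Fin n → M) :
    Sat E (.cFin F) s ↔ IsFin E (s F) := by
  simp [Fml.cFin, IsFin]

@[simp] theorem Sat_cMap (f X : Fin n) (s : Fin n → M) :
    Sat E (.cMap f X) s ↔ IsMap E (s f) (s X) := by
  simp [Fml.cMap, IsMap, ExistsUnique]

@[simp] theorem Sat_cVal (f x : Fin n) (s : Fin n → M) :
    Sat E (.cVal f x) s ↔ ValOne E (s f) (s x) := by
  simp [Fml.cVal, ValOne]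

@[simp] theorem Sat_cHomK2 (f F R : Fin n) (s : Fin n → M) :
    Sat E (.cHomK2 f F R) s ↔ HomK2 E (s f) (s F) (s R) := by
  simp [Fml.cHomK2, HomK2]

@[simp] theorem Sat_cHyp2 (X R : Fin n) (s : Fin n → M) :
    Sat E (.cHyp2 X R) s ↔ Hyp2 E (s X) (s R) := by
  simp [Fml.cHyp2, Hyp2]

@[simp] theorem Sat_cK2 (s : Fin n → M) : Sat E .cK2 s ↔ CompactK2 E := by
  simp [Fml.cK2, CompactK2, Hyp2]

theorem xor_iff_not (a b : Prop) : Xor a b ↔ ¬ (a ↔ b) := by
  unfold Xor; tauto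

@[simp] theorem Sat_cSum (f x y z : Fin n) (s : Fin n → M) :
    Sat E (.cSum f x y z) s ↔ SumOne E (s f) (s x) (s y) (s z) := by
  simp only [Fml.cSum, SumOne, Sat_neg, Sat_iff, Sat_cVal, xor_iff_not]

@[simp] theorem Sat_cHomLin (f F R₀ R₁ : Fin n) (s : Fin n → M) :
    Sat E (.cHomLin f F R₀ R₁) s ↔ HomLin E (s f) (s F) (s R₀) (s R₁) := by
  simp [Fml.cHomLin, HomLin]

@[simp] theorem Sat_cHypLin (X R₀ R₁ : Fin n) (s : Fin n → M) :
    Sat E (.cHypLin X R₀ R₁) s ↔ HypLin E (s X) (s R₀) (s R₁) := by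
  simp [Fml.cHypLin, HypLin]

@[simp] theorem Sat_cLin (s : Fin n → M) : Sat E .cLin s ↔ CompactLin E := by
  simp [Fml.cLin, CompactLin, HypLin]

@[simp] theorem Sat_cPar (b : Bool) (X R x y : Fin n) (s : Fin n → M) :
    Sat E (.cPar b X R x y) s ↔ Par E b (s X) (s R) (s x) (s y) := by
  cases b <;> simp [Fml.cPar, Par]

theorem cns_comp_ren1 (x b a : M) (s : Fin n → M) :
    (cns x (cns b (cns a s))) ∘ (cns 0 (fun i => i.succ.succ.succ)) = cns x s := by
  funext i
  refine Fin.cases ?_ (fun j => ?_) i <;> rfl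

theorem cns_comp_ren2 (y x a : M) (s : Fin n → M) :
    (cns y (cns x (cns a s))) ∘ (cns 0 (cns 1 (fun i => i.succ.succ.succ))) = cns y (cns x s) := by
  funext i
  refine Fin.cases ?_ (fun j => ?_) i
  · rfl
  · refine Fin.cases ?_ (fun k => ?_) j <;> rfl

theorem cns_comp_ren3 (z y x a : M) (s : Fin n → M) :
    (cns z (cns y (cns x (cns a s)))) ∘ (cns 0 (cns 2 (fun i => i.succ.succ.succ.succ))) =
      cns z (cns x s) := by
  funext i
  refine Fin.cases ?_ (fun j => ?_) i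
  · rfl
  · refine Fin.cases ?_ (fun k => ?_) j <;> rfl

theorem cns_comp_ren4 (x y b a : M) (s : Fin n → M) :
    (cns x (cns y (cns b (cns a s)))) ∘ (cns 1 (cns 0 (fun i => i.succ.succ.succ.succ))) =
      cns y (cns x s) := by
  funext i
  refine Fin.cases ?_ (fun j => ?_) i
  · rfl
  · refine Fin.cases ?_ (fun k => ?_) j <;> rfl

theorem cns_eta (s : Fin (n + 1) → M) : cns (s 0) (fun i => s i.succ) = s := by
  funext i
  refine Fin.cases ?_ (fun j => ?_) i <;> rfl

theorem Sat_cSep (φ : Fml (n + 1)) (a : M) (s : Fin n → M) :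
    Sat E (.cSep φ) (cns a s) ↔ ∃ b, ∀ x, E x b ↔ (E x a ∧ Sat E φ (cns x s)) := by
  simp [Fml.cSep, cns_comp_ren1]

theorem Sat_cRepl (φ : Fml (n + 2)) (a : M) (s : Fin n → M) :
    Sat E (.cRepl φ) (cns a s) ↔ ((∀ x, E x a → ∃! y, Sat E φ (cns y (cns x s))) →
      ∃ b, ∀ y, E y b ↔ ∃ x, E x a ∧ Sat E φ (cns y (cns x s))) := by
  simp [Fml.cRepl, ExistsUnique, cns_comp_ren2, cns_comp_ren3, cns_comp_ren4]

/-- A structure satisfying all axiom codes is a model of ZF. -/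
theorem zf_of_sat (h1 : ∀ s, Sat E .cExt s) (h2 : ∀ s, Sat E .cFound s)
    (h3 : ∀ s, Sat E .cPairing s) (h4 : ∀ s, Sat E .cUnion s) (h5 : ∀ s, Sat E .cPower s)
    (h6 : ∀ s, Sat E .cInf s)
    (h7 : ∀ (n : ℕ) (φ : Fml (n + 1)) (s : Fin (n + 1) → M), Sat E (.cSep φ) s)
    (h8 : ∀ (n : ℕ) (φ : Fml (n + 2)) (s : Fin (n + 1) → M), Sat E (.cRepl φ) s) : ZF E where
  ext x y h := by
    have := h1 (cns x (cns y Fin.elim0))
    simp [Fml.cExt] at this
    exact this h
  found x h := by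
    have := h2 (cns x Fin.elim0)
    simp only [Fml.cFound, Sat_imp, Sat_ex, Sat_mem, Sat_and, Sat_all, Sat_neg, cns_zero,
      cns_one, cns_two] at this
    obtain ⟨y, hy⟩ := h
    exact this ⟨y, hy⟩
  pair x y := by
    have := h3 (cns x (cns y Fin.elim0))
    simp [Fml.cPairing] at this
    exact this
  union x := by
    have := h4 (cns x Fin.elim0)
    simp [Fml.cUnion] at this
    exact this
  power x := by
    have := h5 (cns x Fin.elim0)
    simp [Fml.cPower] at this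
    exact this
  inf := by
    have := h6 Fin.elim0
    simp [Fml.cInf] at this
    exact this
  sep n φ s a := (Sat_cSep φ a s).1 (h7 n φ (cns a s))
  repl n φ s a := (Sat_cRepl φ a s).1 (h8 n φ (cns a s))

end SatCodes

end Pool.Agent.SymZF
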