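import Pool.Agent.SymZF.Codes

/-!
The concrete forcing: finite partial functions from `V × ℕ` to `{0,1}`, where `V` is the
`𝔽₂`-vector space of countable dimension, with the action of `GL(V)` and the filter of subgroups
generated by the pointwise stabilisers of the finite dimensional subspaces.
-/

noncomputable section

namespace Pool.Agent.SymZF

/-- the `𝔽₂`-vector space of countable dimension -/
abbrev V : Type := ℕ →₀ ZMod 2

/-- its general linear group -/
abbrev GLV : Type := V ≃ₗ[ZMod 2] V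

/-- Cohen conditions: finite partial functions `V × ℕ ⇀ {true, false}` given by their graphs. -/
def Cond : Type := {s : Finset (V × ℕ × Bool) // ∀ v n, ¬ ((v, n, true) ∈ s ∧ (v, n, false) ∈ s)}

namespace Cond

instance : PartialOrder Cond where
  le p q := q.1 ⊆ p.1
  le_refl p := Finset.Subset.refl _
  le_trans p q r h h' := Finset.Subset.trans h' h
  le_antisymm p q h h' := Subtype.ext (Finset.Subset.antisymm h' h)

instance : OrderTop Cond where
  top := ⟨∅, by simp⟩
  le_top p := Finset.empty_subset _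

theorem le_def (p q : Cond) : p ≤ q ↔ ∀ x ∈ q.1, x ∈ p.1 := Iff.rfl

instance : Countable Cond := by
  unfold Cond; infer_instance

/-- the embedding `(v, n, b) ↦ (g v, n, b)` -/
def emb (g : GLV) : (V × ℕ × Bool) ↪ (V × ℕ × Bool) :=
  ⟨fun x => (g x.1, x.2), fun x y h => by
    simp only [Prod.mk.injEq] at h
    exact Prod.ext (g.injective h.1) h.2⟩

theorem mem_map_emb (g : GLV) (s : Finset (V × ℕ × Bool)) (v : V) (x : ℕ × Bool) :
    (v, x) ∈ s.map (emb g) ↔ (g⁻¹ • v, x) ∈ s := by
  simp only [Finset.mem_map, emb, Function.Embedding.coeFn_mk, Prod.exists, Prod.mk.injEq]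
  constructor
  · rintro ⟨a, b, c, h, rfl, h2⟩
    have : g⁻¹ • g a = a := by
      show g.symm (g a) = a
      simp
    rw [this]
    rcases x with ⟨x1, x2⟩
    cases h2
    exact h
  · intro h
    refine ⟨g⁻¹ • v, x.1, x.2, h, ?_, rfl⟩
    show g (g.symm v) = v
    simp

instance : MulAction GLV Cond where
  smul g p := ⟨p.1.map (emb g), by
    intro v n h
    rw [mem_map_emb, mem_map_emb] at h
    exact p.2 _ _ h⟩
  one_smul p := by
    apply Subtype.ext
    ext ⟨v, x⟩
    show (v, x) ∈ p.1.map (emb 1) ↔ _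
    rw [mem_map_emb]; simp
  mul_smul g h p := by
    apply Subtype.ext
    ext ⟨v, x⟩
    show (v, x) ∈ p.1.map (emb (g * h)) ↔ (v, x) ∈ (p.1.map (emb h)).map (emb g)
    rw [mem_map_emb, mem_map_emb, mem_map_emb, mul_inv_rev, mul_smul]

theorem mem_smul (g : GLV) (p : Cond) (v : V) (x : ℕ × Bool) :
    (v, x) ∈ (g • p).1 ↔ (g⁻¹ • v, x) ∈ p.1 := mem_map_emb g p.1 v x

theorem apply_mem_smul (g : GLV) (p : Cond) (v : V) (x : ℕ × Bool) (h : (v, x) ∈ p.1) :
    (g • v, x) ∈ (g • p).1 := by
  rw [mem_smul, inv_smul_smul]; exact h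

/-- the subspace spanned by the vectors occurring in a condition -/
def sp (p : Cond) : Submodule (ZMod 2) V :=
  Submodule.span (ZMod 2) (Prod.fst '' (p.1 : Set (V × ℕ × Bool)))

instance (p : Cond) : FiniteDimensional (ZMod 2) p.sp :=
  FiniteDimensional.span_of_finite _ (p.1.finite_toSet.image _)

theorem mem_sp {p : Cond} {v : V} {x : ℕ × Bool} (h : (v, x) ∈ p.1) : v ∈ p.sp :=
  Submodule.subset_span ⟨(v, x), h, rfl⟩

/-- two conditions are compatible -/
def Compat (p q : Cond) : Prop := ∀ v n b b', (v, n, b) ∈ p.1 → (v, n, b') ∈ q.1 → b = b'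

/-- the union of two compatible conditions -/
def join (p q : Cond) (h : Compat p q) : Cond :=
  open Classical in
  ⟨p.1 ∪ q.1, by
    rintro v n ⟨h1, h2⟩
    rw [Finset.mem_union] at h1 h2
    rcases h1 with h1 | h1 <;> rcases h2 with h2 | h2
    · exact p.2 v n ⟨h1, h2⟩
    · exact absurd (h v n _ _ h1 h2) (by simp)
    · exact absurd (h v n _ _ h2 h1) (by simp)
    · exact q.2 v n ⟨h1, h2⟩⟩

theorem mem_join (p q : Cond) (h : Compat p q) (x : V × ℕ × Bool) :
    x ∈ (join p q h).1 ↔ x ∈ p.1 ∨ x ∈ q.1 := by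
  classical
  simp [join]

theorem join_le_left (p q : Cond) (h : Compat p q) : join p q h ≤ p :=
  fun x hx => (mem_join p q h x).2 (Or.inl hx)

theorem join_le_right (p q : Cond) (h : Compat p q) : join p q h ≤ q :=
  fun x hx => (mem_join p q h x).2 (Or.inr hx)

theorem Compat.join_right {p q r : Cond} (h : Compat q r) (h1 : Compat p q) (h2 : Compat p r) :
    Compat p (join q r h) := by
  intro v n b b' hb hb'
  rw [mem_join] at hb'
  rcases hb' with hb' | hb'
  · exact h1 v n b b' hb hb'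
  · exact h2 v n b b' hb hb'

theorem smul_mono (g : GLV) (p q : Cond) (h : p ≤ q) : g • p ≤ g • q := by
  rintro ⟨v, x⟩ hx
  rw [mem_smul] at hx ⊢
  exact h hx

theorem smul_top (g : GLV) : g • (⊤ : Cond) = ⊤ := by
  apply Subtype.ext
  rfl

/-- the condition with the single entry `(v, n, b)` -/
def sing (v : V) (n : ℕ) (b : Bool) : Cond :=
  ⟨{(v, n, b)}, by
    rintro w m ⟨h1, h2⟩
    simp only [Finset.mem_singleton, Prod.mk.injEq] at h1 h2
    have := h1.2.2.trans h2.2.2.symm
    simp at this⟩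

theorem mem_sing (v : V) (n : ℕ) (b : Bool) (x : V × ℕ × Bool) :
    x ∈ (sing v n b).1 ↔ x = (v, n, b) := Finset.mem_singleton

theorem le_sing (p : Cond) (v : V) (n : ℕ) (b : Bool) : p ≤ sing v n b ↔ (v, n, b) ∈ p.1 := by
  constructor
  · intro h; exact h ((mem_sing _ _ _ _).2 rfl)
  · intro h x hx
    rw [mem_sing] at hx
    rw [hx]; exact h

theorem smul_sing (g : GLV) (v : V) (n : ℕ) (b : Bool) : g • sing v n b = sing (g • v) n b := by
  apply Subtype.ext
  ext ⟨w, x⟩
  rw [mem_smul]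
  show (g⁻¹ • w, x) ∈ (sing v n b).1 ↔ (w, x) ∈ (sing (g • v) n b).1
  rw [mem_sing, mem_sing]
  simp only [Prod.mk.injEq, inv_smul_eq_iff]

end Cond

/-- the pointwise stabiliser of a subspace -/
def Fix (D : Submodule (ZMod 2) V) : Subgroup GLV where
  carrier := {g | ∀ v ∈ D, g • v = v}
  one_mem' v _ := one_smul _ v
  mul_mem' {g h} hg hh v hv := by rw [mul_smul, hh v hv, hg v hv]
  inv_mem' {g} hg v hv := by
    have := hg v hv
    rw [inv_smul_eq_iff]; exact this.symm

theorem mem_Fix {D : Submodule (ZMod 2) V} {g : GLV} : g ∈ Fix D ↔ ∀ v ∈ D, g • v = v := Iff.rfl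

theorem Fix_anti {D D' : Submodule (ZMod 2) V} (h : D ≤ D') : Fix D' ≤ Fix D :=
  fun _ hg v hv => hg v (h hv)

/-- `g D` -/
def mv (g : GLV) (D : Submodule (ZMod 2) V) : Submodule (ZMod 2) V := D.map g.toLinearMap

theorem mem_mv {g : GLV} {D : Submodule (ZMod 2) V} {v : V} : v ∈ mv g D ↔ g⁻¹ • v ∈ D := by
  unfold mv
  rw [Submodule.mem_map]
  constructor
  · rintro ⟨y, hy, rfl⟩
    have : g⁻¹ • (g.toLinearMap y) = y := by
      show g.symm (g y) = y
      simp
    rw [this]; exact hy
  · intro h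
    refine ⟨_, h, ?_⟩
    show g (g.symm v) = v
    simp

theorem smul_mem_mv {g : GLV} {D : Submodule (ZMod 2) V} {v : V} (h : v ∈ D) : g • v ∈ mv g D := by
  rw [mem_mv, inv_smul_smul]; exact h

instance (g : GLV) (D : Submodule (ZMod 2) V) [FiniteDimensional (ZMod 2) D] :
    FiniteDimensional (ZMod 2) (mv g D) := by
  unfold mv; infer_instance

/-- The symmetric system of the Cohen forcing indexed by `V`. -/
def CS : SymSys Cond GLV where
  smul_mono := Cond.smul_mono
  smul_top := Cond.smul_top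
  opn := {H | ∃ D : Submodule (ZMod 2) V, FiniteDimensional (ZMod 2) D ∧ Fix D ≤ H}
  top_mem := ⟨⊥, inferInstance, le_top⟩
  inf_mem := by
    rintro H ⟨D, hD, h⟩ K ⟨D', hD', h'⟩
    exact ⟨D ⊔ D', inferInstance, le_inf ((Fix_anti le_sup_left).trans h)
      ((Fix_anti le_sup_right).trans h')⟩
  up_mem := by
    rintro H ⟨D, hD, h⟩ K hK
    exact ⟨D, hD, h.trans hK⟩
  conj_mem := by
    rintro H ⟨D, hD, h⟩ g
    refine ⟨Fix (mv g D), ⟨mv g D, inferInstance, le_rfl⟩, fun k hk => h ?_⟩
    intro v hv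
    have := hk (g • v) (smul_mem_mv hv)
    rw [mul_smul, mul_smul, this, inv_smul_smul]

end Pool.Agent.SymZF
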