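import Mathlib

/-!
Definitions used in the statement about models of ZF: first-order formulas of the language of
set theory, satisfaction, the axioms of ZF, and the compactness principles `K_{K_2}` and
`K_{3LIN_2}` evaluated inside a structure `(M, E)`.
-/

namespace Pool.Agent.SymZF

/-- First-order formulas of the language of set theory (one binary relation symbol and equality)
with free variables `v_0, ..., v_{n-1}`.  In `all φ` the bound variable is `v_0` of `φ`, and the
variable `v_{i+1}` of `φ` is the variable `v_i` of `all φ`. -/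
inductive Fml : ℕ → Type
  | mem {n : ℕ} (i j : Fin n) : Fml n
  | eq {n : ℕ} (i j : Fin n) : Fml n
  | neg {n : ℕ} (φ : Fml n) : Fml n
  | and {n : ℕ} (φ ψ : Fml n) : Fml n
  | all {n : ℕ} (φ : Fml (n + 1)) : Fml n

/-- `cns x s` is the assignment `x, s 0, s 1, ...`. -/
def cns {M : Type*} {n : ℕ} (x : M) (s : Fin n → M) : Fin (n + 1) → M :=
  fun i => Fin.cases x s i

/-- Tarski satisfaction of a formula in the structure `(M, E)`; `E x y` is read `x ∈ y`. -/
def Sat {M : Type*} (E : M → M → Prop) : {n : ℕ} → Fml n → (Fin n → M) → Prop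
  | _, .mem i j, s => E (s i) (s j)
  | _, .eq i j, s => s i = s j
  | _, .neg φ, s => ¬ Sat E φ s
  | _, .and φ ψ, s => Sat E φ s ∧ Sat E ψ s
  | _, .all φ, s => ∀ x : M, Sat E φ (cns x s)

/-- `(M, E)` is a model of Zermelo-Fraenkel set theory ZF (no choice): extensionality,
foundation, pairing, union, power set, infinity, and the schemes of separation and replacement
for all first-order formulas with parameters. -/
structure ZF {M : Type*} (E : M → M → Prop) : Prop where
  ext : ∀ x y, (∀ z, E z x ↔ E z y) → x = y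
  found : ∀ x, (∃ y, E y x) → ∃ y, E y x ∧ ∀ z, E z y → ¬ E z x
  pair : ∀ x y, ∃ u, ∀ w, E w u ↔ (w = x ∨ w = y)
  union : ∀ x, ∃ u, ∀ w, E w u ↔ ∃ y, E y x ∧ E w y
  power : ∀ x, ∃ u, ∀ y, E y u ↔ ∀ z, E z y → E z x
  inf : ∃ w, (∃ e, (∀ z, ¬ E z e) ∧ E e w) ∧
    ∀ x, E x w → ∃ y, E y w ∧ ∀ z, E z y ↔ (E z x ∨ z = x)
  sep : ∀ (n : ℕ) (φ : Fml (n + 1)) (s : Fin n → M) (a : M),
    ∃ b, ∀ x, E x b ↔ (E x a ∧ Sat E φ (cns x s))
  repl : ∀ (n : ℕ) (φ : Fml (n + 2)) (s : Fin n → M) (a : M),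
    (∀ x, E x a → ∃! y, Sat E φ (cns y (cns x s))) →
      ∃ b, ∀ y, E y b ↔ ∃ x, E x a ∧ Sat E φ (cns y (cns x s))

section
variable {M : Type*} (E : M → M → Prop)

/-- `x` is a subset of `y`. -/
def IsSub (x y : M) : Prop := ∀ z, E z x → E z y

/-- `y` is the number `0`, i.e. the empty set. -/
def IsZero (y : M) : Prop := ∀ z, ¬ E z y

/-- `y` is the number `1 = {0}`. -/
def IsOne (y : M) : Prop := ∀ z, E z y ↔ IsZero E z

/-- `p` is the Kuratowski pair `(x, y) = {{x}, {x, y}}`. -/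
def IsPair (p x y : M) : Prop :=
  ∀ z, E z p ↔ ((∀ w, E w z ↔ w = x) ∨ (∀ w, E w z ↔ (w = x ∨ w = y)))

/-- `(x, y) ∈ R`. -/
def In2 (R x y : M) : Prop := ∃ p, IsPair E p x y ∧ E p R

/-- `((x, y), z) ∈ R`. -/
def In3 (R x y z : M) : Prop := ∃ q p, IsPair E q x y ∧ IsPair E p q z ∧ E p R

/-- `R` is a binary relation on `X`, i.e. a subset of `X × X`. -/
def Rel2 (R X : M) : Prop := ∀ p, E p R → ∃ x y, E x X ∧ E y X ∧ IsPair E p x y

/-- `R` is a ternary relation on `X`, i.e. a subset of `(X × X) × X`. -/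
def Rel3 (R X : M) : Prop :=
  ∀ p, E p R → ∃ x y z q, E x X ∧ E y X ∧ E z X ∧ IsPair E q x y ∧ IsPair E p q z

/-- `F` is finite (in the sense of Kuratowski, which in ZF is equivalent to being equinumerous
with a natural number): `F` belongs to every family of sets which contains the empty set and is
closed under adjoining one element of `F`. -/
def IsFin (F : M) : Prop :=
  ∀ A, (∀ e, IsZero E e → E e A) →
    (∀ Y Z x, E Y A → E x F → (∀ w, E w Z ↔ (E w Y ∨ w = x)) → E Z A) → E F A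

/-- `f` is a function from `X` to `{0, 1}` (a set of pairs). -/
def IsMap (f X : M) : Prop :=
  (∀ p, E p f → ∃ x y, E x X ∧ (IsZero E y ∨ IsOne E y) ∧ IsPair E p x y) ∧
    ∀ x, E x X → ∃! y, In2 E f x y

/-- `f(x) = 1`. -/
def ValOne (f x : M) : Prop := ∃ y, IsOne E y ∧ In2 E f x y

/-- `f` is a homomorphism from the (sub)structure with domain `F` and the edge relation
`R ∩ F²` to `K_2`, i.e. `f : F → {0,1}` and `f(x) ≠ f(y)` for all `x, y ∈ F` with
`(x, y) ∈ R`. -/
def HomK2 (f F R : M) : Prop :=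
  IsMap E f F ∧ ∀ x y, E x F → E y F → In2 E R x y → ¬ (ValOne E f x ↔ ValOne E f y)

/-- The compactness principle `K_{K_2}` holds in `(M, E)`: for every set `X` and every binary
relation `R` on `X`, if for every finite `F ⊆ X` there is a homomorphism from `(F, R ∩ F²)` to
`K_2`, then there is a homomorphism from `(X, R)` to `K_2`. -/
def CompactK2 : Prop :=
  ∀ X R, Rel2 E R X → (∀ F, IsSub E F X → IsFin E F → ∃ f, HomK2 E f F R) → ∃ f, HomK2 E f X R

/-- `f(x) + f(y) + f(z) = 1` in `𝔽₂`. -/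
def SumOne (f x y z : M) : Prop :=
  Xor (ValOne E f x) (Xor (ValOne E f y) (ValOne E f z))

/-- `f` is a homomorphism from the (sub)structure with domain `F` and relations `R₀ ∩ F³`,
`R₁ ∩ F³` to `3LIN_2`: `f : F → {0,1}`, `f(x) + f(y) + f(z) = 0` whenever `(x, y, z) ∈ R₀` and
`f(x) + f(y) + f(z) = 1` whenever `(x, y, z) ∈ R₁` (`x, y, z ∈ F`). -/
def HomLin (f F R₀ R₁ : M) : Prop :=
  IsMap E f F ∧
    (∀ x y z, E x F → E y F → E z F → In3 E R₀ x y z → ¬ SumOne E f x y z) ∧
    (∀ x y z, E x F → E y F → E z F → In3 E R₁ x y z → SumOne E f x y z)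

/-- The compactness principle `K_{3LIN_2}` holds in `(M, E)`: for every set `X` and all ternary
relations `R₀`, `R₁` on `X`, if for every finite `F ⊆ X` there is a homomorphism from
`(F, R₀ ∩ F³, R₁ ∩ F³)` to `3LIN_2`, then there is one from `(X, R₀, R₁)`. -/
def CompactLin : Prop :=
  ∀ X R₀ R₁, Rel3 E R₀ X → Rel3 E R₁ X →
    (∀ F, IsSub E F X → IsFin E F → ∃ f, HomLin E f F R₀ R₁) → ∃ f, HomLin E f X R₀ R₁

end

end Pool.Agent.SymZF
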