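import Pool.Agent.SymZF.Names

/-!
Derived connectives, renaming of variables, and the forcing relation for formulas over the
hereditarily symmetric names, with its basic properties.
-/

namespace Pool.Agent.SymZF

section Cns

variable {M : Type*} {n : ℕ}

@[simp] theorem cns_zero (x : M) (s : Fin n → M) : cns x s 0 = x := rfl

@[simp] theorem cns_succ (x : M) (s : Fin n → M) (i : Fin n) : cns x s i.succ = s i := rfl

@[simp] theorem cns_one (x : M) (s : Fin (n + 1) → M) : cns x s 1 = s 0 := rfl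

@[simp] theorem cns_two (x : M) (s : Fin (n + 2) → M) : cns x s 2 = s 1 := rfl

@[simp] theorem cns_three (x : M) (s : Fin (n + 3) → M) : cns x s 3 = s 2 := rfl

@[simp] theorem cns_four (x : M) (s : Fin (n + 4) → M) : cns x s 4 = s 3 := rfl

@[simp] theorem cns_five (x : M) (s : Fin (n + 5) → M) : cns x s 5 = s 4 := rfl

end Cns

namespace Fml

/-- implication -/
def imp {n : ℕ} (φ ψ : Fml n) : Fml n := neg (and φ (neg ψ))

/-- disjunction -/
def or {n : ℕ} (φ ψ : Fml n) : Fml n := neg (and (neg φ) (neg ψ))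

/-- equivalence -/
def iff {n : ℕ} (φ ψ : Fml n) : Fml n := and (imp φ ψ) (imp ψ φ)

/-- existential quantifier -/
def ex {n : ℕ} (φ : Fml (n + 1)) : Fml n := neg (all (neg φ))

/-- lift of a renaming under a quantifier -/
def lft {n m : ℕ} (f : Fin n → Fin m) : Fin (n + 1) → Fin (m + 1) := cns 0 (fun i => (f i).succ)

/-- renaming of variables -/
def ren : {n : ℕ} → Fml n → {m : ℕ} → (Fin n → Fin m) → Fml m
  | _, mem i j, _, f => mem (f i) (f j)
  | _, eq i j, _, f => eq (f i) (f j)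
  | _, neg φ, _, f => neg (ren φ f)
  | _, and φ ψ, _, f => and (ren φ f) (ren ψ f)
  | _, all φ, _, f => all (ren φ (lft f))

end Fml

theorem cns_comp_lft {M : Type*} {n m : ℕ} (x : M) (s : Fin m → M) (f : Fin n → Fin m) :
    (cns x s) ∘ (Fml.lft f) = cns x (s ∘ f) := by
  funext i
  refine Fin.cases ?_ (fun j => ?_) i
  · rfl
  · rfl

section Sat

variable {M : Type*} {E : M → M → Prop} {n : ℕ}

@[simp] theorem Sat_mem (i j : Fin n) (s : Fin n → M) : Sat E (.mem i j) s ↔ E (s i) (s j) := by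
  rw [Sat]
@[simp] theorem Sat_eq (i j : Fin n) (s : Fin n → M) : Sat E (.eq i j) s ↔ s i = s j := by
  rw [Sat]
@[simp] theorem Sat_neg (φ : Fml n) (s : Fin n → M) : Sat E (.neg φ) s ↔ ¬ Sat E φ s := by
  rw [Sat]
@[simp] theorem Sat_and (φ ψ : Fml n) (s : Fin n → M) :
    Sat E (.and φ ψ) s ↔ (Sat E φ s ∧ Sat E ψ s) := by
  rw [Sat]
@[simp] theorem Sat_all (φ : Fml (n + 1)) (s : Fin n → M) :
    Sat E (.all φ) s ↔ ∀ x, Sat E φ (cns x s) := by
  rw [Sat]
@[simp] theorem Sat_imp (φ ψ : Fml n) (s : Fin n → M) :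
    Sat E (.imp φ ψ) s ↔ (Sat E φ s → Sat E ψ s) := by
  simp [Fml.imp]
@[simp] theorem Sat_or (φ ψ : Fml n) (s : Fin n → M) :
    Sat E (.or φ ψ) s ↔ (Sat E φ s ∨ Sat E ψ s) := by
  simp [Fml.or]; tauto
@[simp] theorem Sat_iff (φ ψ : Fml n) (s : Fin n → M) :
    Sat E (.iff φ ψ) s ↔ (Sat E φ s ↔ Sat E ψ s) := by
  simp [Fml.iff]; tauto
@[simp] theorem Sat_ex (φ : Fml (n + 1)) (s : Fin n → M) :
    Sat E (.ex φ) s ↔ ∃ x, Sat E φ (cns x s) := by
  simp [Fml.ex]

@[simp] theorem Sat_ren : ∀ {n : ℕ} (φ : Fml n) {m : ℕ} (f : Fin n → Fin m) (s : Fin m → M),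
    Sat E (φ.ren f) s ↔ Sat E φ (s ∘ f)
  | _, .mem i j, _, f, s => by simp [Fml.ren]
  | _, .eq i j, _, f, s => by simp [Fml.ren]
  | _, .neg φ, _, f, s => by simp [Fml.ren, Sat_ren φ]
  | _, .and φ ψ, _, f, s => by simp [Fml.ren, Sat_ren φ, Sat_ren ψ]
  | _, .all φ, _, f, s => by simp [Fml.ren, Sat_ren φ, cns_comp_lft]

end Sat

section Frc

variable {P G : Type} [PartialOrder P] [OrderTop P] [Group G] [MulAction G P] (S : SymSys P G)

/-- The forcing relation for the symmetric model: `Frc S φ s r` means that the condition `r`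
forces `φ(s)` when all quantifiers range over hereditarily symmetric names. -/
def Frc : {n : ℕ} → Fml n → (Fin n → HSN S) → P → Prop
  | _, .mem i j, s, r => Nm.Mem (s i).1 (s j).1 r
  | _, .eq i j, s, r => Nm.Eqv (s i).1 (s j).1 r
  | _, .neg φ, s, r => ∀ r' ≤ r, ¬ Frc φ s r'
  | _, .and φ ψ, s, r => Frc φ s r ∧ Frc ψ s r
  | _, .all φ, s, r => ∀ x : HSN S, Frc φ (cns x s) r

variable {S} {n : ℕ}

@[simp] theorem Frc_mem (i j : Fin n) (s : Fin n → HSN S) (r : P) :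
    Frc S (.mem i j) s r ↔ Nm.Mem (s i).1 (s j).1 r := by rw [Frc]
@[simp] theorem Frc_eq (i j : Fin n) (s : Fin n → HSN S) (r : P) :
    Frc S (.eq i j) s r ↔ Nm.Eqv (s i).1 (s j).1 r := by rw [Frc]
@[simp] theorem Frc_neg (φ : Fml n) (s : Fin n → HSN S) (r : P) :
    Frc S (.neg φ) s r ↔ ∀ r' ≤ r, ¬ Frc S φ s r' := by rw [Frc]
@[simp] theorem Frc_and (φ ψ : Fml n) (s : Fin n → HSN S) (r : P) :
    Frc S (.and φ ψ) s r ↔ (Frc S φ s r ∧ Frc S ψ s r) := by rw [Frc]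
@[simp] theorem Frc_all (φ : Fml (n + 1)) (s : Fin n → HSN S) (r : P) :
    Frc S (.all φ) s r ↔ ∀ x, Frc S φ (cns x s) r := by rw [Frc]

/-- monotonicity -/
theorem Frc.mono : ∀ {n : ℕ} {φ : Fml n} {s : Fin n → HSN S} {r r' : P},
    Frc S φ s r → r' ≤ r → Frc S φ s r'
  | _, .mem _ _, _, _, _, h, hr => by
    rw [Frc_mem] at h ⊢; exact h.mono hr
  | _, .eq _ _, _, _, _, h, hr => by
    rw [Frc_eq] at h ⊢; exact h.mono hr
  | _, .neg _, _, _, _, h, hr => by
    rw [Frc_neg] at h ⊢; exact fun t ht => h t (ht.trans hr)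
  | _, .and _ _, _, _, _, h, hr => by
    rw [Frc_and] at h ⊢; exact ⟨h.1.mono hr, h.2.mono hr⟩
  | _, .all _, _, _, _, h, hr => by
    rw [Frc_all] at h ⊢; exact fun x => (h x).mono hr

/-- locality: forcing is tested on a dense set -/
theorem Frc.local : ∀ {n : ℕ} {φ : Fml n} {s : Fin n → HSN S} {r : P},
    (∀ r' ≤ r, ∃ t ≤ r', Frc S φ s t) → Frc S φ s r
  | _, .mem _ _, _, _, h => by
    simp only [Frc_mem] at h ⊢; exact Nm.Mem.local h
  | _, .eq _ _, _, _, h => by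
    simp only [Frc_eq] at h ⊢; exact Nm.Eqv.local h
  | _, .neg φ, s, r, h => by
    simp only [Frc_neg] at h ⊢
    intro t ht hf
    obtain ⟨u, hu, hn⟩ := h t ht
    exact hn u le_rfl (hf.mono hu)
  | _, .and _ _, _, _, h => by
    simp only [Frc_and] at h ⊢
    exact ⟨Frc.local fun t ht => (h t ht).imp fun u hu => ⟨hu.1, hu.2.1⟩,
      Frc.local fun t ht => (h t ht).imp fun u hu => ⟨hu.1, hu.2.2⟩⟩
  | _, .all _, _, _, h => by
    simp only [Frc_all] at h ⊢
    exact fun x => Frc.local fun t ht => (h t ht).imp fun u hu => ⟨hu.1, hu.2 x⟩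

/-- congruence -/
theorem Frc.congr : ∀ {n : ℕ} {φ : Fml n} {s s' : Fin n → HSN S} {r : P},
    (∀ i, Nm.Eqv (s i).1 (s' i).1 r) → Frc S φ s r → Frc S φ s' r
  | _, .mem i j, _, _, _, e, h => by
    rw [Frc_mem] at h ⊢; exact (h.congr_left (e i)).congr_right (e j)
  | _, .eq i j, _, _, _, e, h => by
    rw [Frc_eq] at h ⊢; exact ((e i).symm.trans h).trans (e j)
  | _, .neg _, _, _, _, e, h => by
    rw [Frc_neg] at h ⊢
    exact fun t ht hf => h t ht (Frc.congr (fun i => ((e i).mono ht).symm) hf)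
  | _, .and _ _, _, _, _, e, h => by
    rw [Frc_and] at h ⊢; exact ⟨h.1.congr e, h.2.congr e⟩
  | _, .all _, _, _, _, e, h => by
    rw [Frc_all] at h ⊢
    refine fun x => Frc.congr (fun i => ?_) (h x)
    refine Fin.cases ?_ (fun j => ?_) i
    · exact Nm.Eqv.refl _ _
    · exact e j

theorem cns_smul {m : ℕ} (g : G) (x : HSN S) (s : Fin m → HSN S) :
    (fun i => g • cns x s i) = cns (g • x) (fun i => g • s i) := by
  funext i
  refine Fin.cases ?_ (fun j => ?_) i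
  · rfl
  · rfl

/-- equivariance -/
theorem Frc.smul : ∀ {n : ℕ} {φ : Fml n} {s : Fin n → HSN S} {r : P} (g : G),
    Frc S φ s r → Frc S φ (fun i => g • s i) (g • r)
  | _, .mem i j, _, _, g, h => by
    rw [Frc_mem] at h ⊢; exact S.mem_smul g h
  | _, .eq i j, _, _, g, h => by
    rw [Frc_eq] at h ⊢; exact S.eqv_smul g h
  | _, .neg φ, s, r, g, h => by
    rw [Frc_neg] at h ⊢
    intro t ht hf
    have h1 := Frc.smul g⁻¹ hf
    simp only [inv_smul_smul] at h1
    exact h _ (by rwa [← S.le_smul_iff]) h1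
  | _, .and _ _, _, _, g, h => by
    rw [Frc_and] at h ⊢; exact ⟨h.1.smul g, h.2.smul g⟩
  | _, .all φ, s, r, g, h => by
    rw [Frc_all] at h ⊢
    intro x
    have h1 := Frc.smul g (h (g⁻¹ • x))
    rw [cns_smul, smul_inv_smul] at h1
    exact h1

theorem Frc_smul_iff {φ : Fml n} {s : Fin n → HSN S} {r : P} (g : G) :
    Frc S φ (fun i => g • s i) (g • r) ↔ Frc S φ s r := by
  refine ⟨fun h => ?_, fun h => h.smul g⟩
  have := h.smul g⁻¹
  simpa using this

/-- a condition which does not force `φ` has an extension which forces `¬ φ` -/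
theorem Frc.exists_neg {φ : Fml n} {s : Fin n → HSN S} {r : P} (h : ¬ Frc S φ s r) :
    ∃ r' ≤ r, Frc S (.neg φ) s r' := by
  by_contra hc
  push Not at hc
  apply h
  apply Frc.local
  intro t ht
  have := hc t ht
  rw [Frc_neg] at this
  push Not at this
  exact this

theorem Frc.not_and_neg {φ : Fml n} {s : Fin n → HSN S} {r : P} (h : Frc S φ s r)
    (h' : Frc S (.neg φ) s r) : False := by
  rw [Frc_neg] at h'
  exact h' r le_rfl h

theorem Frc_imp (φ ψ : Fml n) (s : Fin n → HSN S) (r : P) :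
    Frc S (.imp φ ψ) s r ↔ ∀ r' ≤ r, Frc S φ s r' → Frc S ψ s r' := by
  rw [Fml.imp, Frc_neg]
  constructor
  · intro h t ht hφ
    by_contra hψ
    obtain ⟨u, hu, hn⟩ := Frc.exists_neg hψ
    exact h u (hu.trans ht) (by rw [Frc_and]; exact ⟨hφ.mono hu, hn⟩)
  · intro h t ht hc
    rw [Frc_and] at hc
    exact (h t ht hc.1).not_and_neg hc.2

theorem Frc_or (φ ψ : Fml n) (s : Fin n → HSN S) (r : P) :
    Frc S (.or φ ψ) s r ↔ ∀ r' ≤ r, ∃ t ≤ r', Frc S φ s t ∨ Frc S ψ s t := by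
  rw [Fml.or, Frc_neg]
  constructor
  · intro h t ht
    have h1 := h t ht
    rw [Frc_and] at h1
    by_contra hc
    push Not at hc
    apply h1
    rw [Frc_neg, Frc_neg]
    exact ⟨fun u hu => (hc u hu).1, fun u hu => (hc u hu).2⟩
  · intro h t ht hc
    rw [Frc_and, Frc_neg, Frc_neg] at hc
    obtain ⟨u, hu, h1 | h1⟩ := h t ht
    · exact hc.1 u hu h1
    · exact hc.2 u hu h1

theorem Frc_iff (φ ψ : Fml n) (s : Fin n → HSN S) (r : P) :
    Frc S (.iff φ ψ) s r ↔ ∀ r' ≤ r, (Frc S φ s r' ↔ Frc S ψ s r') := by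
  rw [Fml.iff, Frc_and, Frc_imp, Frc_imp]
  constructor
  · rintro ⟨h1, h2⟩ t ht
    exact ⟨h1 t ht, h2 t ht⟩
  · intro h
    exact ⟨fun t ht => (h t ht).1, fun t ht => (h t ht).2⟩

theorem Frc_ex (φ : Fml (n + 1)) (s : Fin n → HSN S) (r : P) :
    Frc S (.ex φ) s r ↔ ∀ r' ≤ r, ∃ t ≤ r', ∃ x, Frc S φ (cns x s) t := by
  rw [Fml.ex, Frc_neg]
  constructor
  · intro h t ht
    have h1 := h t ht
    rw [Frc_all] at h1
    push Not at h1
    obtain ⟨x, hx⟩ := h1
    rw [Frc_neg] at hx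
    push Not at hx
    obtain ⟨u, hu, hf⟩ := hx
    exact ⟨u, hu, x, hf⟩
  · intro h t ht hc
    rw [Frc_all] at hc
    obtain ⟨u, hu, x, hf⟩ := h t ht
    have := hc x
    rw [Frc_neg] at this
    exact this u hu hf

@[simp] theorem Frc_ren : ∀ {n : ℕ} (φ : Fml n) {m : ℕ} (f : Fin n → Fin m) (s : Fin m → HSN S)
    (r : P), Frc S (φ.ren f) s r ↔ Frc S φ (s ∘ f) r
  | _, .mem i j, _, f, s, r => by simp [Fml.ren]
  | _, .eq i j, _, f, s, r => by simp [Fml.ren]
  | _, .neg φ, _, f, s, r => by simp [Fml.ren, Frc_ren φ]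
  | _, .and φ ψ, _, f, s, r => by simp [Fml.ren, Frc_ren φ, Frc_ren ψ]
  | _, .all φ, _, f, s, r => by simp [Fml.ren, Frc_ren φ, cns_comp_lft]

end Frc

end Pool.Agent.SymZF
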