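import Pool.Agent.SymZF.Cond
import Pool.Agent.SymZF.Build

/-!
Statements of the modules of the development (see `PROOF.md` of the team store).
-/

noncomputable section

namespace Pool.Agent.SymZF

/-! ### Generic symmetric systems -/

/-- All axioms of ZF are forced. -/
structure FrcZF {P G : Type} [PartialOrder P] [OrderTop P] [Group G] [MulAction G P]
    (S : SymSys P G) : Prop where
  ext : ∀ s r, Frc S .cExt s r
  found : ∀ s r, Frc S .cFound s r
  pairing : ∀ s r, Frc S .cPairing s r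
  union : ∀ s r, Frc S .cUnion s r
  power : ∀ s r, Frc S .cPower s r
  inf : ∀ s r, Frc S .cInf s r
  sep : ∀ (n : ℕ) (φ : Fml (n + 1)) (s : Fin (n + 1) → HSN S) (r : P), Frc S (.cSep φ) s r
  repl : ∀ (n : ℕ) (φ : Fml (n + 2)) (s : Fin (n + 1) → HSN S) (r : P), Frc S (.cRepl φ) s r

/-- Module CL: comprehension for symmetric `P`-valued predicates. -/
def Stmt_CL : Prop := ∀ (P G : Type) [PartialOrder P] [OrderTop P] [Group G] [MulAction G P]
    (S : SymSys P G) (a : HSN S) (Ψ : HSN S → P → Prop),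
    (∀ x r r', Ψ x r → r' ≤ r → Ψ x r') →
    (∀ x r, (∀ r' ≤ r, ∃ t ≤ r', Ψ x t) → Ψ x r) →
    (∀ x y r, Nm.Eqv x.1 y.1 r → Ψ x r → Ψ y r) →
    (∃ H ∈ S.opn, ∀ g ∈ H, ∀ x r, Ψ x r → Ψ (g • x) (g • r)) →
    ∃ b : HSN S, ∀ z r, Nm.Mem z.1 b.1 r ↔ (Nm.Mem z.1 a.1 r ∧ Ψ z r)

/-- Modules AxA (extensionality, foundation, pairing, union, infinity) -/
def Stmt_AxA : Prop := ∀ (P G : Type) [PartialOrder P] [OrderTop P] [Group G] [MulAction G P]
    (S : SymSys P G),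
    (∀ s r, Frc S .cExt s r) ∧ (∀ s r, Frc S .cFound s r) ∧ (∀ s r, Frc S .cPairing s r)

/-- Module AxU (union) -/
def Stmt_AxU : Prop := ∀ (P G : Type) [PartialOrder P] [OrderTop P] [Group G] [MulAction G P]
    (S : SymSys P G), ∀ s r, Frc S .cUnion s r

/-- Module AxI (infinity) -/
def Stmt_AxI : Prop := ∀ (P G : Type) [PartialOrder P] [OrderTop P] [Group G] [MulAction G P]
    (S : SymSys P G), ∀ s r, Frc S .cInf s r

/-- Module AxP (power set), from CL -/
def Stmt_AxP : Prop := ∀ (P G : Type) [PartialOrder P] [OrderTop P] [Group G] [MulAction G P]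
    (S : SymSys P G), ∀ s r, Frc S .cPower s r

/-- Module AxS (separation), from CL -/
def Stmt_AxS : Prop := ∀ (P G : Type) [PartialOrder P] [OrderTop P] [Group G] [MulAction G P]
    (S : SymSys P G) (n : ℕ) (φ : Fml (n + 1)) (s : Fin (n + 1) → HSN S) (r : P),
    Frc S (.cSep φ) s r

/-- Module AxR (replacement), from CL -/
def Stmt_AxR : Prop := ∀ (P G : Type) [PartialOrder P] [OrderTop P] [Group G] [MulAction G P]
    (S : SymSys P G) (n : ℕ) (φ : Fml (n + 2)) (s : Fin (n + 1) → HSN S) (r : P),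
    Frc S (.cRepl φ) s r

/-- An enumeration of countably many symmetric names closed under witnesses. -/
def WC {P G : Type} [PartialOrder P] [OrderTop P] [Group G] [MulAction G P]
    (S : SymSys P G) (e : ℕ → HSN S) : Prop :=
  ∀ (n : ℕ) (φ : Fml (n + 1)) (s : Fin n → ℕ) (p : P),
    (∃ x, Frc S φ (cns x (fun i => e (s i))) p) → ∃ k, Frc S φ (cns (e k) (fun i => e (s i))) p

/-- Module WCx: existence of witness-closed enumerations. -/
def Stmt_WCx : Prop := ∀ (P G : Type) [PartialOrder P] [OrderTop P] [Group G] [MulAction G P]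
    [Countable P] (S : SymSys P G) (a : ℕ → HSN S),
    ∃ e : ℕ → HSN S, (∀ k, ∃ m, e m = a k) ∧ WC S e

/-- `U` is a filter which is generic for the countably many names `e`. -/
structure Gen {P G : Type} [PartialOrder P] [OrderTop P] [Group G] [MulAction G P]
    (S : SymSys P G) (e : ℕ → HSN S) (U : Set P) : Prop where
  nonempty : U.Nonempty
  up : ∀ p ∈ U, ∀ q, p ≤ q → q ∈ U
  dir : ∀ p ∈ U, ∀ q ∈ U, ∃ r ∈ U, r ≤ p ∧ r ≤ q
  dec : ∀ (n : ℕ) (φ : Fml n) (s : Fin n → ℕ),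
    ∃ p ∈ U, Frc S φ (fun i => e (s i)) p ∨ Frc S (.neg φ) (fun i => e (s i)) p
  wit : ∀ (n : ℕ) (φ : Fml (n + 1)) (s : Fin n → ℕ),
    (∃ p ∈ U, Frc S (.neg (.all φ)) (fun i => e (s i)) p) →
      ∃ k, ∃ q ∈ U, Frc S (.neg φ) (cns (e k) (fun i => e (s i))) q

/-- Module Genx: existence of generic filters. -/
def Stmt_Genx : Prop := ∀ (P G : Type) [PartialOrder P] [OrderTop P] [Group G] [MulAction G P]
    [Countable P] (S : SymSys P G) (e : ℕ → HSN S), WC S e → ∀ p₀ : P, ∃ U, Gen S e U ∧ p₀ ∈ U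

/-- Module Truth: the quotient structure and the truth lemma. -/
def Stmt_Truth : Prop := ∀ (P G : Type) [PartialOrder P] [OrderTop P] [Group G] [MulAction G P]
    (S : SymSys P G) (e : ℕ → HSN S) (U : Set P), Gen S e U →
    ∃ (M : Type) (E : M → M → Prop) (q : ℕ → M), Function.Surjective q ∧
      ∀ (n : ℕ) (φ : Fml n) (s : Fin n → ℕ),
        Sat E φ (fun i => q (s i)) ↔ ∃ p ∈ U, Frc S φ (fun i => e (s i)) p

/-- Module Sound: formulas true in all models of ZF are forced. -/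
def Stmt_Sound : Prop := ∀ (P G : Type) [PartialOrder P] [OrderTop P] [Group G] [MulAction G P]
    [Countable P] (S : SymSys P G), FrcZF S → ∀ (n : ℕ) (φ : Fml n),
    (∀ (M : Type) (E : M → M → Prop), ZF E → ∀ s, Sat E φ s) → ∀ s r, Frc S φ s r

/-- Module Model: there is a two-valued model of everything that is forced. -/
def Stmt_Model : Prop := ∀ (P G : Type) [PartialOrder P] [OrderTop P] [Group G] [MulAction G P]
    [Countable P] (S : SymSys P G), FrcZF S →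
    ∃ (M : Type) (E : M → M → Prop), ZF E ∧
      ∀ (n : ℕ) (φ : Fml n), (∀ s r, Frc S φ s r) → ∀ s, Sat E φ s

/-! ### Inside a model of ZF -/

/-- Module ZPair -/
def Stmt_ZPair : Prop := ∀ (M : Type) (E : M → M → Prop), ZF E →
    (∀ x y, ∃ p, IsPair E p x y) ∧
    (∀ p x y x' y', IsPair E p x y → IsPair E p x' y' → x = x' ∧ y = y') ∧
    (∀ p q x y, IsPair E p x y → IsPair E q x y → p = q) ∧
    (∃ y, IsZero E y) ∧ (∃ y, IsOne E y) ∧
    (∀ y z, IsZero E y → IsZero E z → y = z) ∧ (∀ y z, IsOne E y → IsOne E z → y = z) ∧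
    (∀ y, IsZero E y → ¬ IsOne E y)

/-- Module ZPar: the parity relation of a graph all of whose finite subgraphs are
2-colourable. -/
def Stmt_ZPar : Prop := ∀ (M : Type) (E : M → M → Prop), ZF E → ∀ X R, Hyp2 E X R →
    (∀ x, E x X → Par E false X R x x) ∧
    (∀ b x y, Par E b X R x y → Par E b X R y x) ∧
    (∀ a b x y z, Par E a X R x y → Par E b X R y z → Par E (xor a b) X R x z) ∧
    (∀ x y, ¬ (Par E false X R x y ∧ Par E true X R x y)) ∧
    (∀ x y, E x X → E y X → In2 E R x y → Par E true X R x y)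

/-- Module ZHom: recognising a 2-colouring. -/
def Stmt_ZHom : Prop := ∀ (M : Type) (E : M → M → Prop), ZF E → ∀ X R f, Hyp2 E X R →
    (∀ p, E p f → ∃ x y, E x X ∧ (IsZero E y ∨ IsOne E y) ∧ IsPair E p x y) →
    (∀ x, E x X → ∃ y, In2 E f x y) →
    (∀ x y y', In2 E f x y → In2 E f x y' → y = y') →
    (∀ x y, E x X → E y X → Par E true X R x y → ¬ (ValOne E f x ↔ ValOne E f y)) →
    HomK2 E f X R

/-! ### Linear algebra in `V` -/

/-- Module GP: general position. -/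
def Stmt_GP : Prop := ∀ (D W Q : Submodule (ZMod 2) V), FiniteDimensional (ZMod 2) W →
    FiniteDimensional (ZMod 2) Q → D ≤ W → ∃ k ∈ Fix D, mv k W ⊓ Q ≤ D

/-- Module EX: gluing. -/
def Stmt_EX : Prop := ∀ (D₁ D₂ : Submodule (ZMod 2) V), FiniteDimensional (ZMod 2) D₁ →
    FiniteDimensional (ZMod 2) D₂ → ∀ u ∈ Fix (D₁ ⊓ D₂), ∀ g ∈ Fix (D₁ ⊓ D₂),
    mv u D₁ ⊓ mv g D₂ ≤ D₁ ⊓ D₂ →
    ∃ t : GLV, (∀ v ∈ D₁, t • v = u • v) ∧ (∀ v ∈ D₂, t • v = g • v)

/-- Module TR: transvections. -/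
def Stmt_TR : Prop := ∀ (W : Submodule (ZMod 2) V) (v w : V),
    v ∉ W ⊔ Submodule.span (ZMod 2) {w} → ∃ h ∈ Fix W, h • v = v + w

/-! ### The combinatorial core -/

/-- A forced partial equivalence relation, invariant under `Fix E₀`. -/
structure ERel (E₀ : Submodule (ZMod 2) V) {X : Type 1} [MulAction GLV X]
    (Θ : Cond → X → X → Prop) : Prop where
  mono : ∀ r r' x y, Θ r x y → r' ≤ r → Θ r' x y
  loc : ∀ r x y, (∀ r' ≤ r, ∃ t ≤ r', Θ t x y) → Θ r x y
  equiv : ∀ g ∈ Fix E₀, ∀ r x y, Θ r x y → Θ (g • r) (g • x) (g • y)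
  symm : ∀ r x y, Θ r x y → Θ r y x
  trans : ∀ r x y z, Θ r x y → Θ r y z → Θ r x z

/-- `(x, q)` is supported by `D` with respect to `Θ`. -/
def Inv {X : Type 1} [MulAction GLV X] (Θ : Cond → X → X → Prop) (x : X) (q : Cond)
    (D : Submodule (ZMod 2) V) : Prop :=
  ∀ g ∈ Fix D, ∀ r, r ≤ q → r ≤ g • q → Θ r (g • x) x

/-- Module LS: supports can be intersected. -/
def Stmt_LS : Prop := ∀ (E₀ : Submodule (ZMod 2) V) (X : Type 1) [MulAction GLV X]
    (Θ : Cond → X → X → Prop), ERel E₀ Θ → ∀ (x₁ x₂ : X) (q₁ q₂ r₀ : Cond)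
    (D₁ D₂ : Submodule (ZMod 2) V), FiniteDimensional (ZMod 2) D₁ →
    FiniteDimensional (ZMod 2) D₂ → E₀ ≤ D₁ → E₀ ≤ D₂ → Inv Θ x₁ q₁ D₁ → Inv Θ x₂ q₂ D₂ →
    r₀ ≤ q₁ → r₀ ≤ q₂ → Θ r₀ x₁ x₂ → Inv Θ x₁ r₀ (D₁ ⊓ D₂)

/-- Forced parity relation. -/
structure PRel (E₀ : Submodule (ZMod 2) V) {X : Type 1} [MulAction GLV X]
    (Φ : Bool → Cond → X → X → Prop) : Prop where
  mono : ∀ b r r' x y, Φ b r x y → r' ≤ r → Φ b r' x y
  loc : ∀ b r x y, (∀ r' ≤ r, ∃ t ≤ r', Φ b t x y) → Φ b r x y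
  equiv : ∀ g ∈ Fix E₀, ∀ b r x y, Φ b r x y → Φ b (g • r) (g • x) (g • y)
  refl : ∀ b r x y, Φ b r x y → Φ false r x x
  symm : ∀ b r x y, Φ b r x y → Φ b r y x
  trans : ∀ a b r x y z, Φ a r x y → Φ b r y z → Φ (xor a b) r x z
  excl : ∀ r x y, ¬ (Φ false r x y ∧ Φ true r x y)
  cont : ∀ x, ∃ D : Submodule (ZMod 2) V, FiniteDimensional (ZMod 2) D ∧
    ∀ g ∈ Fix D, ∀ r, Φ false r x x → Φ false r (g • x) x

/-- Module Trip: every element is connected to one on which the parity is `G`-invariant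
(uses LS, GP). -/
def Stmt_Trip : Prop := ∀ (E₀ : Submodule (ZMod 2) V), FiniteDimensional (ZMod 2) E₀ →
    ∀ (X : Type 1) [MulAction GLV X] (Φ : Bool → Cond → X → X → Prop), PRel E₀ Φ →
    ∀ x q, Φ false q x x → ∃ x' q', q' ≤ q ∧ (∀ r ≤ q', ∃ t ≤ r, ∃ b, Φ b t x x') ∧
      ∀ g ∈ Fix E₀, ∀ r, r ≤ q' → r ≤ g • q' → ¬ Φ true r x' (g • x')

/-- Module Core: a symmetric, coherent and total set of colour assignments. -/
def Stmt_Core : Prop := ∀ (E₀ : Submodule (ZMod 2) V), FiniteDimensional (ZMod 2) E₀ →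
    ∀ (X : Type 1) [MulAction GLV X] (Φ : Bool → Cond → X → X → Prop), PRel E₀ Φ →
    ∃ T : Set (X × Bool × Cond),
      (∀ g ∈ Fix E₀, ∀ x b q, (x, b, q) ∈ T → (g • x, b, g • q) ∈ T) ∧
      (∀ x b q x' b' q' r d, (x, b, q) ∈ T → (x', b', q') ∈ T → r ≤ q → r ≤ q' →
        Φ d r x x' → xor b b' = d) ∧
      (∀ x q, Φ false q x x → ∃ r ≤ q, ∃ x' b' q', (x', b', q') ∈ T ∧ r ≤ q' ∧
        ∃ d, Φ d r x x')

/-! ### The two halves -/

/-- the numeral `0` or `1` -/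
def bitN (c : Bool) : HSN CS := if c then numN CS 1 else numN CS 0

/-- the forced parity relation of the graph `(X, R)` (the first conjunct says that every finite
subset of the graph is 2-colourable) -/
def PhiN (X R : HSN CS) (b : Bool) (r : Cond) (x y : HSN CS) : Prop :=
  Frc CS (.and (.cHyp2 2 3) (.cPar b 2 3 0 1)) (cns x (cns y (cns X (cns R Fin.elim0)))) r

/-- Module K2a (uses Sound, ZPar): the forced parity relation satisfies `PRel`. -/
def Stmt_K2a : Prop := ∀ (X R : HSN CS) (E₀ : Submodule (ZMod 2) V),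
    (∀ g ∈ Fix E₀, Nm.Eqv (g • X).1 X.1 ⊤) → (∀ g ∈ Fix E₀, Nm.Eqv (g • R).1 R.1 ⊤) →
    PRel E₀ (PhiN X R)

/-- Module K2b: a colouring name from a coherent total set of assignments. -/
def Stmt_K2b : Prop := ∀ (X R : HSN CS) (E₀ : Submodule (ZMod 2) V),
    FiniteDimensional (ZMod 2) E₀ →
    (∀ g ∈ Fix E₀, Nm.Eqv (g • X).1 X.1 ⊤) → (∀ g ∈ Fix E₀, Nm.Eqv (g • R).1 R.1 ⊤) →
    PRel E₀ (PhiN X R) → ∀ T : Set (HSN CS × Bool × Cond),
      (∀ g ∈ Fix E₀, ∀ x b q, (x, b, q) ∈ T → (g • x, b, g • q) ∈ T) →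
      (∀ x b q x' b' q' r d, (x, b, q) ∈ T → (x', b', q') ∈ T → r ≤ q → r ≤ q' →
        PhiN X R d r x x' → xor b b' = d) →
      (∀ x q, PhiN X R false q x x → ∃ r ≤ q, ∃ x' b' q', (x', b', q') ∈ T ∧ r ≤ q' ∧
        ∃ d, PhiN X R d r x x') →
    ∃ f : HSN CS,
      (∀ (z : HSN CS) (r : Cond), Nm.Mem z.1 f.1 r → ∀ r' ≤ r, ∃ t ≤ r', ∃ (x : HSN CS) (c : Bool),
        Nm.Mem x.1 X.1 t ∧ Nm.Eqv z.1 (pairN x (bitN c)).1 t) ∧
      (∀ x r, PhiN X R false r x x → ∀ r' ≤ r, ∃ t ≤ r', ∃ c : Bool,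
        Nm.Mem (pairN x (bitN c)).1 f.1 t) ∧
      (∀ x r c c', Nm.Mem (pairN x (bitN c)).1 f.1 r → Nm.Mem (pairN x (bitN c')).1 f.1 r →
        c = c') ∧
      (∀ x y r c c' d, Nm.Mem (pairN x (bitN c)).1 f.1 r → Nm.Mem (pairN y (bitN c')).1 f.1 r →
        PhiN X R d r x y → xor c c' = d)

/-- Module K2: `K_{K_2}` is forced (uses K2a, K2b, Core, Sound, ZHom). -/
def Stmt_K2 : Prop := ∀ (s : Fin 0 → HSN CS) (r : Cond), Frc CS .cK2 s r

/-- the generic real `x_v` -/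
def realN (v : V) : HSN CS :=
  HSN.mk' CS ℕ (fun n => numN CS n) (fun n => Cond.sing v n true) (by
    refine ⟨Fix (Submodule.span (ZMod 2) {v}), ⟨_, inferInstance, le_rfl⟩, fun g hg n => ?_⟩
    have hv : g • v = v := hg v (Submodule.mem_span_singleton_self v)
    rw [Cond.smul_sing, hv]
    have h2 : g • (numN CS n).1 = (numN CS n).1 := congrArg HSN.val (smul_numN g n)
    rw [h2]
    exact Nm.mem_el (Nm.mk ℕ (fun i => (numN CS i).val) _) n le_rfl)

theorem smul_realN (g : GLV) (v : V) : g • realN v = realN (g • v) := by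
  apply HSN.ext
  exact congrArg₂ (Nm.mk ℕ) (funext fun n => congrArg HSN.val (smul_numN g n))
    (funext fun n => Cond.smul_sing g v n true)

/-- the set `A` of all generic reals -/
def setA : HSN CS :=
  HSN.mk' CS V realN (fun _ => ⊤) ⟨⊤, CS.top_mem, fun g _ v => by
    rw [CS.smul_top]
    have h2 : g • (realN v).1 = (realN (g • v)).1 := congrArg HSN.val (smul_realN g v)
    rw [h2]
    exact Nm.mem_el (Nm.mk V (fun i => (realN i).val) _) (g • v) le_rfl⟩

/-- the relation `R₀ = {(x_u, x_v, x_{u+v})}` -/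
def relR0 : HSN CS :=
  HSN.mk' CS (V × V) (fun w => pairN (pairN (realN w.1) (realN w.2)) (realN (w.1 + w.2)))
    (fun _ => ⊤) ⟨⊤, CS.top_mem, fun g _ w => by
    rw [CS.smul_top]
    have h2 : g • (pairN (pairN (realN w.1) (realN w.2)) (realN (w.1 + w.2))) =
        pairN (pairN (realN (g • w.1)) (realN (g • w.2))) (realN (g • w.1 + g • w.2)) := by
      rw [smul_pairN, smul_pairN, smul_realN, smul_realN, smul_realN, smul_add]
    rw [← HSN.smul_val, h2]
    exact Nm.mem_el (Nm.mk (V × V) (fun w => (pairN (pairN (realN w.1) (realN w.2))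
      (realN (w.1 + w.2))).val) _) (g • w.1, g • w.2) le_rfl⟩

/-- a fixed nonzero vector -/
def e0 : V := Finsupp.single 0 1

/-- the relation `R₁ = {(x_a, x_a, x_a)}` for `a = e0` -/
def relR1 : HSN CS := upair (pairN (pairN (realN e0) (realN e0)) (realN e0))
  (pairN (pairN (realN e0) (realN e0)) (realN e0))

/-- Module LinRel: the relations are relations on `A`. -/
def Stmt_LinRel : Prop := ∀ (n : ℕ) (i j : Fin n) (s : Fin n → HSN CS) (r : Cond),
    s j = setA → (s i = relR0 ∨ s i = relR1) → Frc CS (.cRel3 i j) s r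

/-- Module LinFin: every finite subsystem is solvable. -/
def Stmt_LinFin : Prop := ∀ (n : ℕ) (i j k : Fin n) (s : Fin n → HSN CS) (r : Cond),
    s i = setA → s j = relR0 → s k = relR1 → Frc CS (.cHypLin i j k) s r

/-- Module LinNo: the whole system is not solvable. -/
def Stmt_LinNo : Prop := ∀ (n : ℕ) (h i j k : Fin n) (s : Fin n → HSN CS) (r : Cond),
    s i = setA → s j = relR0 → s k = relR1 → ¬ Frc CS (.cHomLin h i j k) s r

/-- Module Lin: `K_{3LIN_2}` is forced to fail. -/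
def Stmt_Lin : Prop := ∀ (s : Fin 0 → HSN CS) (r : Cond), Frc CS (.neg .cLin) s r

/-- The final statement. -/
def Stmt_Final : Prop := ∃ (M : Type) (E : M → M → Prop), ZF E ∧ CompactK2 E ∧ ¬ CompactLin E

end Pool.Agent.SymZF
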