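import Pool.Agent.SymZF.Defs

/-!
Names over a poset `P`, forced equality and membership, group action, symmetric systems,
hereditarily symmetric names.  Conditions: `r ≤ p` means that `r` is stronger than `p`.
-/

namespace Pool.Agent.SymZF

/-- `P`-names: a name is a small family of pairs (name, condition). -/
inductive Nm (P : Type) : Type 1
  | mk (ι : Type) (A : ι → Nm P) (p : ι → P) : Nm P

namespace Nm

variable {P : Type}

/-- index type -/
def ix : Nm P → Type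
  | mk ι _ _ => ι

/-- the elements -/
def el : (x : Nm P) → x.ix → Nm P
  | mk _ A _ => A

/-- the conditions -/
def cd : (x : Nm P) → x.ix → P
  | mk _ _ p => p

@[simp] theorem ix_mk (ι : Type) (A : ι → Nm P) (p : ι → P) : (mk ι A p).ix = ι := rfl
@[simp] theorem el_mk (ι : Type) (A : ι → Nm P) (p : ι → P) (i : ι) : (mk ι A p).el i = A i := rfl
@[simp] theorem cd_mk (ι : Type) (A : ι → Nm P) (p : ι → P) (i : ι) : (mk ι A p).cd i = p i := rfl

theorem eta (x : Nm P) : mk x.ix x.el x.cd = x := by cases x; rfl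

section Order

variable [PartialOrder P]

/-- `Eqv x y r`: the condition `r` forces `x = y`. -/
def Eqv : Nm P → Nm P → P → Prop
  | mk ι A p, mk κ B q => fun r =>
    (∀ i : ι, ∀ r' ≤ r, r' ≤ p i → ∃ s ≤ r', ∃ j : κ, s ≤ q j ∧ Eqv (A i) (B j) s) ∧
    (∀ j : κ, ∀ r' ≤ r, r' ≤ q j → ∃ s ≤ r', ∃ i : ι, s ≤ p i ∧ Eqv (A i) (B j) s)

/-- `Mem x y r`: the condition `r` forces `x ∈ y`. -/
def Mem (x y : Nm P) (r : P) : Prop :=
  ∀ r' ≤ r, ∃ s ≤ r', ∃ j : y.ix, s ≤ y.cd j ∧ Eqv x (y.el j) s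

theorem eqv_def (x y : Nm P) (r : P) : Eqv x y r ↔
    (∀ i : x.ix, ∀ r' ≤ r, r' ≤ x.cd i → ∃ s ≤ r', ∃ j : y.ix, s ≤ y.cd j ∧ Eqv (x.el i) (y.el j) s) ∧
    (∀ j : y.ix, ∀ r' ≤ r, r' ≤ y.cd j → ∃ s ≤ r', ∃ i : x.ix, s ≤ x.cd i ∧ Eqv (x.el i) (y.el j) s) := by
  cases x; cases y; rw [Eqv]; rfl

theorem Eqv.mono {x y : Nm P} {r r' : P} (h : Eqv x y r) (hr : r' ≤ r) : Eqv x y r' := by
  rw [eqv_def] at h ⊢
  exact ⟨fun i t ht hti => h.1 i t (ht.trans hr) hti, fun j t ht htj => h.2 j t (ht.trans hr) htj⟩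

theorem Mem.mono {x y : Nm P} {r r' : P} (h : Mem x y r) (hr : r' ≤ r) : Mem x y r' :=
  fun t ht => h t (ht.trans hr)

theorem Eqv.local {x y : Nm P} {r : P} (h : ∀ r' ≤ r, ∃ s ≤ r', Eqv x y s) : Eqv x y r := by
  rw [eqv_def]
  refine ⟨fun i t ht hti => ?_, fun j t ht htj => ?_⟩
  · obtain ⟨s, hs, hxy⟩ := h t ht
    rw [eqv_def] at hxy
    obtain ⟨u, hu, j, huj, he⟩ := hxy.1 i s le_rfl (hs.trans hti)
    exact ⟨u, hu.trans hs, j, huj, he⟩
  · obtain ⟨s, hs, hxy⟩ := h t ht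
    rw [eqv_def] at hxy
    obtain ⟨u, hu, i, hui, he⟩ := hxy.2 j s le_rfl (hs.trans htj)
    exact ⟨u, hu.trans hs, i, hui, he⟩

theorem Mem.local {x y : Nm P} {r : P} (h : ∀ r' ≤ r, ∃ s ≤ r', Mem x y s) : Mem x y r := by
  intro t ht
  obtain ⟨s, hs, hm⟩ := h t ht
  obtain ⟨u, hu, j, huj, he⟩ := hm s le_rfl
  exact ⟨u, hu.trans hs, j, huj, he⟩

theorem Eqv.refl (x : Nm P) (r : P) : Eqv x x r := by
  induction x generalizing r with
  | mk ι A p ih =>
    rw [Eqv]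
    exact ⟨fun i t _ hti => ⟨t, le_rfl, i, hti, ih i t⟩, fun i t _ hti => ⟨t, le_rfl, i, hti, ih i t⟩⟩

theorem Eqv.symm {x y : Nm P} {r : P} (h : Eqv x y r) : Eqv y x r := by
  induction x generalizing y r with
  | mk ι A p ih =>
    cases y with
    | mk κ B q =>
      rw [Eqv] at h ⊢
      refine ⟨fun j t ht htj => ?_, fun i t ht hti => ?_⟩
      · obtain ⟨s, hs, i, hsi, he⟩ := h.2 j t ht htj
        exact ⟨s, hs, i, hsi, ih i he⟩
      · obtain ⟨s, hs, j, hsj, he⟩ := h.1 i t ht hti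
        exact ⟨s, hs, j, hsj, ih i he⟩

theorem Eqv.trans {x y z : Nm P} {r : P} (h : Eqv x y r) (h' : Eqv y z r) : Eqv x z r := by
  induction x generalizing y z r with
  | mk ι A p ih =>
    cases y with
    | mk κ B q =>
      cases z with
      | mk μ C c =>
        rw [Eqv] at h h' ⊢
        refine ⟨fun i t ht hti => ?_, fun j t ht htj => ?_⟩
        · obtain ⟨s, hs, j, hsj, he⟩ := h.1 i t ht hti
          obtain ⟨u, hu, k, huk, he'⟩ := h'.1 j s (hs.trans ht) hsj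
          exact ⟨u, hu.trans hs, k, huk, ih i (he.mono hu) he'⟩
        · obtain ⟨s, hs, k, hsk, he⟩ := h'.2 j t ht htj
          obtain ⟨u, hu, i, hui, he'⟩ := h.2 k s (hs.trans ht) hsk
          exact ⟨u, hu.trans hs, i, hui, ih i he' (he.mono hu)⟩

theorem Mem.congr_left {x x' y : Nm P} {r : P} (h : Mem x y r) (e : Eqv x x' r) : Mem x' y r := by
  intro t ht
  obtain ⟨s, hs, j, hsj, he⟩ := h t ht
  exact ⟨s, hs, j, hsj, ((e.mono (hs.trans ht)).symm).trans he⟩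

theorem Mem.congr_right {x y y' : Nm P} {r : P} (h : Mem x y r) (e : Eqv y y' r) : Mem x y' r := by
  intro t ht
  obtain ⟨s, hs, j, hsj, he⟩ := h t ht
  rw [eqv_def] at e
  obtain ⟨u, hu, k, huk, he'⟩ := e.1 j s (hs.trans ht) hsj
  exact ⟨u, hu.trans hs, k, huk, (he.mono hu).trans he'⟩

/-- an element of a name is forced to be a member by its condition -/
theorem mem_el (y : Nm P) (j : y.ix) {r : P} (hr : r ≤ y.cd j) : Mem (y.el j) y r :=
  fun t ht => ⟨t, le_rfl, j, ht.trans hr, Eqv.refl _ _⟩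

theorem eqv_iff_mem (x y : Nm P) (r : P) : Eqv x y r ↔
    (∀ i : x.ix, ∀ r' ≤ r, r' ≤ x.cd i → Mem (x.el i) y r') ∧
    (∀ j : y.ix, ∀ r' ≤ r, r' ≤ y.cd j → Mem (y.el j) x r') := by
  constructor
  · intro h
    refine ⟨fun i t ht hti => (mem_el x i hti).congr_right (h.mono ht),
      fun j t ht htj => (mem_el y j htj).congr_right (h.symm.mono ht)⟩
  · rintro ⟨h1, h2⟩
    rw [eqv_def]
    refine ⟨fun i t ht hti => h1 i t ht hti t le_rfl, fun j t ht htj => ?_⟩
    obtain ⟨s, hs, i, hsi, he⟩ := h2 j t ht htj t le_rfl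
    exact ⟨s, hs, i, hsi, he.symm⟩

end Order

section Action

variable {G : Type} [Group G] [MulAction G P]

/-- the action of a group on names -/
def act (g : G) : Nm P → Nm P
  | mk ι A p => mk ι (fun i => act g (A i)) (fun i => g • p i)

instance : MulAction G (Nm P) where
  smul g x := act g x
  one_smul x := by
    show act 1 x = x
    induction x with
    | mk ι A p ih => simp only [act, ih, one_smul]
  mul_smul g h x := by
    show act (g * h) x = act g (act h x)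
    induction x with
    | mk ι A p ih => simp only [act, ih, mul_smul]

theorem smul_mk (g : G) (ι : Type) (A : ι → Nm P) (p : ι → P) :
    g • mk ι A p = mk ι (fun i => g • A i) (fun i => g • p i) := rfl

end Action

end Nm

/-- A symmetric system on `(P, G)`: `G` acts on `P` by order automorphisms and `opn` is a normal
filter of subgroups of `G` (the open subgroups). -/
structure SymSys (P G : Type) [PartialOrder P] [OrderTop P] [Group G] [MulAction G P] where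
  smul_mono : ∀ (g : G) (p q : P), p ≤ q → g • p ≤ g • q
  smul_top : ∀ g : G, g • (⊤ : P) = ⊤
  opn : Set (Subgroup G)
  top_mem : ⊤ ∈ opn
  inf_mem : ∀ H ∈ opn, ∀ K ∈ opn, H ⊓ K ∈ opn
  up_mem : ∀ H ∈ opn, ∀ K : Subgroup G, H ≤ K → K ∈ opn
  conj_mem : ∀ H ∈ opn, ∀ g : G, ∃ K ∈ opn, ∀ k ∈ K, g⁻¹ * k * g ∈ H

section

variable {P G : Type} [PartialOrder P] [OrderTop P] [Group G] [MulAction G P]

/-- `Sup S x H`: the name `x` is (forced to be) fixed by all elements of the open subgroup `H`. -/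
def FixBy (x : Nm P) (H : Subgroup G) : Prop := ∀ g ∈ H, Nm.Eqv (g • x) x ⊤

/-- hereditarily symmetric names -/
def HS (S : SymSys P G) : Nm P → Prop
  | .mk ι A p => (∀ i, HS S (A i)) ∧ ∃ H ∈ S.opn, FixBy (Nm.mk ι A p) H

theorem HS_iff (S : SymSys P G) (x : Nm P) :
    HS S x ↔ (∀ i : x.ix, HS S (x.el i)) ∧ ∃ H ∈ S.opn, FixBy x H := by
  cases x; rw [HS]; rfl

theorem SymSys.smul_le_smul_iff (S : SymSys P G) (g : G) (p q : P) : g • p ≤ g • q ↔ p ≤ q := by
  constructor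
  · intro h
    have := S.smul_mono g⁻¹ _ _ h
    simpa using this
  · exact S.smul_mono g p q

theorem SymSys.smul_le_iff (S : SymSys P G) (g : G) (p q : P) : g • p ≤ q ↔ p ≤ g⁻¹ • q := by
  rw [← S.smul_le_smul_iff g p (g⁻¹ • q), smul_inv_smul]

theorem SymSys.le_smul_iff (S : SymSys P G) (g : G) (p q : P) : p ≤ g • q ↔ g⁻¹ • p ≤ q := by
  rw [← S.smul_le_smul_iff g (g⁻¹ • p) q, smul_inv_smul]

theorem SymSys.eqv_smul (S : SymSys P G) (g : G) {x y : Nm P} {r : P} (h : Nm.Eqv x y r) :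
    Nm.Eqv (g • x) (g • y) (g • r) := by
  induction x generalizing y r with
  | mk ι A p ih =>
    cases y with
    | mk κ B q =>
      rw [Nm.smul_mk, Nm.smul_mk]
      rw [Nm.Eqv] at h ⊢
      refine ⟨fun i t ht hti => ?_, fun j t ht htj => ?_⟩
      · obtain ⟨s, hs, j, hsj, he⟩ := h.1 i (g⁻¹ • t) (by rwa [← S.le_smul_iff]) (by rwa [← S.le_smul_iff])
        exact ⟨g • s, by rwa [S.smul_le_iff], j, S.smul_mono _ _ _ hsj, ih i he⟩
      · obtain ⟨s, hs, i, hsi, he⟩ := h.2 j (g⁻¹ • t) (by rwa [← S.le_smul_iff]) (by rwa [← S.le_smul_iff])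
        exact ⟨g • s, by rwa [S.smul_le_iff], i, S.smul_mono _ _ _ hsi, ih i he⟩

theorem SymSys.eqv_smul_iff (S : SymSys P G) (g : G) {x y : Nm P} {r : P} :
    Nm.Eqv (g • x) (g • y) (g • r) ↔ Nm.Eqv x y r := by
  refine ⟨fun h => ?_, S.eqv_smul g⟩
  simpa using S.eqv_smul g⁻¹ h

omit [PartialOrder P] [OrderTop P] in
theorem Nm.el_smul (g : G) (x : Nm P) (i : (g • x).ix) :
    ∃ j : x.ix, (g • x).el i = g • x.el j ∧ (g • x).cd i = g • x.cd j := by
  cases x with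
  | mk ι A p => exact ⟨i, rfl, rfl⟩

omit [PartialOrder P] [OrderTop P] in
theorem Nm.el_smul' (g : G) (x : Nm P) (j : x.ix) :
    ∃ i : (g • x).ix, (g • x).el i = g • x.el j ∧ (g • x).cd i = g • x.cd j := by
  cases x with
  | mk ι A p => exact ⟨j, rfl, rfl⟩

theorem SymSys.mem_smul (S : SymSys P G) (g : G) {x y : Nm P} {r : P} (h : Nm.Mem x y r) :
    Nm.Mem (g • x) (g • y) (g • r) := by
  intro t ht
  obtain ⟨s, hs, j, hsj, he⟩ := h (g⁻¹ • t) (by rwa [← S.le_smul_iff])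
  obtain ⟨i, hi, hi'⟩ := Nm.el_smul' g y j
  exact ⟨g • s, by rwa [S.smul_le_iff], i, by rw [hi']; exact S.smul_mono _ _ _ hsj,
    by rw [hi]; exact S.eqv_smul g he⟩

theorem SymSys.mem_smul_iff (S : SymSys P G) (g : G) {x y : Nm P} {r : P} :
    Nm.Mem (g • x) (g • y) (g • r) ↔ Nm.Mem x y r := by
  refine ⟨fun h => ?_, S.mem_smul g⟩
  simpa using S.mem_smul g⁻¹ h

theorem HS.smul {S : SymSys P G} {x : Nm P} (h : HS S x) (g : G) : HS S (g • x) := by
  induction x with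
  | mk ι A p ih =>
    rw [HS] at h
    rw [Nm.smul_mk, HS]
    refine ⟨fun i => ih i (h.1 i), ?_⟩
    obtain ⟨H, hH, hf⟩ := h.2
    obtain ⟨K, hK, hk⟩ := S.conj_mem H hH g
    refine ⟨K, hK, fun k hkK => ?_⟩
    have h1 := S.eqv_smul g (hf _ (hk k hkK))
    rw [smul_smul, S.smul_top] at h1
    have h2 : g * (g⁻¹ * k * g) = k * g := by group
    rw [h2, ← smul_smul] at h1
    exact h1

/-- the type of hereditarily symmetric names -/
@[ext] structure HSN (S : SymSys P G) : Type 1 where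
  val : Nm P
  prop : HS S val

instance (S : SymSys P G) : MulAction G (HSN S) where
  smul g x := ⟨g • x.1, x.2.smul g⟩
  one_smul x := HSN.ext (one_smul G x.1)
  mul_smul g h x := HSN.ext (mul_smul g h x.1)

@[simp] theorem HSN.smul_val (S : SymSys P G) (g : G) (x : HSN S) : (g • x).1 = g • x.1 := rfl

/-- elements of a hereditarily symmetric name -/
def HSN.el {S : SymSys P G} (x : HSN S) (i : x.1.ix) : HSN S := ⟨x.1.el i, ((HS_iff S x.1).1 x.2).1 i⟩

theorem HSN.exists_fix {S : SymSys P G} (x : HSN S) : ∃ H ∈ S.opn, FixBy x.1 H :=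
  ((HS_iff S x.1).1 x.2).2

/-- Extensionality tested on hereditarily symmetric names. -/
theorem HSN.ext_mem {S : SymSys P G} {x y : HSN S} {r : P}
    (h : ∀ z : HSN S, ∀ r' ≤ r, Nm.Mem z.1 x.1 r' ↔ Nm.Mem z.1 y.1 r') : Nm.Eqv x.1 y.1 r := by
  rw [Nm.eqv_iff_mem]
  refine ⟨fun i t ht hti => ?_, fun j t ht htj => ?_⟩
  · exact (h (x.el i) t ht).1 (Nm.mem_el x.1 i hti)
  · exact (h (y.el j) t ht).2 (Nm.mem_el y.1 j htj)

/-- Criterion for symmetry of a name: `H` moves each element of `x` into `x`. -/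
theorem fixBy_of_mem (S : SymSys P G) {x : Nm P} {H : Subgroup G}
    (h : ∀ g ∈ H, ∀ i : x.ix, Nm.Mem (g • x.el i) x (g • x.cd i)) : FixBy x H := by
  intro g hg
  rw [Nm.eqv_iff_mem]
  refine ⟨fun i t _ hti => ?_, fun j t _ htj => ?_⟩
  · obtain ⟨j, hj, hj'⟩ := Nm.el_smul g x i
    rw [hj]
    rw [hj'] at hti
    exact (h g hg j).mono hti
  · have h1 := S.mem_smul g (h g⁻¹ (H.inv_mem hg) j)
    rw [smul_inv_smul, smul_inv_smul] at h1
    exact h1.mono htj

/-- Build a hereditarily symmetric name. -/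
def HSN.mk' (S : SymSys P G) (ι : Type) (A : ι → HSN S) (p : ι → P)
    (h : ∃ H ∈ S.opn, ∀ g ∈ H, ∀ i, Nm.Mem (g • (A i).1) (Nm.mk ι (fun i => (A i).1) p) (g • p i)) :
    HSN S :=
  ⟨Nm.mk ι (fun i => (A i).1) p, by
    rw [HS]
    refine ⟨fun i => (A i).2, ?_⟩
    obtain ⟨H, hH, hg⟩ := h
    exact ⟨H, hH, fixBy_of_mem S hg⟩⟩

end

end Pool.Agent.SymZF
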